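import Pool.Agent.Lib.MP_1a0ddd_nt.Cn.Ct

/-! The mean number of points of conic bundles. -/

set_option autoImplicit false

namespace Pool.Agent.Lib.MP_1a0ddd_nt.Cn

open Polynomial Pool.Agent.Lib.MP_1a0ddd_nt.V Pool.Agent.Lib.MP_1a0ddd_nt.Fb

private theorem card_one {S : Type} [CommRing S] (p : ℕ) [Fact p.Prime] :
    Nat.card {z : S →+* ZMod p // z 1 ≠ 0} = Nat.card (S →+* ZMod p) := by
  refine Nat.card_congr (Equiv.subtypeUnivEquiv fun z => ?_)
  rw [map_one]
  exact one_ne_zero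

/-- the mean of the characters of the double cover. Proof: `card_sqt` and the two point counts with
`D = 1` -/
theorem mean_char {S : Type} [CommRing S] [Nontrivial S] [Algebra.FiniteType ℤ S] (u : S)
    {e : ℕ} (hu : Nontrivial (Sqt u)) (h1 : Quad.LangWeilT S e)
    (h2 : Quad.LangWeilT (Sqt u) e) :
    Quad.TauMean (fun p : ℕ => (∑ᶠ σ : S →+* ZMod p, (chi p (σ u) : ℝ)) / (p : ℝ) ^ e) 0 := by
  have h3 := (h2 1 one_ne_zero).sub (h1 1 one_ne_zero)
  rw [sub_self] at h3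
  refine h3.congr' 0 fun p _ hp => ?_
  have : Fact p.Prime := ⟨hp⟩
  have hfin : Finite (S →+* ZMod p) := W.finite_hom S p hp
  have := Fintype.ofFinite (S →+* ZMod p)
  have h4 := card_sqt u p
  have h5 : (Nat.card (Sqt u →+* ZMod p) : ℝ) =
      Nat.card (S →+* ZMod p) + ∑ σ : S →+* ZMod p, (chi p (σ u) : ℝ) := by
    have h6 : ((Nat.card (Sqt u →+* ZMod p) : ℤ) : ℝ) =
        ((∑ σ : S →+* ZMod p, (1 + chi p (σ u)) : ℤ) : ℝ) := by rw [h4]
    push_cast at h6
    rw [h6, Finset.sum_add_distrib, Finset.sum_const, Finset.card_univ, nsmul_eq_mul, mul_one,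
      Nat.card_eq_fintype_card]
  rw [card_one, card_one, finsum_eq_sum_of_fintype, h5, ← sub_div]
  congr 1
  ring

private theorem abs_chi_le {p : ℕ} [Fact p.Prime] (x : ZMod p) : |(chi p x : ℝ)| ≤ 1 := by
  classical
  have h1 : Nat.card {y : ZMod p // y ^ 2 = x} ≤ 2 := by
    rw [Nat.card_eq_fintype_card, Fintype.card_subtype]
    by_cases h : ∃ y0 : ZMod p, y0 ^ 2 = x
    · obtain ⟨y0, h0⟩ := h
      refine (Finset.card_le_card (t := {y0, -y0}) fun y hy => ?_).trans Finset.card_le_two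
      have h2 := (Finset.mem_filter.1 hy).2
      have h3 : (y - y0) * (y + y0) = 0 := by linear_combination h2 - h0
      rw [Finset.mem_insert, Finset.mem_singleton]
      rcases mul_eq_zero.1 h3 with h4 | h4
      · left; linear_combination h4
      · right; linear_combination h4
    · rw [Finset.card_eq_zero.2]
      · exact Nat.zero_le 2
      · rw [Finset.filter_eq_empty_iff]
        intro y _ hy
        exact h ⟨y, hy⟩
  have h2 : (0 : ℝ) ≤ (Nat.card {y : ZMod p // y ^ 2 = x} : ℝ) := Nat.cast_nonneg _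
  have h3 : (Nat.card {y : ZMod p // y ^ 2 = x} : ℝ) ≤ 2 := by exact_mod_cast h1
  unfold chi
  push_cast
  rw [abs_le]
  constructor <;> linarith

private theorem card_ind {α : Type} [Fintype α] (Q : α → Prop) [DecidablePred Q] :
    (Nat.card {x : α // Q x} : ℝ) = ∑ x, (if Q x then (1 : ℝ) else 0) := by
  rw [Nat.card_eq_fintype_card, Fintype.card_subtype, Finset.card_filter]
  push_cast
  rfl

/-- ring maps from a quotient -/
private noncomputable def quotEquiv {S : Type} [CommRing S] (J : Ideal S) (p : ℕ) :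
    (S ⧸ J →+* ZMod p) ≃ {φ : S →+* ZMod p // ∀ u ∈ J, φ u = 0} where
  toFun z := ⟨z.comp (Ideal.Quotient.mk J), fun u hu => by
    rw [RingHom.comp_apply, Ideal.Quotient.eq_zero_iff_mem.2 hu, map_zero]⟩
  invFun φ := Ideal.Quotient.lift J φ.1 φ.2
  left_inv z := Ideal.Quotient.ringHom_ext (RingHom.ext fun u => by simp)
  right_inv φ := Subtype.ext (RingHom.ext fun u => by simp)

private theorem sum_quot {S : Type} [CommRing S] (J : Ideal S) (p : ℕ)
    [Fintype (S →+* ZMod p)] [DecidablePred fun φ : S →+* ZMod p => ∀ u ∈ J, φ u = 0]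
    (F : (S →+* ZMod p) → ℝ) :
    ∑ᶠ τ : S ⧸ J →+* ZMod p, F (τ.comp (Ideal.Quotient.mk J)) =
      ∑ φ : S →+* ZMod p, (if ∀ u ∈ J, φ u = 0 then F φ else 0) := by
  have h1 : ∑ᶠ τ : S ⧸ J →+* ZMod p, F (τ.comp (Ideal.Quotient.mk J)) =
      ∑ᶠ ψ : {φ : S →+* ZMod p // ∀ u ∈ J, φ u = 0}, F ψ.1 :=
    finsum_comp_equiv (quotEquiv J p) (f := fun ψ => F ψ.1)
  rw [h1, finsum_eq_sum_of_fintype, ← Finset.sum_filter]
  exact (Finset.sum_subtype _ (fun x => by simp) F).symm

/-- the mean of the number of points of a component on which `E` does not vanish -/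
private theorem mean_ind {S : Type} [CommRing S] [Algebra.FiniteType ℤ S] (J : Ideal S) {e : ℕ}
    (h : Quad.LangWeilT (S ⧸ J) e) (E : S) (hE : E ∉ J) :
    Quad.TauMean (fun p : ℕ => (∑ᶠ τ : S ⧸ J →+* ZMod p,
      (if τ (Ideal.Quotient.mk J E) ≠ 0 then (1 : ℝ) else 0)) / (p : ℝ) ^ e) 1 := by
  classical
  refine (h (Ideal.Quotient.mk J E)
    (fun h2 => hE (Ideal.Quotient.eq_zero_iff_mem.1 h2))).congr' 0 fun p _ hp => ?_
  have : Fact p.Prime := ⟨hp⟩
  have hfin : Finite (S →+* ZMod p) := W.finite_hom S p hp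
  have hfin' : Finite (S ⧸ J →+* ZMod p) := Finite.of_equiv _ (quotEquiv J p).symm
  have := Fintype.ofFinite (S ⧸ J →+* ZMod p)
  rw [finsum_eq_sum_of_fintype, card_ind]

private theorem nontrivial_sqt {S : Type} [CommRing S] [Nontrivial S] (u : S) :
    Nontrivial (Sqt u) := by
  refine ⟨⟨0, 1, fun h => ?_⟩⟩
  have hm : (X ^ 2 - C u : S[X]).Monic := monic_X_pow_sub_C u two_ne_zero
  have h1 : AdjoinRoot.mk (X ^ 2 - C u : S[X]) 1 = 0 := by
    rw [map_one]
    exact h.symm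
  rw [AdjoinRoot.mk_eq_zero] at h1
  have h2 := hm.eq_one_of_isUnit (isUnit_of_dvd_one h1)
  have h3 : (X ^ 2 - C u : S[X]).natDegree = 2 := natDegree_X_pow_sub_C
  rw [h2, natDegree_one] at h3
  omega

private theorem ft_int (S : Type) [CommRing S] [a : Algebra ℤ S]
    (h : @Algebra.FiniteType ℤ S _ _ a) : @Algebra.FiniteType ℤ S _ _ (Ring.toIntAlgebra S) := by
  have e : a = Ring.toIntAlgebra S := Subsingleton.elim _ _
  rw [← e]
  exact h

private theorem ft_quot (S : Type) [CommRing S] [Algebra.FiniteType ℤ S] (J : Ideal S) :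
    @Algebra.FiniteType ℤ (S ⧸ J) _ _ (Ring.toIntAlgebra _) :=
  ft_int _ (Algebra.FiniteType.of_surjective (Ideal.Quotient.mkₐ ℤ J)
    (Ideal.Quotient.mkₐ_surjective ℤ J))

/-- one point -/
private theorem ptwise {S : Type} [CommRing S] {m : ℕ} {P : Fin m → Ideal S} {a b c : S}
    {p : ℕ} [Fact p.Prime] (hp2 : p ≠ 2) (hle : ∀ i, Ideal.span {b ^ 2 - a * c} ≤ P i)
    (hpow : ∃ k : ℕ, (∏ i, P i) ^ k ≤ Ideal.span {b ^ 2 - a * c}) (u D : Fin m → S)
    (hu : ∀ i, u i = a ∨ u i = c) (hD : ∀ i j, j ≠ i → D i ∈ P j) (σ : S →+* ZMod p)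
    [∀ i, Decidable (∀ x ∈ P i, σ x = 0)] :
    |(if σ b ^ 2 - σ a * σ c = 0 then
        (chi p (if σ a = 0 then σ c else σ a) : ℝ) else 0) -
      ∑ i, (if ∀ x ∈ P i, σ x = 0 then (chi p (σ (u i)) : ℝ) else 0)| ≤
      (1 + m) * ∑ i, ((if ∀ x ∈ P i, σ x = 0 then (1 : ℝ) else 0) -
        (if ∀ x ∈ P i, σ x = 0 then (if σ (D i * u i) ≠ 0 then (1 : ℝ) else 0) else 0)) := by
  classical
  have hterm : ∀ i, (0 : ℝ) ≤ (if ∀ x ∈ P i, σ x = 0 then (1 : ℝ) else 0) -
        (if ∀ x ∈ P i, σ x = 0 then (if σ (D i * u i) ≠ 0 then (1 : ℝ) else 0) else 0) := by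
    intro i
    split_ifs <;> norm_num
  have hdisc : ∀ i, (∀ x ∈ P i, σ x = 0) → σ b ^ 2 - σ a * σ c = 0 := by
    intro i hi
    have h1 := hi _ (hle i (Ideal.subset_span rfl))
    rwa [map_sub, map_pow, map_mul] at h1
  by_cases h0 : σ b ^ 2 - σ a * σ c = 0
  swap
  · rw [if_neg h0]
    have h1 : ∀ i, ¬ ∀ x ∈ P i, σ x = 0 := fun i hi => h0 (hdisc i hi)
    have h2 : ∑ i, (if ∀ x ∈ P i, σ x = 0 then (chi p (σ (u i)) : ℝ) else 0) = 0 :=
      Finset.sum_eq_zero fun i _ => if_neg (h1 i)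
    rw [h2, sub_self, abs_zero]
    exact mul_nonneg (by positivity) (Finset.sum_nonneg fun i _ => hterm i)
  rw [if_pos h0]
  -- a component through the point
  obtain ⟨i, hi⟩ : ∃ i, ∀ x ∈ P i, σ x = 0 := by
    obtain ⟨k, hk⟩ := hpow
    have hker : (RingHom.ker σ).IsPrime := RingHom.ker_isPrime σ
    have h3 : Ideal.span {b ^ 2 - a * c} ≤ RingHom.ker σ := by
      rw [Ideal.span_le]
      rintro x rfl
      change σ (b ^ 2 - a * c) = 0
      rw [map_sub, map_pow, map_mul]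
      exact h0
    have h4 : (∏ i, P i) ≤ RingHom.ker σ := hker.le_of_pow_le (hk.trans h3)
    obtain ⟨i, -, hi⟩ := (Ideal.IsPrime.prod_le hker).1 h4
    exact ⟨i, fun x hx => hi hx⟩
  by_cases hbad : ∃ j, (∀ x ∈ P j, σ x = 0) ∧ σ (D j * u j) = 0
  · obtain ⟨j, hj, hj'⟩ := hbad
    have h1 : (1 : ℝ) ≤ ∑ i, ((if ∀ x ∈ P i, σ x = 0 then (1 : ℝ) else 0) -
        (if ∀ x ∈ P i, σ x = 0 then (if σ (D i * u i) ≠ 0 then (1 : ℝ) else 0) else 0)) := by
      refine le_trans ?_ (Finset.single_le_sum (fun i _ => hterm i) (Finset.mem_univ j))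
      rw [if_pos hj, if_pos hj, if_neg (not_not.2 hj'), sub_zero]
    have h2 : |∑ i, (if ∀ x ∈ P i, σ x = 0 then (chi p (σ (u i)) : ℝ) else 0)| ≤ m := by
      refine (Finset.abs_sum_le_sum_abs _ _).trans ?_
      refine (Finset.sum_le_sum (g := fun _ => (1 : ℝ)) fun i _ => ?_).trans ?_
      · split_ifs
        · exact abs_chi_le _
        · rw [abs_zero]; exact zero_le_one
      · rw [Finset.sum_const, Finset.card_univ, Fintype.card_fin, nsmul_eq_mul, mul_one]
    have h3 := abs_chi_le (if σ a = 0 then σ c else σ a)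
    calc _ ≤ |(chi p (if σ a = 0 then σ c else σ a) : ℝ)| +
          |∑ i, (if ∀ x ∈ P i, σ x = 0 then (chi p (σ (u i)) : ℝ) else 0)| := abs_sub _ _
      _ ≤ 1 + m := add_le_add h3 h2
      _ = (1 + m) * 1 := (mul_one _).symm
      _ ≤ _ := mul_le_mul_of_nonneg_left h1 (by positivity)
  · push Not at hbad
    have hne := hbad i hi
    rw [map_mul] at hne
    have hDi : σ (D i) ≠ 0 := left_ne_zero_of_mul hne
    have hui : σ (u i) ≠ 0 := right_ne_zero_of_mul hne
    have h1 : ∑ j, (if ∀ x ∈ P j, σ x = 0 then (chi p (σ (u j)) : ℝ) else 0) =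
        chi p (σ (u i)) := by
      rw [Finset.sum_eq_single i]
      · rw [if_pos hi]
      · intro j _ hj
        rw [if_neg]
        intro h2
        exact hDi (h2 _ (hD i j hj))
      · intro h2
        exact absurd (Finset.mem_univ i) h2
    have h2 : chi p (if σ a = 0 then σ c else σ a) = chi p (σ (u i)) := by
      by_cases ha : σ a = 0
      · rw [if_pos ha]
        rcases hu i with h3 | h3
        · rw [h3] at hui
          exact absurd ha hui
        · rw [h3]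
      · rw [if_neg ha]
        rcases hu i with h3 | h3
        · rw [h3]
        · rw [h3] at hui ⊢
          exact chi_mul_sq hp2 ha hui h0
    rw [h1, h2, sub_self, abs_zero]
    exact mul_nonneg (by positivity) (Finset.sum_nonneg fun i _ => hterm i)

/-- the mean over the discriminant -/
private theorem disc_mean {R S : Type} [CommRing R] [CommRing S] [Algebra R S]
    [Algebra.FiniteType ℤ S] {a b c : S} {e m : ℕ} {P : Fin m → Ideal S}
    (hP : CompsG R (Ideal.span {b ^ 2 - a * c}) e P)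
    (h : ∀ i, ∃ u : S, (u = a ∨ u = c) ∧ (∀ x y : S, y ^ 2 - u * x ^ 2 ∈ P i → x ∈ P i) ∧
      Quad.LangWeilT (Sqt (Ideal.Quotient.mk (P i) u)) e) :
    Quad.TauMean (fun p : ℕ => (∑ᶠ σ : S →+* ZMod p, (if σ b ^ 2 - σ a * σ c = 0 then
      (chi p (if σ a = 0 then σ c else σ a) : ℝ) else 0)) / (p : ℝ) ^ e) 0 := by
  classical
  choose u hu hsq hlw using h
  have huP : ∀ i, u i ∉ P i := by
    intro i hi
    refine (hP.prime i).ne_top ((Ideal.eq_top_iff_one _).2 (hsq i 1 0 ?_))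
    rw [one_pow, mul_one, zero_pow two_ne_zero, zero_sub]
    exact (P i).neg_mem hi
  have hD : ∀ i, ∃ D : S, D ∉ P i ∧ ∀ j, j ≠ i → D ∈ P j := by
    intro i
    have h1 : ¬ (∏ j ∈ Finset.univ.erase i, P j) ≤ P i := by
      intro h2
      obtain ⟨j, hj, h3⟩ := (Ideal.IsPrime.prod_le (hP.prime i)).1 h2
      exact (Finset.mem_erase.1 hj).1 (hP.inc j i h3)
    obtain ⟨D, hD, hD'⟩ := SetLike.not_le_iff_exists.1 h1
    refine ⟨D, hD', fun j hj => ?_⟩
    have h2 : (∏ j ∈ Finset.univ.erase i, P j) ≤ P j :=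
      Ideal.prod_le_inf.trans (Finset.inf_le (Finset.mem_erase.2 ⟨hj, Finset.mem_univ j⟩))
    exact h2 hD
  choose D hD1 hD2 using hD
  -- the main terms
  have hf : ∀ i, Quad.TauMean (fun p : ℕ => (∑ᶠ τ : S ⧸ P i →+* ZMod p,
      (chi p (τ (Ideal.Quotient.mk (P i) (u i))) : ℝ)) / (p : ℝ) ^ e) 0 := by
    intro i
    have : (P i).IsPrime := hP.prime i
    have := ft_quot S (P i)
    exact mean_char _ (nontrivial_sqt _) (hP.count i) (hlw i)
  have hfs := Quad.TauMean.sum Finset.univ _ _ (fun i _ => hf i)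
  -- the bad points
  have hg : ∀ i, Quad.TauMean (fun p : ℕ => (∑ᶠ τ : S ⧸ P i →+* ZMod p,
      (if τ (Ideal.Quotient.mk (P i) 1) ≠ 0 then (1 : ℝ) else 0)) / (p : ℝ) ^ e -
      (∑ᶠ τ : S ⧸ P i →+* ZMod p,
      (if τ (Ideal.Quotient.mk (P i) (D i * u i)) ≠ 0 then (1 : ℝ) else 0)) / (p : ℝ) ^ e) 0 := by
    intro i
    have h1 := (mean_ind (P i) (hP.count i) 1 fun h1 =>
      (hP.prime i).ne_top ((Ideal.eq_top_iff_one _).2 h1)).sub
      (mean_ind (P i) (hP.count i) (D i * u i) fun h1 =>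
        ((hP.prime i).mem_or_mem h1).elim (hD1 i) (huP i))
    rwa [sub_self] at h1
  have hgs := Quad.TauMean.sum Finset.univ _ _ (fun i _ => hg i)
  rw [Finset.sum_const_zero] at hfs hgs
  have hdiff : Quad.TauMean (fun p : ℕ => (∑ᶠ σ : S →+* ZMod p,
      (if σ b ^ 2 - σ a * σ c = 0 then
        (chi p (if σ a = 0 then σ c else σ a) : ℝ) else 0)) / (p : ℝ) ^ e -
      ∑ i, (∑ᶠ τ : S ⧸ P i →+* ZMod p,
        (chi p (τ (Ideal.Quotient.mk (P i) (u i))) : ℝ)) / (p : ℝ) ^ e) 0 := by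
    refine Quad.TauMean.of_abs_le hgs (1 + m) 3 fun p hp3 hp => ?_
    have : Fact p.Prime := ⟨hp⟩
    have hfin : Finite (S →+* ZMod p) := W.finite_hom S p hp
    have := Fintype.ofFinite (S →+* ZMod p)
    have e1 : ∀ i, ∑ᶠ τ : S ⧸ P i →+* ZMod p,
        (chi p (τ (Ideal.Quotient.mk (P i) (u i))) : ℝ) =
        ∑ φ : S →+* ZMod p, (if ∀ x ∈ P i, φ x = 0 then (chi p (φ (u i)) : ℝ) else 0) :=
      fun i => sum_quot (P i) p fun φ => (chi p (φ (u i)) : ℝ)
    have e2 : ∀ i (E : S), ∑ᶠ τ : S ⧸ P i →+* ZMod p,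
        (if τ (Ideal.Quotient.mk (P i) E) ≠ 0 then (1 : ℝ) else 0) =
        ∑ φ : S →+* ZMod p, (if ∀ x ∈ P i, φ x = 0 then
          (if φ E ≠ 0 then (1 : ℝ) else 0) else 0) :=
      fun i E => sum_quot (P i) p fun φ => (if φ E ≠ 0 then (1 : ℝ) else 0)
    have e3 : ∀ φ : S →+* ZMod p, (if φ 1 ≠ 0 then (1 : ℝ) else 0) = 1 := by
      intro φ
      rw [map_one, if_pos one_ne_zero]
    simp only [e1, e2, e3]
    rw [finsum_eq_sum_of_fintype]
    simp only [← sub_div]
    rw [← Finset.sum_div, ← Finset.sum_div, ← sub_div, abs_div,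
      abs_of_nonneg (by positivity : (0 : ℝ) ≤ (p : ℝ) ^ e), ← mul_div_assoc]
    refine div_le_div_of_nonneg_right ?_ (by positivity)
    simp only [← Finset.sum_sub_distrib]
    rw [Finset.sum_comm, ← Finset.sum_sub_distrib]
    have e4 : ∑ i, ∑ φ : S →+* ZMod p, ((if ∀ x ∈ P i, φ x = 0 then (1 : ℝ) else 0) -
        (if ∀ x ∈ P i, φ x = 0 then (if φ (D i * u i) ≠ 0 then (1 : ℝ) else 0) else 0)) =
        ∑ φ : S →+* ZMod p, ∑ i, ((if ∀ x ∈ P i, φ x = 0 then (1 : ℝ) else 0) -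
        (if ∀ x ∈ P i, φ x = 0 then (if φ (D i * u i) ≠ 0 then (1 : ℝ) else 0) else 0)) :=
      Finset.sum_comm
    rw [e4, Finset.mul_sum]
    refine (Finset.abs_sum_le_sum_abs _ _).trans (Finset.sum_le_sum fun σ _ => ?_)
    exact ptwise (by omega) hP.le hP.pow u D hu hD2 σ
  have := hdiff.add hfs
  rw [add_zero] at this
  exact this.congr' 0 fun p _ _ => by ring

/-- proof: `#Conic = p #S - ∑ χ(a) + p ∑_(D = 0) χ(u)` by `conic_points`; the first sum is
`o(p^(e + 1))` by `mean_char`; for the second one use the components `P i` of `D = 0`: a point on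
`P i` on which `u_i` does not vanish has `χ(u) = χ(u_i)` (`chi_mul_sq`), points on two components or
with `u_i = 0` are negligible (`LangWeilT` for `S/P i` with an element `D`), and
`mean_char` applies to `S/P i` and `u_i` -/
theorem conic_mean {R S : Type} [CommRing R] [CommRing S] [Algebra R S] [IsDomain S]
    [Algebra.FiniteType ℤ S] {a b c : S} {e : ℕ} (h : ConicData R a b c e) :
    Quad.TauMean (fun p : ℕ => ((p : ℝ) * Nat.card (S →+* ZMod p) -
      Nat.card (Conic a b c →+* ZMod p)) / (p : ℝ) ^ (e + 1)) 0 := by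
  classical
  obtain ⟨m, P, hP, hu⟩ := h.comp
  have h1 := mean_char a (nontrivial_sqt a) h.base h.cover
  have h2 := disc_mean hP hu
  have h3 := h1.sub h2
  rw [sub_zero] at h3
  refine h3.congr' 3 fun p hp3 hp => ?_
  have : Fact p.Prime := ⟨hp⟩
  have hfin : Finite (S →+* ZMod p) := W.finite_hom S p hp
  have := Fintype.ofFinite (S →+* ZMod p)
  have hp0 : (p : ℝ) ≠ 0 := by
    have := hp.pos
    positivity
  have h4 : (Nat.card (Conic a b c →+* ZMod p) : ℝ) = ∑ σ : S →+* ZMod p,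
      ((p : ℝ) - chi p (σ a) + p * (if σ b ^ 2 - σ a * σ c = 0 then
        (chi p (if σ a = 0 then σ c else σ a) : ℝ) else 0)) := by
    rw [card_conic]
    push_cast
    refine Finset.sum_congr rfl fun σ _ => ?_
    have h5 := conic_points (p := p) (by omega) (σ a) (σ b) (σ c)
    have h6 : ((Nat.card {q : ZMod p × ZMod p //
        q.2 ^ 2 = σ a * q.1 ^ 2 + 2 * σ b * q.1 + σ c} : ℤ) : ℝ) =
        (((p : ℤ) - chi p (σ a) + if σ b ^ 2 - σ a * σ c = 0 then
          p * chi p (if σ a = 0 then σ c else σ a) else 0 : ℤ) : ℝ) := by rw [h5]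
    by_cases h7 : σ b ^ 2 - σ a * σ c = 0
    · rw [if_pos h7] at h6 ⊢
      push_cast at h6
      exact h6
    · rw [if_neg h7] at h6 ⊢
      push_cast at h6
      rw [h6]
      ring
  rw [h4, finsum_eq_sum_of_fintype, finsum_eq_sum_of_fintype, Finset.sum_add_distrib,
    Finset.sum_sub_distrib, Finset.sum_const, Finset.card_univ, nsmul_eq_mul, ← Finset.mul_sum,
    Nat.card_eq_fintype_card, pow_succ]
  field_simp
  ring

end Pool.Agent.Lib.MP_1a0ddd_nt.Cn
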