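import Pool.Agent.Lib.MP_1a0ddd_nt.Cn.Ufd
import Pool.Agent.Lib.MP_1a0ddd_nt.Cn.Cm

/-! Conic bundles have the relative Tate property. -/

set_option autoImplicit false

namespace Pool.Agent.Lib.MP_1a0ddd_nt.Cn

open Polynomial Pool.Agent.Lib.MP_1a0ddd_nt.V Pool.Agent.Lib.MP_1a0ddd_nt.Fb

private theorem asm_unit {R S O : Type} [CommRing R] [IsDomain R] [CommRing S] [Algebra R S]
    [CommRing O] {j : S →+* O} {κ : FractionRing R →+* O} (h : KModel R j κ) {r : R}
    (hr : r ≠ 0) : IsUnit (j (algebraMap R S r)) := by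
  rw [← h.comp]
  have h1 : algebraMap R (FractionRing R) r ≠ 0 := by
    rw [Ne, IsFractionRing.to_map_eq_zero_iff]
    exact hr
  exact (IsUnit.mk0 _ h1).map κ

/-- the discriminant of a conic without rational points is not zero -/
private theorem disc_ne {S : Type} [CommRing S] [IsDomain S] {a b c : S}
    (h : ∀ x y z : S, y ^ 2 = a * x ^ 2 + 2 * b * x * z + c * z ^ 2 → x = 0 ∧ z = 0) :
    b ^ 2 - a * c ≠ 0 := by
  intro h0
  obtain ⟨_, h2⟩ := h (-b) 0 a (by linear_combination a * h0)
  obtain ⟨h3, _⟩ := h 1 0 0 (by rw [h2]; ring)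
  exact one_ne_zero h3

/-- the condition on the prime divisors of the discriminant, over the model. Proof: such a `π` is
associated to some `g i` of `kmodel_factors`; clear denominators -/
theorem disc_model {R S O : Type} [CommRing R] [IsDomain R] [CommRing S] [IsDomain S]
    [Algebra R S] [CommRing O] [IsDomain O] [UniqueFactorizationMonoid O] {j : S →+* O}
    {κ : FractionRing R →+* O} (hj : KModel R j κ) {a b c : S} {e : ℕ}
    (h : ConicData R a b c e) (π : O) (hπ : Prime π) (hd : π ∣ j b ^ 2 - j a * j c) :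
    ∃ u : O, (u = j a ∨ u = j c) ∧ ∀ x y : O, π ∣ y ^ 2 - u * x ^ 2 → π ∣ x := by
  obtain ⟨m, P, hP, hu⟩ := h.comp
  obtain ⟨g, g1, _, _, g4, g5⟩ := kmodel_factors hj (disc_ne h.aniso) hP
  have hd' : π ∣ j (b ^ 2 - a * c) := by
    rw [map_sub, map_pow, map_mul]
    exact hd
  obtain ⟨i, hi⟩ := g4 π hπ hd'
  have hi' : π ∣ g i := (g1 i).irreducible.dvd_symm hπ.irreducible hi
  obtain ⟨u, hu1, hu2, _⟩ := hu i
  refine ⟨j u, ?_, ?_⟩
  · rcases hu1 with rfl | rfl
    · exact Or.inl rfl
    · exact Or.inr rfl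
  · intro x y hxy
    obtain ⟨s, r, hr, hs⟩ := hj.surj x
    obtain ⟨s', r', hr', hs'⟩ := hj.surj y
    have h1 : g i ∣ j ((s' * algebraMap R S r) ^ 2 - u * (s * algebraMap R S r') ^ 2) := by
      have h2 : j ((s' * algebraMap R S r) ^ 2 - u * (s * algebraMap R S r') ^ 2) =
          (y ^ 2 - j u * x ^ 2) * (j (algebraMap R S r) * j (algebraMap R S r')) ^ 2 := by
        rw [map_sub, map_pow, map_mul, map_mul, map_pow, map_mul, ← hs, ← hs']
        ring
      rw [h2]
      exact Dvd.dvd.mul_right (hi.trans hxy) _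
    have h3 := hu2 _ _ ((g5 i _).1 h1)
    have h4 := (g5 i _).2 h3
    rw [map_mul, ← hs, mul_assoc] at h4
    exact hi'.trans (((asm_unit hj hr).mul (asm_unit hj hr')).dvd_mul_right.1 h4)

/-- proof: `relTate_of_model` with the model of `conic_model`; `conic_ufd`, `conic_unitFam`,
`conic_mean` -/
theorem relTate_conic {R S : Type} [CommRing R] [IsDomain R] [CommRing S] [Algebra R S]
    (hR : BaseDom R) {d n e e' : ℕ} (h : RelTate R S d n e) {a b c : S}
    (hc : ConicData R a b c e') (he : e' + 1 = n + d) :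
    RelTate R (Conic a b c) d (n + 1) e := by
  have hdS := h.dom
  have hzR := hR.zero
  have hfR := hR.finite
  have hfRS := h.finite
  have hfS : Algebra.FiniteType ℤ S := Algebra.FiniteType.trans (S := R) hfR hfRS
  have hnS : IsNoetherianRing S := Algebra.FiniteType.isNoetherianRing ℤ S
  have hj : KModel R (toGen (algebraMap R S)) (Fb.cst (algebraMap R S)) := kmodel_gen h.inj
  have hdO : IsDomain (Gen (algebraMap R S)) := kmodel_domain hj
  have huO := h.ufd
  have hnO : IsNoetherianRing (Gen (algebraMap R S)) := kmodel_noetherian hj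
  obtain ⟨γ, hγ⟩ := h.units
  obtain ⟨J, hJ⟩ := conic_model (a := a) (b := b) (c := c) hj
  have hdC : IsDomain (Conic a b c) := conic_domain hc.aniso
  have han := aniso_model hj hc.aniso
  have h2 : IsUnit (2 : Gen (algebraMap R S)) := by
    have h3 := asm_unit hj (r := (2 : R)) two_ne_zero
    rwa [map_ofNat, map_ofNat] at h3
  have hinj : Function.Injective (algebraMap R (Conic a b c)) := by
    intro x y hxy
    have h3 : toConic a b c (algebraMap R S x) = toConic a b c (algebraMap R S y) := hxy
    rw [elc_C, elc_C] at h3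
    exact h.inj (C_injective (elc_inj h3).1)
  have hft : Algebra.FiniteType R (Conic a b c) := by
    have h4 : (algebraMap R S).FiniteType := RingHom.finiteType_algebraMap.2 hfRS
    have h5 : (C : S →+* S[X]).FiniteType :=
      RingHom.finiteType_algebraMap.2 (inferInstance : Algebra.FiniteType S S[X])
    have h6 : (C : S[X] →+* S[X][X]).FiniteType :=
      RingHom.finiteType_algebraMap.2 (inferInstance : Algebra.FiniteType S[X] S[X][X])
    have h7 : (AdjoinRoot.mk (X ^ 2 - C (C a * X ^ 2 + C (2 * b) * X + C c) :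
        S[X][X])).FiniteType := RingHom.FiniteType.of_surjective _ AdjoinRoot.mk_surjective
    have h8 := h7.comp (h6.comp (h5.comp h4))
    exact h8
  refine relTate_of_model hinj hft hJ ?_ (conic_unitFam (a := toGen (algebraMap R S) a)
    (b := toGen (algebraMap R S) b) (c := toGen (algebraMap R S) c) _ hγ han) ?_
  · exact conic_ufd h2 han fun π hπ hd => disc_model hj hc π hπ hd
  · have h9 := (h.count.add (conic_mean hc))
    rw [add_zero] at h9
    refine h9.congr' 0 fun p _ hp => ?_
    have hp0 : (p : ℝ) ≠ 0 := by exact_mod_cast hp.ne_zero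
    rw [he, add_right_comm n 1 d, pow_succ (p : ℝ) (n + d), pow_succ (p : ℝ) n]
    field_simp
    ring

end Pool.Agent.Lib.MP_1a0ddd_nt.Cn
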