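import Pool.Agent.Lib.MP_1a0ddd_nt.Cn.Defs
import Pool.Agent.Lib.MP_1a0ddd_nt.V.Cnt
import Pool.Agent.Lib.MP_1a0ddd_nt.Quad.Count2

/-! Point counts of conic bundles. -/

set_option autoImplicit false

namespace Pool.Agent.Lib.MP_1a0ddd_nt.Cn

open Polynomial Pool.Agent.Lib.MP_1a0ddd_nt.V Pool.Agent.Lib.MP_1a0ddd_nt.Fb

/-- the quadratic character of `x` (for odd primes `p`): the number of square roots minus one -/
noncomputable def chi (p : ℕ) (x : ZMod p) : ℤ := (Nat.card {y : ZMod p // y ^ 2 = x} : ℤ) - 1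

private theorem ct_card {p : ℕ} [Fact p.Prime] (x : ZMod p) :
    (Nat.card {y : ZMod p // y ^ 2 = x} : ℤ) = ∑ y : ZMod p, (if y ^ 2 = x then (1 : ℤ) else 0) := by
  classical
  rw [Nat.card_eq_fintype_card, Fintype.card_subtype, Finset.card_filter]
  push_cast
  rfl

private theorem chi_eq {p : ℕ} [Fact p.Prime] (hp : p ≠ 2) (x : ZMod p) :
    chi p x = quadraticChar (ZMod p) x := by
  unfold chi
  rw [ct_card, Quad.sum_sqrts hp x]
  ring

theorem chi_mul_sq {p : ℕ} [Fact p.Prime] (hp : p ≠ 2) {a b c : ZMod p} (ha : a ≠ 0) (hc : c ≠ 0)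
    (h : b ^ 2 - a * c = 0) : chi p a = chi p c := by
  rw [chi_eq hp, chi_eq hp]
  have h1 : a * c = b ^ 2 := by linear_combination -h
  have hb : b ≠ 0 := by
    rintro rfl
    have h2 : a * c = 0 := by rw [h1]; ring
    exact mul_ne_zero ha hc h2
  have h2 : quadraticChar (ZMod p) a * quadraticChar (ZMod p) c = 1 := by
    rw [← map_mul, h1]
    exact quadraticChar_sq_one' hb
  have h3 := quadraticChar_sq_one hc
  calc quadraticChar (ZMod p) a = quadraticChar (ZMod p) a *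
        (quadraticChar (ZMod p) c ^ 2) := by rw [h3, mul_one]
    _ = (quadraticChar (ZMod p) a * quadraticChar (ZMod p) c) *
        quadraticChar (ZMod p) c := by ring
    _ = _ := by rw [h2, one_mul]

/-- the number of points of the affine conic `v² = a u² + 2 b u + c` over `F_p` (`chi` is
`quadraticChar`; the sum of the characters of a quadratic polynomial) -/
theorem conic_points {p : ℕ} [Fact p.Prime] (hp : p ≠ 2) (a b c : ZMod p) :
    (Nat.card {q : ZMod p × ZMod p // q.2 ^ 2 = a * q.1 ^ 2 + 2 * b * q.1 + c} : ℤ) =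
      p - chi p a + if b ^ 2 - a * c = 0 then p * chi p (if a = 0 then c else a) else 0 := by
  classical
  rw [Quad.card_pair2 (fun u v : ZMod p => v ^ 2 = a * u ^ 2 + 2 * b * u + c)]
  rw [Finset.sum_congr rfl fun u _ => Quad.sum_sqrts hp (a * u ^ 2 + 2 * b * u + c),
    Finset.sum_add_distrib, Finset.sum_const, Finset.card_univ, ZMod.card, nsmul_eq_mul, mul_one,
    chi_eq hp, chi_eq hp]
  by_cases hd : b ^ 2 - a * c = 0
  · rw [if_pos hd]
    by_cases ha : a = 0
    · subst ha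
      have hb : b = 0 := by
        have h1 : b ^ 2 = 0 := by linear_combination hd
        exact pow_eq_zero_iff two_ne_zero |>.mp h1
      subst hb
      simp
    · rw [if_neg ha, Quad.sum_quad_zero ha hd]
      ring
  · rw [if_neg hd, Quad.sum_quad hp hd]
    ring

private theorem hom_q {S k : Type} [CommRing S] [CommRing k] (ω : S[X] →+* k) (a b c : S) :
    ω (C a * X ^ 2 + C (2 * b) * X + C c) =
      ω (C a) * ω X ^ 2 + 2 * ω (C b) * ω X + ω (C c) := by
  have h : ω (C (2 * b)) = 2 * ω (C b) := by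
    rw [map_mul, map_mul]
    congr 1
    rw [map_ofNat, map_ofNat]
  rw [map_add, map_add, map_mul, map_mul, map_pow, h]

private theorem lift_comp {S : Type} [CommRing S] {a b c : S} {p : ℕ} (φ : S →+* ZMod p)
    {u v : ZMod p} (h : v ^ 2 = φ a * u ^ 2 + 2 * φ b * u + φ c) :
    eval₂ (eval₂RingHom φ u) v
      (X ^ 2 - C (C a * X ^ 2 + C (2 * b) * X + C c) : S[X][X]) = 0 := by
  rw [eval₂_sub, eval₂_X_pow, eval₂_C, h, hom_q]
  simp

theorem card_conic {S : Type} [CommRing S] (a b c : S) (p : ℕ) [Fact p.Prime]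
    [Fintype (S →+* ZMod p)] : Nat.card (Conic a b c →+* ZMod p) =
      ∑ σ : S →+* ZMod p, Nat.card {q : ZMod p × ZMod p //
        q.2 ^ 2 = σ a * q.1 ^ 2 + 2 * σ b * q.1 + σ c} := by
  classical
  rw [← Nat.card_sigma]
  let F : (Σ σ : S →+* ZMod p, {q : ZMod p × ZMod p //
      q.2 ^ 2 = σ a * q.1 ^ 2 + 2 * σ b * q.1 + σ c}) → (Conic a b c →+* ZMod p) := fun w =>
    (AdjoinRoot.lift (eval₂RingHom w.1 w.2.1.1) w.2.1.2 (lift_comp w.1 w.2.2) :
      AdjoinRoot (X ^ 2 - C (C a * X ^ 2 + C (2 * b) * X + C c) : S[X][X]) →+* ZMod p)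
  refine (Nat.card_congr (Equiv.ofBijective F ⟨?_, ?_⟩)).symm
  · rintro ⟨σ, ⟨u, v⟩, h⟩ ⟨σ', ⟨u', v'⟩, h'⟩ e
    have e1 : ∀ z, (AdjoinRoot.lift (eval₂RingHom σ u) v (lift_comp σ h)) z =
        (AdjoinRoot.lift (eval₂RingHom σ' u') v' (lift_comp σ' h')) z := fun z =>
      congrArg (fun g : Conic a b c →+* ZMod p => g z) e
    have hσ : σ = σ' := by
      ext s
      have h1 := e1 (AdjoinRoot.of _ (C s))
      simpa using h1
    subst hσ
    have hu : u = u' := by
      have h1 := e1 (AdjoinRoot.of _ X)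
      simpa using h1
    have hv : v = v' := by
      have h1 := e1 (AdjoinRoot.root _)
      simpa using h1
    subst hu
    subst hv
    rfl
  · intro φ
    let φ' : AdjoinRoot (X ^ 2 - C (C a * X ^ 2 + C (2 * b) * X + C c) : S[X][X]) →+* ZMod p := φ
    have h0 : φ' (AdjoinRoot.mk _ (X ^ 2 - C (C a * X ^ 2 + C (2 * b) * X + C c))) = 0 := by
      rw [AdjoinRoot.mk_self, map_zero]
    have h1 : φ' (AdjoinRoot.root _) ^ 2 = (φ'.comp ((AdjoinRoot.of _).comp C)) a *
        φ' (AdjoinRoot.of _ X) ^ 2 + 2 * (φ'.comp ((AdjoinRoot.of _).comp C)) b *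
        φ' (AdjoinRoot.of _ X) + (φ'.comp ((AdjoinRoot.of _).comp C)) c := by
      rw [map_sub, map_sub, sub_eq_zero, map_pow, map_pow, AdjoinRoot.mk_X,
        AdjoinRoot.mk_C] at h0
      exact h0.trans (hom_q (φ'.comp (AdjoinRoot.of _)) a b c)
    refine ⟨⟨φ'.comp ((AdjoinRoot.of _).comp C),
      ⟨(φ' (AdjoinRoot.of _ X), φ' (AdjoinRoot.root _)), h1⟩⟩, ?_⟩
    change AdjoinRoot.lift _ _ _ = φ'
    refine AdjoinRoot.ringHom_ext ?_ ?_
    · refine Polynomial.ringHom_ext' ?_ ?_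
      · ext s
        simp
      · simp
    · simp

theorem card_sqt {S : Type} [CommRing S] (u : S) (p : ℕ) [Fact p.Prime]
    [Fintype (S →+* ZMod p)] : (Nat.card (Sqt u →+* ZMod p) : ℤ) =
      ∑ σ : S →+* ZMod p, (1 + chi p (σ u)) := by
  classical
  have h0 : Nat.card (Sqt u →+* ZMod p) =
      Nat.card (Σ σ : S →+* ZMod p, {y : ZMod p // y ^ 2 = σ u}) := by
    have hc : ∀ (σ : S →+* ZMod p) (y : ZMod p), y ^ 2 = σ u →
        eval₂ σ y (X ^ 2 - C u : S[X]) = 0 := by
      intro σ y h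
      simp [h]
    let F : (Σ σ : S →+* ZMod p, {y : ZMod p // y ^ 2 = σ u}) → (Sqt u →+* ZMod p) := fun w =>
      (AdjoinRoot.lift w.1 w.2.1 (hc w.1 w.2.1 w.2.2) :
        AdjoinRoot (X ^ 2 - C u : S[X]) →+* ZMod p)
    refine (Nat.card_congr (Equiv.ofBijective F ⟨?_, ?_⟩)).symm
    · rintro ⟨σ, y, h⟩ ⟨σ', y', h'⟩ e
      have e1 : ∀ z, (AdjoinRoot.lift σ y (hc σ y h)) z =
          (AdjoinRoot.lift σ' y' (hc σ' y' h')) z := fun z =>
        congrArg (fun g : Sqt u →+* ZMod p => g z) e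
      have hσ : σ = σ' := by
        ext s
        have h1 := e1 (AdjoinRoot.of _ s)
        simpa using h1
      subst hσ
      have hv : y = y' := by
        have h1 := e1 (AdjoinRoot.root _)
        simpa using h1
      subst hv
      rfl
    · intro φ
      let φ' : AdjoinRoot (X ^ 2 - C u : S[X]) →+* ZMod p := φ
      have h0 : φ' (AdjoinRoot.mk _ (X ^ 2 - C u)) = 0 := by
        rw [AdjoinRoot.mk_self, map_zero]
      have h1 : φ' (AdjoinRoot.root _) ^ 2 = (φ'.comp (AdjoinRoot.of _)) u := by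
        rw [map_sub, map_sub, sub_eq_zero] at h0
        simpa using h0
      refine ⟨⟨φ'.comp (AdjoinRoot.of _), ⟨φ' (AdjoinRoot.root _), h1⟩⟩, ?_⟩
      change AdjoinRoot.lift _ _ _ = φ'
      refine AdjoinRoot.ringHom_ext ?_ ?_
      · ext s
        simp
      · simp
  rw [h0, Nat.card_sigma]
  push_cast
  refine Finset.sum_congr rfl fun σ _ => ?_
  unfold chi
  ring

end Pool.Agent.Lib.MP_1a0ddd_nt.Cn
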