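import Pool.Agent.Lib.MP_1a0ddd_nt.Fb.Rk

/-! Families over `Spec R` with the relative Tauberian Tate property, and conic bundles:
definitions. -/

set_option autoImplicit false

namespace Pool.Agent.Lib.MP_1a0ddd_nt.Cn

open Polynomial Pool.Agent.Lib.MP_1a0ddd_nt.V Pool.Agent.Lib.MP_1a0ddd_nt.Fb

/-- The Tauberian Tate property for divisors of `Spec S`, relative to `Spec R` (of dimension `d`
over `ℤ`, fraction field `K`), for `S` of relative dimension `n`: the ring `S ⊗ K` is factorial,
its units are `K^* × ℤ^e`, and the mean of `(p^n #R(F_p) - #S(F_p)) / p^(n + d - 1)` is `e`. -/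
structure RelTate (R S : Type) [CommRing R] [IsDomain R] [CommRing S] [Algebra R S]
    (d n e : ℕ) : Prop where
  dom : IsDomain S
  inj : Function.Injective (algebraMap R S)
  finite : Algebra.FiniteType R S
  ufd : UniqueFactorizationMonoid (Gen (algebraMap R S))
  units : ∃ γ : Fin e → (Gen (algebraMap R S))ˣ, UnitFam (cst (algebraMap R S)) γ
  count : Quad.TauMean (fun p : ℕ => (p : ℝ) * ((p : ℝ) ^ n * Nat.card (R →+* ZMod p) -
    Nat.card (S →+* ZMod p)) / (p : ℝ) ^ (n + d)) e

/-- base change of `φ` to the fraction field of `R` -/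
noncomputable def baseK {R T S : Type} [CommRing R] [CommRing T] [CommRing S] [Algebra R T]
    [Algebra R S] (φ : T →ₐ[R] S) : Gen (algebraMap R T) →+* Gen (algebraMap R S) :=
  (IsLocalization.map (M := (nonZeroDivisors R).map (algebraMap R T))
    (T := (nonZeroDivisors R).map (algebraMap R S))
    (Localization ((nonZeroDivisors R).map (algebraMap R S))) (φ : T →+* S) (by
      rintro _ ⟨r, hr, rfl⟩
      exact ⟨r, hr, (φ.commutes r).symm⟩) :
    Localization ((nonZeroDivisors R).map (algebraMap R T)) →+* _)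

/-- Q1 for the generic fibre `U` of `Spec S → Spec T`, a family of curves over `Spec T`, over
`Spec R`. `mean`: the mean of the averages of `p - #U_τ` is `u`. `rank`: over the fraction field of
`R` the coordinate ring of `U` is a domain with trivial Picard group, and its units have rank `u`
modulo the constants. `proj`: for a compactification `C` of `U` by `c` closed points, with
models `Spec D_i` over `Spec T`, the mean of the averages of `p + 1 - #C_τ` is `-(c - 1 - u)`, and
`c - 1 - u` is the rank of `Pic⁰(C)` -/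
structure NagaoRel {R T S : Type} [CommRing R] [CommRing T] [CommRing S] [Algebra R T]
    [Algebra R S] (φ : T →ₐ[R] S) (e u : ℕ) : Prop where
  mean : Quad.TauMean (fun p : ℕ => (∑ᶠ τ : T →+* ZMod p,
    ((p : ℝ) - Nat.card {σ : S →+* ZMod p // σ.comp (φ : T →+* S) = τ})) / (p : ℝ) ^ e) u
  rank : IsDomain (Gen (baseK φ)) ∧ Subsingleton (CommRing.Pic (Gen (baseK φ))) ∧
    ∀ [IsDomain (Gen (algebraMap R T))], unitRk (baseK φ) = u
  proj : ∀ (c : ℕ) (D : Fin c → Type) [∀ i, CommRing (D i)] [∀ i, Nontrivial (D i)]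
    [∀ i, Algebra.FiniteType ℤ (D i)] (ψ : ∀ i, T →+* D i),
    (∀ i, Quad.LangWeilT (D i) e) → Quad.TauMean (fun p : ℕ => (∑ᶠ τ : T →+* ZMod p,
      ((p : ℝ) + 1 - Nat.card {σ : S →+* ZMod p // σ.comp (φ : T →+* S) = τ} -
        ∑ i, (Nat.card {ρ : D i →+* ZMod p // ρ.comp (ψ i) = τ} : ℝ))) / (p : ℝ) ^ e)
      (-((c : ℝ) - 1 - u))

/-- the conic bundle `v² = a u² + 2 b u + c` over `Spec S` -/
def Conic {S : Type} [CommRing S] (a b c : S) : Type :=
  AdjoinRoot (X ^ 2 - C (C a * X ^ 2 + C (2 * b) * X + C c) : S[X][X])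

noncomputable instance {S : Type} [CommRing S] (a b c : S) : CommRing (Conic a b c) :=
  AdjoinRoot.instCommRing _

/-- the map from the base to the conic bundle -/
noncomputable def toConic {S : Type} [CommRing S] (a b c : S) : S →+* Conic a b c :=
  (AdjoinRoot.of _).comp C

noncomputable instance {R S : Type} [CommRing R] [CommRing S] [Algebra R S] (a b c : S) :
    Algebra R (Conic a b c) :=
  ((toConic a b c).comp (algebraMap R S)).toAlgebra

/-- the double cover `w² = u` of `Spec S` -/
def Sqt {S : Type} [CommRing S] (u : S) : Type := AdjoinRoot (X ^ 2 - C u : S[X])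

noncomputable instance {S : Type} [CommRing S] (u : S) : CommRing (Sqt u) :=
  AdjoinRoot.instCommRing _

/-- The conic has no rational point over the fraction field of `S`; the components `P i` of the
discriminant `b² - a c = 0` are generically the ideals of prime divisors, and over each of them
the conic is the product `v² = u l²`, with `u` not a square modulo `P i`; the rings `S`, `S[√a]`,
`(S/P i)[√u]` have the point counts of domains of dimension `e + 1`, `e + 1` and `e`. -/
structure ConicData (R : Type) {S : Type} [CommRing R] [CommRing S] [Algebra R S] (a b c : S)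
    (e : ℕ) : Prop where
  aniso : ∀ x y z : S, y ^ 2 = a * x ^ 2 + 2 * b * x * z + c * z ^ 2 → x = 0 ∧ z = 0
  base : Quad.LangWeilT S (e + 1)
  cover : Quad.LangWeilT (Sqt a) (e + 1)
  comp : ∃ (m : ℕ) (P : Fin m → Ideal S), CompsG R (Ideal.span {b ^ 2 - a * c}) e P ∧
    ∀ i, ∃ u : S, (u = a ∨ u = c) ∧ (∀ x y : S, y ^ 2 - u * x ^ 2 ∈ P i → x ∈ P i) ∧
      Quad.LangWeilT (Sqt (Ideal.Quotient.mk (P i) u)) e

end Pool.Agent.Lib.MP_1a0ddd_nt.Cn
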