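import Pool.Agent.Lib.MP_1a0ddd_nt.Cn.Km
import Pool.Agent.Lib.MP_1a0ddd_nt.V.Cnt

/-! The relative Tate property and localisation. -/

set_option autoImplicit false

namespace Pool.Agent.Lib.MP_1a0ddd_nt.Cn

open Polynomial Pool.Agent.Lib.MP_1a0ddd_nt.V Pool.Agent.Lib.MP_1a0ddd_nt.Fb

private theorem loc_mult {O : Type} [CommRing O] [IsDomain O] {m : ℕ} {γ : Fin m → O}
    (h1 : ∀ j, Prime (γ j)) (h2 : ∀ i j, γ i ∣ γ j → i = j) (j : Fin m) (l : Fin m → ℕ) :
    emultiplicity (γ j) (∏ i, γ i ^ l i) = (l j : ℕ∞) := by
  classical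
  rw [Finset.emultiplicity_prod (h1 j), Finset.sum_eq_single j]
  · rw [emultiplicity_pow_self (h1 j).ne_zero (h1 j).not_isUnit]
  · intro i _ hij
    rw [emultiplicity_pow (h1 j), emultiplicity_eq_zero.2 (fun h => hij (h2 j i h).symm), mul_zero]
  · intro h
    exact absurd (Finset.mem_univ j) h

/-- the elements all of whose prime factors divide `g` -/
private theorem loc_gen {O : Type} [CommRing O] [IsDomain O] [UniqueFactorizationMonoid O] {g : O}
    {m : ℕ} {q : Fin m → O} (h1 : ∀ j, Prime (q j)) (h4 : ∀ π : O, Prime π → π ∣ g → ∃ j, q j ∣ π)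
    (a : O) (ha : a ≠ 0) (hr : ∀ r : O, Prime r → r ∣ a → r ∣ g) :
    ∃ (u : Oˣ) (l : Fin m → ℕ), a = u * ∏ i, q i ^ l i := by
  classical
  induction a using UniqueFactorizationMonoid.induction_on_prime with
  | h₁ => exact absurd rfl ha
  | h₂ u hu =>
    obtain ⟨v, rfl⟩ := hu
    exact ⟨v, 0, by simp⟩
  | h₃ a p ha' hp ih =>
    obtain ⟨v, l, hl⟩ := ih ha' (fun r hr1 hr2 => hr r hr1 (hr2.mul_left p))
    obtain ⟨j, hj⟩ := h4 p hp (hr p hp (dvd_mul_right p a))
    obtain ⟨u, hu⟩ := (h1 j).irreducible.associated_of_dvd hp.irreducible hj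
    refine ⟨u * v, l + Pi.single j 1, ?_⟩
    have e : ∏ i, q i ^ (l + Pi.single j 1 : Fin m → ℕ) i = (∏ i, q i ^ l i) * q j := by
      simp only [Pi.add_apply, pow_add, Finset.prod_mul_distrib]
      congr 1
      rw [Finset.prod_eq_single j]
      · rw [Pi.single_eq_same, pow_one]
      · intro i _ hij
        rw [Pi.single_eq_of_ne hij, pow_zero]
      · intro h
        exact absurd (Finset.mem_univ j) h
    rw [e, hl, ← hu, Units.val_mul]
    ring

private theorem loc_grp {G : Type} [CommGroup G] {m : ℕ} (δ : Fin m → G) (v c c' : G) (K : ℕ)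
    (l l' : Fin m → ℕ) (h : v * (c' * ∏ j, δ j ^ l' j) ^ K = c * ∏ j, δ j ^ l j) :
    v = (c * (c' ^ K)⁻¹) * ∏ j, δ j ^ ((l j : ℤ) - K * l' j) := by
  have e : ∏ j, δ j ^ ((l j : ℤ) - K * l' j) = (∏ j, δ j ^ l j) * ((∏ j, δ j ^ l' j) ^ K)⁻¹ := by
    rw [← Finset.prod_pow, ← Finset.prod_inv_distrib, ← Finset.prod_mul_distrib]
    refine Finset.prod_congr rfl fun j _ => ?_
    rw [zpow_sub, zpow_natCast, mul_comm (K : ℤ), zpow_mul, zpow_natCast, zpow_natCast]
  rw [e, eq_comm]
  have e2 : c * (c' ^ K)⁻¹ * ((∏ j, δ j ^ l j) * ((∏ j, δ j ^ l' j) ^ K)⁻¹) =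
      (c * ∏ j, δ j ^ l j) * ((c' * ∏ j, δ j ^ l' j) ^ K)⁻¹ := by
    rw [mul_pow, mul_inv]
    exact mul_mul_mul_comm _ _ _ _
  rw [e2, ← h, mul_inv_cancel_right]

/-- units of `O[1/g]`, `O` a factorial ring with unit family `γ`, `q` the prime factors of `g`.
Proof: for a unit `v` of `O[1/g]` there are `k`, `l` and `a, a'` in `O` with `v g^k = a`,
`v⁻¹ g^l = a'`, so `a a' = g^(k + l)`, and all prime factors of `a` are associated to some `q i` -/
theorem unitFam_loc {k O : Type} [Field k] [CommRing O] [IsDomain O]
    [UniqueFactorizationMonoid O] (ι : k →+* O) {g : O} (hg : g ≠ 0) {e m : ℕ}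
    {γ : Fin e → Oˣ} (hγ : UnitFam ι γ) {q : Fin m → O} (h1 : ∀ j, Prime (q j))
    (h2 : ∀ i j, q i ∣ q j → i = j) (h3 : ∀ j, q j ∣ g)
    (h4 : ∀ π : O, Prime π → π ∣ g → ∃ j, q j ∣ π) :
    ∃ δ : Fin (e + m) → (Localization.Away g)ˣ,
      UnitFam ((algebraMap O (Localization.Away g)).comp ι) δ := by
  classical
  set A := algebraMap O (Localization.Away g) with hA
  have hinj : Function.Injective A :=
    IsLocalization.injective (Localization.Away g)
      (powers_le_nonZeroDivisors_of_noZeroDivisors hg)
  have hgu : IsUnit (A g) := IsLocalization.Away.algebraMap_isUnit (S := Localization.Away g) g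
  have hu : ∀ j, IsUnit (A (q j)) := fun j => isUnit_of_dvd_unit (map_dvd A (h3 j)) hgu
  have hfrac : ∀ x : Localization.Away g, ∃ (K : ℕ) (a : O), x * A g ^ K = A a := by
    intro x
    obtain ⟨n, a, h⟩ := IsLocalization.Away.surj g x
    exact ⟨n, a, h⟩
  have hmap : ∀ c : kˣ, Units.map ((A.comp ι : k →+* Localization.Away g) :
      k →* Localization.Away g) c = Units.map (A : O →* Localization.Away g)
        (Units.map (ι : k →* O) c) := fun c => Units.ext rfl
  refine ⟨Fin.addCases (fun i => Units.map (A : O →* Localization.Away g) (γ i))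
    (fun j => (hu j).unit), ?_, ?_⟩
  · intro v
    obtain ⟨K, a, ha⟩ := hfrac v
    obtain ⟨K', a', ha'⟩ := hfrac ((v⁻¹ : (Localization.Away g)ˣ) : Localization.Away g)
    have h5 : a * a' = g ^ (K + K') := by
      apply hinj
      have h6 : (v : Localization.Away g) * ((v⁻¹ : (Localization.Away g)ˣ) : Localization.Away g)
        = 1 := v.mul_inv
      rw [map_mul, ← ha, ← ha', map_pow, pow_add]
      linear_combination (A g ^ K * A g ^ K') * h6
    have ha0 : a ≠ 0 := by
      rintro rfl
      rw [zero_mul] at h5
      exact pow_ne_zero _ hg h5.symm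
    obtain ⟨w, l, hl⟩ := loc_gen h1 h4 a ha0 (by
      intro r hr hra
      have h6 : r ∣ g ^ (K + K') := h5 ▸ hra.mul_right a'
      exact hr.dvd_of_dvd_pow h6)
    obtain ⟨w', l', hl'⟩ := loc_gen h1 h4 g hg (fun r _ h => h)
    obtain ⟨c, n, hcn⟩ := hγ.gen (w * (w' ^ K)⁻¹)
    have hv : v = (Units.map (A : O →* Localization.Away g) w *
        (Units.map (A : O →* Localization.Away g) w' ^ K)⁻¹) *
        ∏ j, (hu j).unit ^ ((l j : ℤ) - K * l' j) := by
      apply loc_grp
      apply Units.ext
      have e1 : ((Units.map (A : O →* Localization.Away g) w' :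
          (Localization.Away g)ˣ) : Localization.Away g) *
          ((∏ j, (hu j).unit ^ l' j : (Localization.Away g)ˣ) : Localization.Away g) = A g := by
        have e0 : A g = A ((w' : O) * ∏ i, q i ^ l' i) := congrArg A hl'
        rw [Units.coe_prod, e0, map_mul, map_prod]
        congr 1
        refine Finset.prod_congr rfl fun j _ => ?_
        rw [Units.val_pow_eq_pow_val, (hu j).unit_spec, map_pow]
      have e2 : ((Units.map (A : O →* Localization.Away g) w :
          (Localization.Away g)ˣ) : Localization.Away g) *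
          ((∏ j, (hu j).unit ^ l j : (Localization.Away g)ˣ) : Localization.Away g) = A a := by
        rw [Units.coe_prod, hl, map_mul, map_prod]
        congr 1
        refine Finset.prod_congr rfl fun j _ => ?_
        rw [Units.val_pow_eq_pow_val, (hu j).unit_spec, map_pow]
      rw [Units.val_mul, Units.val_pow_eq_pow_val, Units.val_mul, Units.val_mul, e1, e2, ha]
    refine ⟨c, Fin.addCases n fun j => (l j : ℤ) - K * l' j, ?_⟩
    rw [Fin.prod_univ_add]
    simp only [Fin.addCases_left, Fin.addCases_right]
    have e3 : Units.map (A : O →* Localization.Away g) w *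
        (Units.map (A : O →* Localization.Away g) w' ^ K)⁻¹ =
        Units.map (A : O →* Localization.Away g) (w * (w' ^ K)⁻¹) := by
      rw [map_mul, map_inv, map_pow]
    rw [hv, e3, hcn, map_mul, map_prod, hmap, mul_assoc]
    congr 2
    exact Finset.prod_congr rfl fun i _ => by rw [map_zpow]
  · intro c n h
    rw [Fin.prod_univ_add] at h
    simp only [Fin.addCases_left, Fin.addCases_right] at h
    have e4 : (∏ i, Units.map (A : O →* Localization.Away g) (γ i) ^ n (Fin.castAdd m i)) =
        Units.map (A : O →* Localization.Away g) (∏ i, γ i ^ n (Fin.castAdd m i)) := by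
      rw [map_prod]
      exact Finset.prod_congr rfl fun i _ => by rw [map_zpow]
    rw [e4, hmap] at h
    obtain ⟨w, hw⟩ : ∃ w : Oˣ, w = ∏ i, γ i ^ n (Fin.castAdd m i) := ⟨_, rfl⟩
    rw [← hw] at h
    have h6 : (w : O) * ∏ j, q j ^ (n (Fin.natAdd e j)).toNat =
        ι (c : k) * ∏ j, q j ^ (-n (Fin.natAdd e j)).toNat := by
      apply hinj
      have h7 : Units.map (A : O →* Localization.Away g) w *
          (∏ j, (hu j).unit ^ (n (Fin.natAdd e j)).toNat : (Localization.Away g)ˣ) =
          Units.map (A : O →* Localization.Away g) (Units.map (ι : k →* O) c) *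
            ∏ j, (hu j).unit ^ (-n (Fin.natAdd e j)).toNat := by
        rw [← h, mul_assoc, ← Finset.prod_mul_distrib]
        congr 1
        refine Finset.prod_congr rfl fun j _ => ?_
        rw [← zpow_natCast, ← zpow_natCast, ← zpow_add]
        congr 1
        omega
      have h8 := congrArg Units.val h7
      rw [Units.val_mul, Units.val_mul, Units.coe_prod, Units.coe_prod] at h8
      rw [map_mul, map_mul, map_prod, map_prod]
      have e : ∀ (j : Fin m) (N : ℕ), (((hu j).unit ^ N : (Localization.Away g)ˣ) :
          Localization.Away g) = A (q j ^ N) := by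
        intro j N
        rw [Units.val_pow_eq_pow_val, (hu j).unit_spec, map_pow]
      simp only [e] at h8
      exact h8
    have hq : ∀ j, n (Fin.natAdd e j) = 0 := by
      intro j
      have h9 := congrArg (emultiplicity (q j)) h6
      have hw' : IsUnit (w : O) := w.isUnit
      have hc' : IsUnit (ι (c : k)) := c.isUnit.map ι
      rw [emultiplicity_mul (h1 j), loc_mult h1 h2, emultiplicity_mul (h1 j), loc_mult h1 h2,
        emultiplicity_of_isUnit_right (h1 j).not_isUnit hw',
        emultiplicity_of_isUnit_right (h1 j).not_isUnit hc', zero_add, zero_add] at h9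
      have h10 : (n (Fin.natAdd e j)).toNat = (-n (Fin.natAdd e j)).toNat := by exact_mod_cast h9
      omega
    have hwc : w = Units.map (ι : k →* O) c := by
      apply Units.ext
      have h11 : (w : O) = ι (c : k) := by
        simp only [hq, neg_zero, Int.toNat_zero, pow_zero, Finset.prod_const_one, mul_one] at h6
        exact h6
      exact h11
    have hn := hγ.indep c (fun i => n (Fin.castAdd m i)) (by rw [← hw, hwc])
    funext i
    refine Fin.addCases (fun i => ?_) (fun j => ?_) i
    · exact congrFun hn i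
    · exact hq j

/-- a localisation of a factorial ring is factorial -/
private theorem loc_ufd {O : Type} [CommRing O] [IsDomain O] [UniqueFactorizationMonoid O] {g : O}
    (hg : g ≠ 0) (hd : IsDomain (Localization.Away g)) :
    UniqueFactorizationMonoid (Localization.Away g) := by
  classical
  set A := algebraMap O (Localization.Away g) with hA
  have hinj : Function.Injective A :=
    IsLocalization.injective (Localization.Away g)
      (powers_le_nonZeroDivisors_of_noZeroDivisors hg)
  have hgu : IsUnit (A g) := IsLocalization.Away.algebraMap_isUnit (S := Localization.Away g) g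
  have hprime : ∀ p : O, Prime p → IsUnit (A p) ∨ Prime (A p) := by
    intro p hp
    by_cases hpg : p ∣ g
    · exact Or.inl (isUnit_of_dvd_unit (map_dvd A hpg) hgu)
    · right
      have hP : (Ideal.span {p}).IsPrime := (Ideal.span_singleton_prime hp.ne_zero).2 hp
      have hdis : Disjoint ((Submonoid.powers g : Submonoid O) : Set O) (Ideal.span {p} : Set O) := by
        rw [Set.disjoint_left]
        rintro _ ⟨n, rfl⟩ hmem
        exact hpg (hp.dvd_of_dvd_pow (Ideal.mem_span_singleton.1 hmem))
      have h1 := IsLocalization.isPrime_of_isPrime_disjoint (Submonoid.powers g)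
        (Localization.Away g) (Ideal.span {p}) hP hdis
      rw [Ideal.map_span, Set.image_singleton] at h1
      exact (Ideal.span_singleton_prime ((map_ne_zero_iff A hinj).2 hp.ne_zero)).1 h1
  have key : ∀ a : O, a ≠ 0 → ∃ f : Multiset (Localization.Away g), (∀ b ∈ f, Prime b) ∧
      Associated f.prod (A a) := by
    intro a
    induction a using UniqueFactorizationMonoid.induction_on_prime with
    | h₁ => intro h; exact absurd rfl h
    | h₂ u hu =>
      intro _
      refine ⟨0, fun b hb => absurd hb (Multiset.notMem_zero b), ?_⟩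
      rw [Multiset.prod_zero]
      exact (associated_one_iff_isUnit.2 (hu.map A)).symm
    | h₃ a p ha hp ih =>
      intro _
      obtain ⟨f, hf1, hf2⟩ := ih ha
      rcases hprime p hp with h | h
      · refine ⟨f, hf1, hf2.trans ?_⟩
        rw [map_mul]
        exact (associated_unit_mul_left _ _ h).symm
      · refine ⟨A p ::ₘ f, fun b hb => ?_, ?_⟩
        · rcases Multiset.mem_cons.1 hb with rfl | hb
          · exact h
          · exact hf1 b hb
        · rw [Multiset.prod_cons, map_mul]
          exact hf2.mul_left (A p)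
  refine UniqueFactorizationMonoid.of_exists_prime_factors fun x hx => ?_
  obtain ⟨n, a, h⟩ := IsLocalization.Away.surj g x
  have ha : a ≠ 0 := by
    rintro rfl
    rw [map_zero] at h
    exact hx (((hgu.pow n).mul_left_eq_zero).1 h)
  obtain ⟨f, hf1, hf2⟩ := key a ha
  refine ⟨f, hf1, hf2.trans ?_⟩
  have h' : x * A g ^ n = A a := h
  rw [← h']
  exact associated_mul_unit_left _ _ (hgu.pow n)

/-- the model of the localisation -/
private theorem loc_model {R S O : Type} [CommRing R] [IsDomain R] [CommRing S] [Algebra R S]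
    [CommRing O] [IsDomain O] {j : S →+* O} {κ : FractionRing R →+* O} (hj : KModel R j κ) {g : S}
    (hg : j g ≠ 0) : ∃ j' : Localization.Away g →+* Localization.Away (j g),
      KModel R j' ((algebraMap O (Localization.Away (j g))).comp κ) := by
  set A := algebraMap S (Localization.Away g) with hA
  set A' := algebraMap O (Localization.Away (j g)) with hA'
  have hinj' : Function.Injective A' :=
    IsLocalization.injective (Localization.Away (j g))
      (powers_le_nonZeroDivisors_of_noZeroDivisors hg)
  have hgu : IsUnit (A g) := IsLocalization.Away.algebraMap_isUnit (S := Localization.Away g) g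
  have hgu' : IsUnit (A' (j g)) :=
    IsLocalization.Away.algebraMap_isUnit (S := Localization.Away (j g)) (j g)
  have hu : IsUnit ((A'.comp j) g) := hgu'
  obtain ⟨j', hjd⟩ : ∃ j' : Localization.Away g →+* Localization.Away (j g), j' =
      IsLocalization.Away.lift (S := Localization.Away g) g hu := ⟨_, rfl⟩
  have hj' : ∀ s : S, j' (A s) = A' (j s) := by
    intro s
    rw [hjd]
    exact IsLocalization.Away.lift_eq (S := Localization.Away g) g hu s
  refine ⟨j', ?_, fun r => ?_, fun o => ?_⟩
  · rw [injective_iff_map_eq_zero]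
    intro x hx
    obtain ⟨n, s, h⟩ := IsLocalization.Away.surj g x
    have h' : x * A g ^ n = A s := h
    have h1 := congrArg j' h'
    rw [map_mul, hx, zero_mul, hj'] at h1
    have h2 : s = 0 := by
      have h3 : j s = 0 := hinj' (by rw [← h1, map_zero])
      exact hj.inj (by rw [h3, map_zero])
    rw [h2, map_zero] at h'
    exact ((hgu.pow n).mul_left_eq_zero).1 h'
  · rw [RingHom.comp_apply, hj.comp, IsScalarTower.algebraMap_apply R S (Localization.Away g)]
    exact (hj' _).symm
  · obtain ⟨n, o₁, h⟩ := IsLocalization.Away.surj (j g) o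
    have h' : o * A' (j g) ^ n = A' o₁ := h
    obtain ⟨s, r, hr, hs⟩ := hj.surj o₁
    refine ⟨A s * (↑(hgu.unit⁻¹) : Localization.Away g) ^ n, r, hr, ?_⟩
    rw [IsScalarTower.algebraMap_apply R S (Localization.Away g)]
    have e1 : j' (algebraMap S (Localization.Away g) (algebraMap R S r)) =
        A' (j (algebraMap R S r)) := hj' _
    rw [e1, map_mul, map_pow, hj', ← hs, map_mul, ← h']
    have e2 : A' (j g) * j' (↑(hgu.unit⁻¹) : Localization.Away g) = 1 := by
      rw [← hj', ← map_mul]
      have : A g * (↑(hgu.unit⁻¹) : Localization.Away g) = 1 := hgu.mul_val_inv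
      rw [this, map_one]
    have e3 : A' (j g) ^ n * j' (↑(hgu.unit⁻¹) : Localization.Away g) ^ n = 1 := by
      rw [← mul_pow, e2, one_pow]
    linear_combination (-(o * A' (j (algebraMap R S r)))) * e3

/-- the points of the localisation -/
private theorem loc_card {S : Type} [CommRing S] (g : S) {p : ℕ} (hp : p.Prime)
    [Finite (S →+* ZMod p)] : Nat.card (S →+* ZMod p) = Nat.card (Localization.Away g →+* ZMod p) +
      Nat.card {φ : S →+* ZMod p // ∀ u ∈ Ideal.span {g}, φ u = 0} := by
  have : Fact p.Prime := ⟨hp⟩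
  have hu : IsUnit (algebraMap S (Localization.Away g) g) :=
    IsLocalization.Away.algebraMap_isUnit g
  have h1 : Nat.card (Localization.Away g →+* ZMod p) =
      Nat.card {z : S →+* ZMod p // ¬ z g = 0} := by
    refine Nat.card_congr ⟨fun z => ⟨z.comp (algebraMap S (Localization.Away g)), ?_⟩,
      fun z => IsLocalization.Away.lift (S := Localization.Away g) g (g := z.1)
        (isUnit_iff_ne_zero.2 z.2), fun z => ?_, fun z => ?_⟩
    · exact (hu.map z).ne_zero
    · refine IsLocalization.ringHom_ext (Submonoid.powers g) ?_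
      exact IsLocalization.Away.lift_comp (S := Localization.Away g) g
        (g := z.comp (algebraMap S (Localization.Away g))) (hu.map z)
    · refine Subtype.ext ?_
      exact IsLocalization.Away.lift_comp (S := Localization.Away g) g (g := z.1)
        (isUnit_iff_ne_zero.2 z.2)
  have h2 : Nat.card {φ : S →+* ZMod p // ∀ u ∈ Ideal.span {g}, φ u = 0} =
      Nat.card {z : S →+* ZMod p // z g = 0} := by
    refine Nat.card_congr (Equiv.subtypeEquivRight fun φ => ⟨fun h => ?_, fun h u hu => ?_⟩)
    · exact h g (Ideal.subset_span rfl)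
    · obtain ⟨a, rfl⟩ := Ideal.mem_span_singleton'.1 hu
      rw [map_mul, h, mul_zero]
  rw [h1, h2, add_comm, ← Nat.card_sum]
  classical
  exact Nat.card_congr (Equiv.sumCompl fun z : S →+* ZMod p => z g = 0).symm

/-- the model is `O[1/g]`, `O` the model for `S` (use `kmodel_factors` and `unitFam_loc`); the
count is `#S[1/g] = #S - #{g = 0}` and `comps_countG` -/
theorem relTate_loc {R S : Type} [CommRing R] [IsDomain R] [CommRing S] [Algebra R S]
    (hR : BaseDom R) {d n e : ℕ} (h : RelTate R S d n e) {g : S} (hg : g ≠ 0) {m e' : ℕ}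
    {P : Fin m → Ideal S} (hP : CompsG R (Ideal.span {g}) e' P) (he : e' + 1 = n + d) :
    RelTate R (Localization.Away g) d n (e + m) := by
  have hdS := h.dom
  have hfS := h.finite
  have hfR := hR.finite
  have hufd := h.ufd
  have hj := kmodel_gen (R := R) (S := S) h.inj
  have hdO : IsDomain (Gen (algebraMap R S)) := kmodel_domain hj
  obtain ⟨γ, hγ⟩ := h.units
  obtain ⟨q, q1, q2, q3, q4, _⟩ := kmodel_factors hj hg hP
  have hjg : toGen (algebraMap R S) g ≠ 0 := (map_ne_zero_iff _ hj.inj).2 hg
  obtain ⟨δ, hδ⟩ := unitFam_loc (Fb.cst (algebraMap R S)) hjg hγ q1 q2 q3 q4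
  obtain ⟨j', hj'⟩ := loc_model hj hjg
  have hdL : IsDomain (Localization.Away g) :=
    IsLocalization.isDomain_localization (powers_le_nonZeroDivisors_of_noZeroDivisors hg)
  have hdL' : IsDomain (Localization.Away (toGen (algebraMap R S) g)) :=
    IsLocalization.isDomain_localization (powers_le_nonZeroDivisors_of_noZeroDivisors hjg)
  have hinjL : Function.Injective (algebraMap S (Localization.Away g)) :=
    IsLocalization.injective (Localization.Away g)
      (powers_le_nonZeroDivisors_of_noZeroDivisors hg)
  have hinj : Function.Injective (algebraMap R (Localization.Away g)) := by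
    rw [IsScalarTower.algebraMap_eq R S (Localization.Away g)]
    exact hinjL.comp h.inj
  have hfZ : Algebra.FiniteType ℤ S := Algebra.FiniteType.trans hfR hfS
  refine relTate_of_model hinj inferInstance hj' (loc_ufd hjg hdL') hδ ?_
  have h1 := h.count
  have h2 := comps_countG R hP
  have h3 := h1.add h2
  have e3 : ((e + m : ℕ) : ℝ) = (e : ℝ) + m := by push_cast; ring
  rw [e3]
  refine h3.congr' 0 fun p _ hp => ?_
  have hfin : Finite (S →+* ZMod p) := W.finite_hom S p hp
  have hc := loc_card g (p := p) hp
  have hp0 : (p : ℝ) ≠ 0 := by exact_mod_cast hp.ne_zero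
  rw [← he, hc, pow_succ]
  push_cast
  field_simp
  ring

end Pool.Agent.Lib.MP_1a0ddd_nt.Cn
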