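import Pool.Agent.Lib.MP_1a0ddd_nt.Cn.RkV
import Pool.Agent.Lib.MP_1a0ddd_nt.V.Cnt

/-! Q1 for families with the relative Tate property. -/

set_option autoImplicit false

namespace Pool.Agent.Lib.MP_1a0ddd_nt.Cn

open Pool.Agent.Lib.MP_1a0ddd_nt.V Pool.Agent.Lib.MP_1a0ddd_nt.Fb

variable {R T S : Type} [CommRing R] [CommRing T] [CommRing S] [Algebra R T] [Algebra R S]

/-- division by `p` makes a bounded mean zero (partial summation) -/
private theorem tau_div {c : ℕ → ℝ} {γ : ℝ} (h : Quad.TauMean c γ) :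
    Quad.TauMean (fun p => c p / (p : ℝ)) 0 := by
  unfold Quad.TauMean at *
  set A : ℕ → ℝ := fun N => ∑ p ∈ (Finset.Icc 1 N).filter Nat.Prime, c p * Real.log p with hA
  have hstep : ∀ (u : ℕ → ℝ) (N : ℕ), ∑ p ∈ (Finset.Icc 1 (N + 1)).filter Nat.Prime, u p =
      (∑ p ∈ (Finset.Icc 1 N).filter Nat.Prime, u p) + if (N + 1).Prime then u (N + 1) else 0 := by
    intro u N
    rw [Finset.sum_filter, Finset.sum_filter, Finset.sum_Icc_succ_top (by omega)]
  have hid : ∀ N : ℕ, ∑ p ∈ (Finset.Icc 1 N).filter Nat.Prime, c p / (p : ℝ) * Real.log p =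
      A N * ((N : ℝ) + 1)⁻¹ +
        ∑ k ∈ Finset.range (N + 1), A k / (k : ℝ) * ((k : ℝ) + 1)⁻¹ := by
    intro N
    induction N with
    | zero => simp [hA]
    | succ N ih =>
      rw [hstep, ih, Finset.sum_range_succ _ (N + 1)]
      have e1 : A (N + 1) = A N + if (N + 1).Prime then
          c (N + 1) * Real.log ((N + 1 : ℕ) : ℝ) else 0 := hstep _ N
      have h1 : ((N : ℝ) + 1) ≠ 0 := by positivity
      have h2 : ((N : ℝ) + 1 + 1) ≠ 0 := by positivity
      have e2 : (if (N + 1).Prime then c (N + 1) / ((N + 1 : ℕ) : ℝ) *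
          Real.log ((N + 1 : ℕ) : ℝ) else 0) = (A (N + 1) - A N) * ((N : ℝ) + 1)⁻¹ := by
        rw [e1, add_sub_cancel_left]
        split_ifs
        · push_cast
          field_simp
        · simp
      rw [e2]
      push_cast
      field_simp
      ring
  have hg : Filter.Tendsto (fun k : ℕ => A k / (k : ℝ) * ((k : ℝ) + 1)⁻¹) Filter.atTop
      (nhds 0) := by
    have h1 : Filter.Tendsto (fun k : ℕ => ((k : ℝ) + 1)⁻¹) Filter.atTop (nhds 0) := by
      have := tendsto_one_div_add_atTop_nhds_zero_nat (𝕜 := ℝ)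
      simpa only [one_div] using this
    have := h.mul h1
    rwa [mul_zero] at this
  have hces := (hg.cesaro).comp (Filter.tendsto_add_atTop_nat 1)
  have hrat : Filter.Tendsto (fun N : ℕ => ((N : ℝ) + 1) / (N : ℝ)) Filter.atTop (nhds 1) := by
    have h1 : Filter.Tendsto (fun N : ℕ => 1 + (N : ℝ)⁻¹) Filter.atTop (nhds (1 + 0)) :=
      tendsto_const_nhds.add tendsto_inv_atTop_nhds_zero_nat
    rw [add_zero] at h1
    refine h1.congr' ?_
    filter_upwards [Filter.eventually_gt_atTop 0] with N hN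
    have : (N : ℝ) ≠ 0 := by exact_mod_cast hN.ne'
    field_simp
  have hfin := hg.add (hces.mul hrat)
  rw [zero_mul, add_zero] at hfin
  refine hfin.congr' ?_
  filter_upwards [Filter.eventually_gt_atTop 0] with N hN
  have h0 : (N : ℝ) ≠ 0 := by exact_mod_cast hN.ne'
  have h1 : ((N : ℝ) + 1) ≠ 0 := by positivity
  rw [hid N]
  simp only [Function.comp]
  push_cast
  field_simp

private theorem ft_trans {R T : Type} [CommRing R] [CommRing T] [Algebra R T]
    (hR : Algebra.FiniteType ℤ R) (hT : Algebra.FiniteType R T) : Algebra.FiniteType ℤ T :=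
  Algebra.FiniteType.trans (S := R) hR hT

/-- proof: the sum over `τ` of the numbers of `σ` over `τ` is `#(S → F_p)`; both sums are finite -/
theorem sum_over (hT : Algebra.FiniteType ℤ T) (hS : Algebra.FiniteType ℤ S) (φ : T →+* S)
    {p : ℕ} (hp : p.Prime) : ∑ᶠ τ : T →+* ZMod p,
      (Nat.card {σ : S →+* ZMod p // σ.comp φ = τ} : ℝ) = Nat.card (S →+* ZMod p) := by
  classical
  have hfT : Finite (T →+* ZMod p) := W.finite_hom T p hp
  have hfS : Finite (S →+* ZMod p) := W.finite_hom S p hp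
  have := Fintype.ofFinite (T →+* ZMod p)
  rw [finsum_eq_sum_of_fintype, ← Nat.cast_sum, ← Nat.card_sigma]
  exact congrArg _ (Nat.card_congr (Equiv.sigmaFiberEquiv fun σ : S →+* ZMod p => σ.comp φ))

private theorem sum_split {T : Type} [CommRing T] (hT : Algebra.FiniteType ℤ T) {p : ℕ}
    (hp : p.Prime) (a : ℝ) (f : (T →+* ZMod p) → ℝ) :
    ∑ᶠ τ : T →+* ZMod p, (a - f τ) = a * Nat.card (T →+* ZMod p) - ∑ᶠ τ : T →+* ZMod p, f τ := by
  classical
  have hfT : Finite (T →+* ZMod p) := W.finite_hom T p hp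
  have := Fintype.ofFinite (T →+* ZMod p)
  rw [finsum_eq_sum_of_fintype, finsum_eq_sum_of_fintype, Finset.sum_sub_distrib,
    Finset.sum_const, Finset.card_univ, nsmul_eq_mul, Nat.card_eq_fintype_card]
  ring

/-- proof: the sum is `p #T - #S = (p^(n+1) #R - #S) - p (p^n #R - #T)` -/
theorem mean_rel [IsDomain R] (hR : BaseDom R) {d n s m : ℕ} (hT : RelTate R T d n s)
    (hS : RelTate R S d (n + 1) m) (φ : T →ₐ[R] S) :
    Quad.TauMean (fun p : ℕ => (∑ᶠ τ : T →+* ZMod p,
      ((p : ℝ) - Nat.card {σ : S →+* ZMod p // σ.comp (φ : T →+* S) = τ})) /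
        (p : ℝ) ^ (n + d)) ((m : ℝ) - s) := by
  have hfT := ft_trans hR.finite hT.finite
  have hfS := ft_trans hR.finite hS.finite
  refine (hS.count.sub hT.count).congr' 0 fun p _ hp => ?_
  have hp0 : (p : ℝ) ≠ 0 := by exact_mod_cast hp.ne_zero
  rw [sum_split hfT hp, sum_over hfT hfS _ hp, add_right_comm n 1 d, pow_succ (p : ℝ) (n + d),
    pow_succ (p : ℝ) n]
  field_simp
  ring

/-- proof: `mean_rel`; the mean of `#T / p^(n+d)` is `1` by `hT.count` and `hL`; the mean of
`#D_i / p^(n+d)` is `1` by `hD` -/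
theorem mean_proj_rel [IsDomain R] (hR : BaseDom R) {d n s m : ℕ} (hL : Quad.LangWeilT R d)
    (hT : RelTate R T d n s) (hS : RelTate R S d (n + 1) m) (φ : T →ₐ[R] S) (c : ℕ)
    (D : Fin c → Type) [∀ i, CommRing (D i)] [∀ i, Nontrivial (D i)]
    [∀ i, Algebra.FiniteType ℤ (D i)] (ψ : ∀ i, T →+* D i)
    (hD : ∀ i, Quad.LangWeilT (D i) (n + d)) :
    Quad.TauMean (fun p : ℕ => (∑ᶠ τ : T →+* ZMod p,
      ((p : ℝ) + 1 - Nat.card {σ : S →+* ZMod p // σ.comp (φ : T →+* S) = τ} -
        ∑ i, (Nat.card {ρ : D i →+* ZMod p // ρ.comp (ψ i) = τ} : ℝ))) / (p : ℝ) ^ (n + d))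
      ((m : ℝ) - s + 1 - c) := by
  classical
  have hfT := ft_trans hR.finite hT.finite
  have hfS := ft_trans hR.finite hS.finite
  have hone : ∀ (U : Type) [CommRing U] (p : ℕ), p.Prime →
      Nat.card {z : U →+* ZMod p // z 1 ≠ 0} = Nat.card (U →+* ZMod p) := by
    intro U _ p hp
    have : Fact p.Prime := ⟨hp⟩
    refine Nat.card_congr (Equiv.subtypeUnivEquiv fun z => ?_)
    rw [map_one]
    exact one_ne_zero
  -- the mean of `#T`
  have hmT : Quad.TauMean (fun p : ℕ => (Nat.card (T →+* ZMod p) : ℝ) / (p : ℝ) ^ (n + d)) 1 := by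
    have h1 := (hL 1 one_ne_zero).sub (tau_div hT.count)
    rw [sub_zero] at h1
    refine h1.congr' 0 fun p _ hp => ?_
    have hp0 : (p : ℝ) ≠ 0 := by exact_mod_cast hp.ne_zero
    rw [hone R p hp, pow_add]
    field_simp
    ring
  have hmD : ∀ i, Quad.TauMean
      (fun p : ℕ => (Nat.card (D i →+* ZMod p) : ℝ) / (p : ℝ) ^ (n + d)) 1 := by
    intro i
    refine (hD i 1 one_ne_zero).congr' 0 fun p _ hp => ?_
    rw [hone (D i) p hp]
  have h1 := ((mean_rel hR hT hS φ).add hmT).sub (Quad.TauMean.sum Finset.univ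
    (fun i (p : ℕ) => (Nat.card (D i →+* ZMod p) : ℝ) / (p : ℝ) ^ (n + d)) (fun _ => 1)
    fun i _ => hmD i)
  simp only [Finset.sum_const, Finset.card_univ, Fintype.card_fin, nsmul_eq_mul, mul_one] at h1
  refine h1.congr' 0 fun p _ hp => ?_
  have hFT : Finite (T →+* ZMod p) := W.finite_hom T p hp
  have := Fintype.ofFinite (T →+* ZMod p)
  rw [← Finset.sum_div, ← add_div, ← sub_div]
  congr 1
  have e1 : ∀ i, (Nat.card (D i →+* ZMod p) : ℝ) = ∑ τ : T →+* ZMod p,
      (Nat.card {ρ : D i →+* ZMod p // ρ.comp (ψ i) = τ} : ℝ) := by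
    intro i
    rw [← sum_over hfT (inferInstance : Algebra.FiniteType ℤ (D i)) (ψ i) hp,
      finsum_eq_sum_of_fintype]
  have e2 : (Nat.card (T →+* ZMod p) : ℝ) = ∑ _τ : T →+* ZMod p, (1 : ℝ) := by
    rw [Finset.sum_const, Finset.card_univ, nsmul_eq_mul, mul_one, Nat.card_eq_fintype_card]
  simp only [e1]
  rw [finsum_eq_sum_of_fintype, finsum_eq_sum_of_fintype, e2, Finset.sum_comm,
    ← Finset.sum_add_distrib, ← Finset.sum_sub_distrib]
  exact Finset.sum_congr rfl fun τ _ => by ring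

/-- nonzero prime ideals of a localisation contain prime elements of the given ring -/
private theorem loc_ufd {A B : Type} [CommRing A] [IsDomain A] [UniqueFactorizationMonoid A]
    [CommRing B] [IsDomain B] [Algebra A B] (M : Submonoid A) [IsLocalization M B] :
    UniqueFactorizationMonoid B := by
  rw [UniqueFactorizationMonoid.iff_exists_prime_mem_of_isPrime]
  intro P hP hP'
  have hinj : Function.Injective (algebraMap A B) := by
    have h0 : (0 : A) ∉ M := by
      intro h
      have := IsLocalization.map_units B (⟨0, h⟩ : M)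
      rw [map_zero] at this
      exact not_isUnit_zero this
    exact IsLocalization.injective B (le_nonZeroDivisors_of_noZeroDivisors h0)
  obtain ⟨h1, h2⟩ := (IsLocalization.isPrime_iff_isPrime_disjoint M B P).1 hP'
  have hne : P.under A ≠ ⊥ := by
    obtain ⟨x, hx, hx0⟩ := Submodule.exists_mem_ne_zero_of_ne_bot hP
    obtain ⟨a, s, rfl⟩ := IsLocalization.exists_mk'_eq M x
    intro hbot
    have ha : a ∈ P.under A := by
      rw [Ideal.mem_comap]
      exact (IsLocalization.mk'_mem_iff).1 hx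
    rw [hbot, Submodule.mem_bot] at ha
    rw [ha, IsLocalization.mk'_zero] at hx0
    exact hx0 rfl
  obtain ⟨p, hp, hpp⟩ := Ideal.IsPrime.exists_mem_prime_of_ne_bot h1 hne
  refine ⟨algebraMap A B p, hp, ?_⟩
  have hsp : (Ideal.span {p}).IsPrime := (Ideal.span_singleton_prime hpp.ne_zero).2 hpp
  have hle : Ideal.span {p} ≤ P.under A := (Ideal.span_singleton_le_iff_mem _).2 hp
  have hd : Disjoint (M : Set A) (Ideal.span {p} : Ideal A) :=
    h2.mono_right hle
  have h3 := IsLocalization.isPrime_of_isPrime_disjoint M B _ hsp hd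
  rw [Ideal.map_span, Set.image_singleton] at h3
  exact (Ideal.span_singleton_prime fun h => hpp.ne_zero (hinj (h.trans (map_zero _).symm))).1 h3

private theorem gen_ufd {A B : Type} [CommRing A] [CommRing B] [IsDomain B]
    [UniqueFactorizationMonoid B] (f : A →+* B) (h : IsDomain (Gen f)) :
    UniqueFactorizationMonoid (Gen f) :=
  @loc_ufd B (Gen f) _ _ _ _ h
    (inferInstanceAs (Algebra B (Localization ((nonZeroDivisors A).map f))))
    ((nonZeroDivisors A).map f)
    (inferInstanceAs (IsLocalization ((nonZeroDivisors A).map f)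
      (Localization ((nonZeroDivisors A).map f))))

private theorem baseK_toGen (φ : T →ₐ[R] S) (t : T) :
    baseK φ (toGen (algebraMap R T) t) = toGen (algebraMap R S) (φ t) := by
  unfold baseK toGen
  exact IsLocalization.map_eq (M := (nonZeroDivisors R).map (algebraMap R T))
    (S := Localization ((nonZeroDivisors R).map (algebraMap R T)))
    (T := (nonZeroDivisors R).map (algebraMap R S))
    (Q := Localization ((nonZeroDivisors R).map (algebraMap R S))) _ t

private theorem cst_toGen {A B : Type} [CommRing A] [CommRing B] (f : A →+* B) (a : A) :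
    Fb.cst f (algebraMap A (FractionRing A) a) = toGen f (f a) := by
  unfold Fb.cst toGen
  exact IsLocalization.map_eq (M := nonZeroDivisors A) (S := FractionRing A)
    (T := (nonZeroDivisors A).map f) (Q := Localization ((nonZeroDivisors A).map f)) _ a

private theorem baseK_cst [IsDomain R] (φ : T →ₐ[R] S) :
    (baseK φ).comp (Fb.cst (algebraMap R T)) = Fb.cst (algebraMap R S) := by
  refine IsLocalization.ringHom_ext (nonZeroDivisors R) (RingHom.ext fun r => ?_)
  simp only [RingHom.comp_apply]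
  rw [cst_toGen, cst_toGen, baseK_toGen, AlgHom.commutes]

/-- proof: `rank_units_rel` for `baseK φ`; `Gen (baseK φ)` is a localisation of the factorial ring
`Gen (algebraMap R S)`, so its Picard group is trivial -/
theorem rank_rel [IsDomain R] {d n s m : ℕ} (hT : RelTate R T d n s)
    (hS : RelTate R S d (n + 1) m) (φ : T →ₐ[R] S) (hφ : IrrOver (baseK φ) 1) :
    IsDomain (Gen (baseK φ)) ∧ Subsingleton (CommRing.Pic (Gen (baseK φ))) ∧
      ∀ [IsDomain (Gen (algebraMap R T))], unitRk (baseK φ) + s = m := by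
  have hdT := hT.dom
  have hdS := hS.dom
  have hT1 : IsDomain (Gen (algebraMap R T)) := kmodel_domain (kmodel_gen hT.inj)
  have hS1 : IsDomain (Gen (algebraMap R S)) := kmodel_domain (kmodel_gen hS.inj)
  have hT2 := hT.ufd
  have hS2 := hS.ufd
  have h1 : IsUnit (baseK φ 1) := by rw [map_one]; exact isUnit_one
  have hD : IsDomain (Gen (baseK φ)) := gen_isDomain h1 hφ
  refine ⟨hD, ?_, ?_⟩
  · have hU : UniqueFactorizationMonoid (Gen (baseK φ)) := gen_ufd _ hD
    infer_instance
  · intro _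
    obtain ⟨γ, hγ⟩ := hS.units
    obtain ⟨δ, hδ⟩ := hT.units
    refine rank_units_rel hφ (Fb.cst (algebraMap R T)) (γ := γ) (δ := δ) ?_ hδ
    rw [baseK_cst]
    exact hγ

theorem main_rel [IsDomain R] (hR : BaseDom R) {d n s m : ℕ} (hL : Quad.LangWeilT R d)
    (hT : RelTate R T d n s) (hS : RelTate R S d (n + 1) m) (φ : T →ₐ[R] S)
    (hφ : IrrOver (baseK φ) 1) : ∃ u : ℕ, u + s = m ∧ NagaoRel φ (n + d) u := by
  obtain ⟨h1, h2, h3⟩ := rank_rel hT hS φ hφ
  have hdT := hT.dom
  have hT1 : IsDomain (Gen (algebraMap R T)) := kmodel_domain (kmodel_gen hT.inj)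
  refine ⟨unitRk (baseK φ), h3, ?_, ⟨h1, h2, ?_⟩, ?_⟩
  · have h4 := mean_rel hR hT hS φ
    have e : (m : ℝ) - s = (unitRk (baseK φ) : ℝ) := by
      rw [← h3]
      push_cast
      ring
    rwa [e] at h4
  · intro _
    rfl
  · intro c D _ _ _ ψ hD
    have h4 := mean_proj_rel hR hL hT hS φ c D ψ hD
    have e : (m : ℝ) - s + 1 - c = -((c : ℝ) - 1 - (unitRk (baseK φ) : ℝ)) := by
      rw [← h3]
      push_cast
      ring
    rwa [e] at h4

end Pool.Agent.Lib.MP_1a0ddd_nt.Cn
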