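import Pool.Agent.Lib.MP_1a0ddd_nt.Cn.Km
import Pool.Agent.Lib.MP_1a0ddd_nt.V.Cnt

/-! Affine spaces have the relative Tate property. -/

set_option autoImplicit false

namespace Pool.Agent.Lib.MP_1a0ddd_nt.Cn

open Polynomial Pool.Agent.Lib.MP_1a0ddd_nt.V Pool.Agent.Lib.MP_1a0ddd_nt.Fb

/-- the model is `K` itself -/
theorem relTate_base (R : Type) [CommRing R] [IsDomain R] (d : ℕ) : RelTate R R d 0 0 := by
  have hm : KModel R (algebraMap R (FractionRing R)) (RingHom.id (FractionRing R)) := by
    refine ⟨IsFractionRing.injective R (FractionRing R), fun r => rfl, fun o => ?_⟩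
    obtain ⟨x, y, hy, rfl⟩ := IsFractionRing.div_surjective (A := R) o
    refine ⟨x, y, nonZeroDivisors.ne_zero hy, ?_⟩
    have h0 : algebraMap R (FractionRing R) y ≠ 0 := by
      rw [Ne, IsFractionRing.to_map_eq_zero_iff]
      exact nonZeroDivisors.ne_zero hy
    have h1 : algebraMap R R y = y := rfl
    rw [h1, div_mul_cancel₀ _ h0]
  refine relTate_of_model (O := FractionRing R) (γ := Fin.elim0) Function.injective_id
    inferInstance hm inferInstance ⟨fun v => ⟨v, 0, ?_⟩, fun c n _ => Subsingleton.elim _ _⟩ ?_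
  · ext
    simp
  · have h := Quad.TauMean.zero
    have e : ((0 : ℕ) : ℝ) = 0 := Nat.cast_zero
    rw [e]
    refine h.congr' 0 fun p _ _ => ?_
    rw [pow_zero, one_mul, sub_self, mul_zero, zero_div]

/-- the model of `S[X]` is `O[X]` -/
private theorem poly_model {R S O : Type} [CommRing R] [IsDomain R] [CommRing S] [Algebra R S]
    [CommRing O] {j : S →+* O} {κ : FractionRing R →+* O} (hj : KModel R j κ) :
    KModel R (S := S[X]) (mapRingHom j) ((C : O →+* O[X]).comp κ) := by
  have ha : ∀ r : R, algebraMap R S[X] r = C (algebraMap R S r) := fun r => rfl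
  refine ⟨Polynomial.map_injective j hj.inj, fun r => ?_, fun o => ?_⟩
  · rw [RingHom.comp_apply, hj.comp, ha, coe_mapRingHom, Polynomial.map_C]
  · induction o using Polynomial.induction_on' with
    | add p q hp hq =>
      obtain ⟨s, r, hr, h1⟩ := hp
      obtain ⟨s', r', hr', h2⟩ := hq
      refine ⟨s * algebraMap R S[X] r' + s' * algebraMap R S[X] r, r * r', mul_ne_zero hr hr', ?_⟩
      rw [map_add, map_mul (mapRingHom j), map_mul (mapRingHom j), ← h1, ← h2, map_mul, map_mul]
      ring
    | monomial n a =>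
      obtain ⟨s, r, hr, h1⟩ := hj.surj a
      refine ⟨monomial n s, r, hr, ?_⟩
      rw [ha, coe_mapRingHom, Polynomial.map_C, Polynomial.map_monomial, ← h1,
        Polynomial.monomial_mul_C]

/-- the units of `O[X]` -/
private theorem poly_units {k O : Type} [Field k] [CommRing O] [IsDomain O] {ι : k →+* O} {e : ℕ}
    {γ : Fin e → Oˣ} (hγ : UnitFam ι γ) :
    UnitFam ((C : O →+* O[X]).comp ι) (fun i => Units.map ((C : O →+* O[X]) : O →* O[X]) (γ i)) := by
  have hinj : Function.Injective (Units.map ((C : O →+* O[X]) : O →* O[X])) :=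
    Units.map_injective (C_injective (R := O))
  have hc : ∀ c : kˣ, Units.map ((((C : O →+* O[X]).comp ι : k →+* O[X])) : k →* O[X]) c =
      Units.map ((C : O →+* O[X]) : O →* O[X]) (Units.map (ι : k →* O) c) := fun c => Units.ext rfl
  have hp : ∀ n : Fin e → ℤ, ∏ i, Units.map ((C : O →+* O[X]) : O →* O[X]) (γ i) ^ n i =
      Units.map ((C : O →+* O[X]) : O →* O[X]) (∏ i, γ i ^ n i) := by
    intro n
    rw [map_prod]
    exact Finset.prod_congr rfl fun i _ => by rw [map_zpow]
  refine ⟨fun v => ?_, fun c n h => ?_⟩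
  · obtain ⟨r, hr, h1⟩ := Polynomial.isUnit_iff.1 v.isUnit
    obtain ⟨c, n, h2⟩ := hγ.gen hr.unit
    refine ⟨c, n, ?_⟩
    rw [hc, hp, ← map_mul, ← h2]
    refine Units.ext ?_
    rw [← h1]
    rfl
  · rw [hp, hc] at h
    exact hγ.indep c n (hinj h)

/-- the points of the affine line over `Spec S` -/
private theorem poly_card {S : Type} [CommRing S] (p : ℕ) :
    Nat.card (S[X] →+* ZMod p) = Nat.card (S →+* ZMod p) * p := by
  have e : (S →+* ZMod p) × ZMod p ≃ (S[X] →+* ZMod p) :=
    { toFun := fun a => eval₂RingHom a.1 a.2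
      invFun := fun φ => (φ.comp C, φ X)
      left_inv := fun a => by
        refine Prod.ext ?_ ?_
        · refine RingHom.ext fun r => ?_
          simp
        · simp
      right_inv := fun φ => by
        refine Polynomial.ringHom_ext' ?_ ?_
        · refine RingHom.ext fun r => ?_
          simp
        · simp }
  rw [← Nat.card_congr e, Nat.card_prod, Nat.card_zmod]

/-- the model is `O[X]`, `O` the model for `S`; the units of `O[X]` are those of `O`; the count
is `#S[X] = p #S` -/
theorem relTate_poly {R S : Type} [CommRing R] [IsDomain R] [CommRing S] [Algebra R S]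
    (hR : BaseDom R) {d n e : ℕ} (h : RelTate R S d n e) : RelTate R S[X] d (n + 1) e := by
  have hdS := h.dom
  have hfS := h.finite
  have hufd := h.ufd
  have hj := kmodel_gen (R := R) (S := S) h.inj
  have hdO : IsDomain (Gen (algebraMap R S)) := kmodel_domain hj
  obtain ⟨γ, hγ⟩ := h.units
  have hinj : Function.Injective (algebraMap R S[X]) :=
    (C_injective (R := S)).comp h.inj
  refine relTate_of_model hinj inferInstance (poly_model hj) inferInstance (poly_units hγ) ?_
  refine h.count.congr' 0 fun p _ hp => ?_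
  have hp0 : (p : ℝ) ≠ 0 := by exact_mod_cast hp.ne_zero
  rw [poly_card]
  have e1 : n + 1 + d = (n + d) + 1 := by omega
  rw [e1, pow_succ, pow_succ (p : ℝ) (n + d)]
  push_cast
  field_simp

end Pool.Agent.Lib.MP_1a0ddd_nt.Cn
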