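import Pool.Agent.Lib.MP_1a0ddd_nt.Cn.Stmt
import Pool.Agent.Lib.MP_1a0ddd_nt.Cn.Main
import Pool.Agent.Lib.MP_1a0ddd_nt.Cn.Poly
import Pool.Agent.Lib.MP_1a0ddd_nt.Cn.Loc
import Pool.Agent.Lib.MP_1a0ddd_nt.Cn.Asm

/-! Assembly of `CurveFibrations`. -/

set_option autoImplicit false

namespace Pool.Agent.Lib.MP_1a0ddd_nt.Cn

open Polynomial Pool.Agent.Lib.MP_1a0ddd_nt.V Pool.Agent.Lib.MP_1a0ddd_nt.Fb

theorem fin_closure (R : Type) [CommRing R] [IsDomain R] (hR : BaseDom R) (d : ℕ) :
    Closure R d where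
  base := relTate_base R d
  poly := fun _ _ _ _ _ h => relTate_poly hR h
  open' := fun _ _ _ _ _ _ _ _ _ h hg hP he => relTate_loc hR h hg hP he
  conic := fun _ _ _ _ _ _ _ _ _ h hc he => relTate_conic hR h hc he

private theorem ft_trans' {R T : Type} [CommRing R] [CommRing T] [Algebra R T]
    (hR : Algebra.FiniteType ℤ R) (hT : Algebra.FiniteType R T) : Algebra.FiniteType ℤ T :=
  Algebra.FiniteType.trans (S := R) hR hT

/-- the averages of the traces and the relative point counts -/
theorem avg_eq_count {R T S : Type} [CommRing R] [CommRing T] [CommRing S] [Algebra R T]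
    [Algebra R S] (hR : BaseDom R) (hT : Algebra.FiniteType R T) (hS : Algebra.FiniteType R S)
    (d n : ℕ) (φ : T →ₐ[R] S) (p : ℕ) (hp : p.Prime) :
    avgRel φ (n + d) p = relCount R S d (n + 1) p - relCount R T d n p := by
  classical
  have hfT : Algebra.FiniteType ℤ T := ft_trans' hR.finite hT
  have hfS : Algebra.FiniteType ℤ S := ft_trans' hR.finite hS
  have hp0 : (p : ℝ) ≠ 0 := by exact_mod_cast hp.ne_zero
  have h1 : ∑ᶠ τ : T →+* ZMod p,
      ((p : ℝ) - Nat.card {σ : S →+* ZMod p // σ.comp (φ : T →+* S) = τ}) =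
        p * Nat.card (T →+* ZMod p) - Nat.card (S →+* ZMod p) := by
    have hfin : Finite (T →+* ZMod p) := W.finite_hom T p hp
    have := Fintype.ofFinite (T →+* ZMod p)
    rw [← sum_over hfT hfS (φ : T →+* S) hp, finsum_eq_sum_of_fintype, finsum_eq_sum_of_fintype,
      Finset.sum_sub_distrib, Finset.sum_const, Finset.card_univ, nsmul_eq_mul,
      Nat.card_eq_fintype_card]
    ring
  unfold avgRel relCount
  rw [h1, add_right_comm n 1 d, pow_succ (p : ℝ) (n + d), pow_succ (p : ℝ) n]
  field_simp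
  ring

/-- the limit statement for the traces is equivalent to the relative Tate property of the count -/
theorem fin_iff {R T S : Type} [CommRing R] [IsDomain R] [CommRing T] [CommRing S] [Algebra R T]
    [Algebra R S] (hR : BaseDom R) {d n s : ℕ} (hT : RelTate R T d n s)
    (hS : Algebra.FiniteType R S) (φ : T →ₐ[R] S) (v : ℝ) :
    Quad.TauMean (avgRel φ (n + d)) v ↔ Quad.TauMean (relCount R S d (n + 1)) (v + s) := by
  have h0 : Quad.TauMean (relCount R T d n) s := hT.count
  constructor
  · intro h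
    refine (h.add h0).congr' 0 fun p _ hp => ?_
    rw [avg_eq_count hR hT.finite hS d n φ p hp]
    ring
  · intro h
    have h1 := h.sub h0
    rw [add_sub_cancel_right] at h1
    exact h1.congr' 0 fun p _ hp => avg_eq_count hR hT.finite hS d n φ p hp

end Pool.Agent.Lib.MP_1a0ddd_nt.Cn
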