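import Pool.Agent.Lib.MP_1a0ddd_nt.Cn.Defs

/-! Models of the ring `S ⊗ K`, `K` the fraction field of `R`. -/

set_option autoImplicit false

namespace Pool.Agent.Lib.MP_1a0ddd_nt.Cn

open Polynomial Pool.Agent.Lib.MP_1a0ddd_nt.V Pool.Agent.Lib.MP_1a0ddd_nt.Fb

/-- `O` is the ring `S ⊗ K`, with structure maps `j` and `κ` -/
structure KModel (R : Type) {S O : Type} [CommRing R] [IsDomain R] [CommRing S] [Algebra R S]
    [CommRing O] (j : S →+* O) (κ : FractionRing R →+* O) : Prop where
  inj : Function.Injective j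
  comp : ∀ r : R, κ (algebraMap R (FractionRing R) r) = j (algebraMap R S r)
  surj : ∀ o : O, ∃ (s : S) (r : R), r ≠ 0 ∧ o * j (algebraMap R S r) = j s

variable {R S O : Type} [CommRing R] [IsDomain R] [CommRing S] [Algebra R S] [CommRing O]
  {j : S →+* O} {κ : FractionRing R →+* O}

/-! ### Auxiliary lemmas -/

private theorem km_unit (h : KModel R j κ) {r : R} (hr : r ≠ 0) :
    IsUnit (j (algebraMap R S r)) := by
  rw [← h.comp]
  have h1 : algebraMap R (FractionRing R) r ≠ 0 := by
    rw [Ne, IsFractionRing.to_map_eq_zero_iff]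
    exact hr
  exact (IsUnit.mk0 _ h1).map κ

private theorem km_loc (h : KModel R j κ) :
    @IsLocalization S _ ((nonZeroDivisors R).map (algebraMap R S)) O _ j.toAlgebra := by
  letI := j.toAlgebra
  refine ⟨?_, ?_, ?_⟩
  · rintro ⟨_, r, hr, rfl⟩
    exact km_unit h (nonZeroDivisors.ne_zero hr)
  · intro o
    obtain ⟨s, r, hr, e⟩ := h.surj o
    exact ⟨(s, ⟨algebraMap R S r, r, mem_nonZeroDivisors_of_ne_zero hr, rfl⟩), e⟩
  · intro x y e
    exact ⟨1, by rw [h.inj e]⟩

private theorem km_nontrivial [Nontrivial S] (h : KModel R j κ) : Nontrivial O :=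
  h.inj.nontrivial

/-- a prime ideal with the ideal `I` contains the extension of one of the components -/
private theorem km_contains {S T : Type} [CommRing S] [CommRing T] (φ : S →+* T) {I : Ideal S}
    {n : ℕ} {P : Fin n → Ideal S} (hP : ∃ k : ℕ, (∏ i, P i) ^ k ≤ I)
    (M : Ideal T) (hM : M.IsPrime) (hI : I.map φ ≤ M) : ∃ i, (P i).map φ ≤ M := by
  obtain ⟨k, hk⟩ := hP
  have h1 : ((∏ i, P i) ^ k).map φ ≤ M := le_trans (Ideal.map_mono hk) hI
  rw [Ideal.map_pow] at h1
  have h2 : (∏ i, P i).map φ ≤ M := Ideal.IsPrime.le_of_pow_le h1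
  have h3 : (∏ i, P i).map φ = ∏ i, (P i).map φ := map_prod (Ideal.mapHom φ) P Finset.univ
  rw [h3, hM.prod_le] at h2
  obtain ⟨i, _, hi⟩ := h2
  exact ⟨i, hi⟩

/-- the extensions of the components to a factorial ring are principal -/
private theorem km_gen {S T : Type} [CommRing S] [CommRing T] [IsDomain T]
    [UniqueFactorizationMonoid T] (φ : S →+* T) {G : S} (hG0 : φ G ≠ 0) {n : ℕ}
    {P : Fin n → Ideal S} (hle : ∀ i, Ideal.span {G} ≤ P i)
    (hpow : ∃ k : ℕ, (∏ i, P i) ^ k ≤ Ideal.span {G}) (hinc : ∀ i j, P i ≤ P j → i = j)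
    (hpr : ∀ i, ((P i).map φ).IsPrime ∧ ((P i).map φ).comap φ = P i) :
    ∃ g : Fin n → T, (∀ j, Prime (g j)) ∧ (∀ i j, g i ∣ g j → i = j) ∧
      (∀ j, g j ∣ φ G) ∧ (∀ π : T, Prime π → π ∣ φ G → ∃ j, g j ∣ π) ∧
      ∀ i, (P i).map φ = Ideal.span {g i} := by
  classical
  -- comparison of the extensions
  have hcomp : ∀ i j, (P i).map φ ≤ (P j).map φ → i = j := by
    intro i j hij
    apply hinc
    have h1 := Ideal.comap_mono (f := φ) hij
    rw [(hpr i).2, (hpr j).2] at h1
    exact h1
  have hspan : ∀ π : T, π ∣ φ G → (Ideal.span {G}).map φ ≤ Ideal.span {π} := by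
    intro π hπ
    rw [Ideal.map_span, Set.image_singleton, Ideal.span_singleton_le_span_singleton]
    exact hπ
  -- every extension is principal
  have hprinc : ∀ i, ∃ π : T, Prime π ∧ π ∣ φ G ∧ (P i).map φ = Ideal.span {π} := by
    intro i
    have hGi : φ G ∈ (P i).map φ := Ideal.mem_map_of_mem φ (hle i (Ideal.subset_span rfl))
    obtain ⟨π, hπ, hπG, hπi⟩ : ∃ π : T, Prime π ∧ π ∣ φ G ∧ π ∈ (P i).map φ := by
      obtain ⟨s, hs, u, hu⟩ := UniqueFactorizationMonoid.exists_prime_factors (φ G) hG0
      have h1 : s.prod ∈ (P i).map φ := by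
        have h2 : s.prod = φ G * ↑u⁻¹ := by
          rw [← hu, mul_assoc, Units.mul_inv, mul_one]
        rw [h2]
        exact Ideal.mul_mem_right _ _ hGi
      rw [(hpr i).1.multiset_prod_mem_iff_exists_mem] at h1
      obtain ⟨π, hπs, hπ⟩ := h1
      exact ⟨π, hs π hπs, (Multiset.dvd_prod hπs).trans ⟨u, hu.symm⟩, hπ⟩
    refine ⟨π, hπ, hπG, ?_⟩
    have hπprime : (Ideal.span {π}).IsPrime := (Ideal.span_singleton_prime hπ.ne_zero).2 hπ
    obtain ⟨j, hj⟩ := km_contains φ hpow (Ideal.span {π}) hπprime (hspan π hπG)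
    have hle : Ideal.span {π} ≤ (P i).map φ := by
      rw [Ideal.span_singleton_le_iff_mem]
      exact hπi
    have hij : j = i := hcomp j i (le_trans hj hle)
    rw [hij] at hj
    exact le_antisymm hj hle
  choose g hg hgG hgP using hprinc
  refine ⟨g, hg, ?_, hgG, ?_, hgP⟩
  · intro i j hij
    refine (hcomp j i ?_).symm
    rw [hgP, hgP, Ideal.span_singleton_le_span_singleton]
    exact hij
  · intro π hπ hπG
    have hπprime : (Ideal.span {π}).IsPrime := (Ideal.span_singleton_prime hπ.ne_zero).2 hπ
    obtain ⟨j, hj⟩ := km_contains φ hpow (Ideal.span {π}) hπprime (hspan π hπG)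
    have hj' : (P j).map φ ≤ Ideal.span {π} := hj
    rw [hgP, Ideal.span_singleton_le_span_singleton] at hj'
    exact ⟨j, ((hπ.irreducible.dvd_symm (hg j).irreducible) hj')⟩

private theorem km_cst (r : R) : cst (algebraMap R S) (algebraMap R (FractionRing R) r) =
    toGen (algebraMap R S) (algebraMap R S r) := by
  have h1 : IsLocalization.map (M := nonZeroDivisors R)
      (T := (nonZeroDivisors R).map (algebraMap R S))
      (Localization ((nonZeroDivisors R).map (algebraMap R S))) (algebraMap R S)
      (Submonoid.le_comap_map _) (algebraMap R (FractionRing R) r) =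
        algebraMap S (Localization ((nonZeroDivisors R).map (algebraMap R S)))
          (algebraMap R S r) :=
    IsLocalization.map_eq _ r
  exact h1

theorem kmodel_gen [IsDomain S] (h : Function.Injective (algebraMap R S)) :
    KModel R (toGen (algebraMap R S)) (cst (algebraMap R S)) := by
  have hle : (nonZeroDivisors R).map (algebraMap R S) ≤ nonZeroDivisors S := by
    rintro _ ⟨a, ha, rfl⟩
    exact mem_nonZeroDivisors_of_ne_zero ((map_ne_zero_iff _ h).2 (nonZeroDivisors.ne_zero ha))
  refine ⟨?_, fun r => km_cst r, ?_⟩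
  · exact IsLocalization.injective (Localization ((nonZeroDivisors R).map (algebraMap R S))) hle
  · have key : ∀ x : Localization ((nonZeroDivisors R).map (algebraMap R S)),
        ∃ (s : S) (t : R), t ≠ 0 ∧
        x * algebraMap S (Localization ((nonZeroDivisors R).map (algebraMap R S)))
          (algebraMap R S t) =
          algebraMap S (Localization ((nonZeroDivisors R).map (algebraMap R S))) s := by
      intro x
      obtain ⟨s, ⟨_, t, ht, rfl⟩, hx⟩ :=
        IsLocalization.exists_mk'_eq ((nonZeroDivisors R).map (algebraMap R S)) x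
      refine ⟨s, t, nonZeroDivisors.ne_zero ht, ?_⟩
      rw [← hx]
      exact IsLocalization.mk'_spec _ _ _
    exact key

theorem kmodel_domain [IsDomain S] (h : KModel R j κ) : IsDomain O := by
  have := km_nontrivial h
  have : NoZeroDivisors O := by
    refine ⟨fun {a b} hab => ?_⟩
    obtain ⟨s, r, hr, e⟩ := h.surj a
    obtain ⟨s', r', hr', e'⟩ := h.surj b
    have h1 : j (s * s') = 0 := by
      rw [map_mul, ← e, ← e']
      calc _ = (a * b) * (j (algebraMap R S r) * j (algebraMap R S r')) := by ring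
        _ = 0 := by rw [hab, zero_mul]
    have h2 : s * s' = 0 := h.inj (h1.trans (map_zero j).symm)
    rcases mul_eq_zero.1 h2 with h3 | h3
    · left
      rw [h3, map_zero] at e
      exact (km_unit h hr).mul_left_eq_zero.1 e
    · right
      rw [h3, map_zero] at e'
      exact (km_unit h hr').mul_left_eq_zero.1 e'
  exact NoZeroDivisors.to_isDomain _

theorem kmodel_charZero [CharZero R] [IsDomain S] (h : KModel R j κ) : CharZero O := by
  have := km_nontrivial h
  exact charZero_of_injective_ringHom (f := κ.comp (algebraMap R (FractionRing R)))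
    (κ.injective.comp (IsFractionRing.injective R (FractionRing R)))

/-- proof: both rings are localisations of `S` at the nonzero elements of `R` -/
theorem kmodel_equiv [IsDomain S] (h : Function.Injective (algebraMap R S)) (hj : KModel R j κ) :
    ∃ e : Gen (algebraMap R S) ≃+* O, (∀ s, e (toGen (algebraMap R S) s) = j s) ∧
      ∀ c, e (cst (algebraMap R S) c) = κ c := by
  have hg := kmodel_gen (R := R) (S := S) h
  obtain ⟨e, he⟩ : ∃ e : Gen (algebraMap R S) ≃+* O, ∀ s, e (toGen (algebraMap R S) s) = j s := by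
    letI := j.toAlgebra
    have h1 := km_loc hj
    let e := IsLocalization.algEquiv ((nonZeroDivisors R).map (algebraMap R S))
      (Localization ((nonZeroDivisors R).map (algebraMap R S))) O
    exact ⟨e.toRingEquiv, fun s => e.commutes s⟩
  refine ⟨e, he, fun c => ?_⟩
  have h2 : (e : Gen (algebraMap R S) →+* O).comp (cst (algebraMap R S)) = κ := by
    refine IsLocalization.ringHom_ext (nonZeroDivisors R) (RingHom.ext fun r => ?_)
    change e (cst (algebraMap R S) (algebraMap R (FractionRing R) r)) = _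
    rw [km_cst, he]
    exact (hj.comp r).symm
  exact RingHom.congr_fun h2 c

theorem kmodel_noetherian [IsNoetherianRing S] (hj : KModel R j κ) : IsNoetherianRing O := by
  letI := j.toAlgebra
  have h1 := km_loc hj
  exact IsLocalization.isNoetherianRing ((nonZeroDivisors R).map (algebraMap R S)) O inferInstance

/-- the property may be checked on any model. Proof: transport along `kmodel_equiv` -/
theorem relTate_of_model [IsDomain S] (h : Function.Injective (algebraMap R S))
    (hf : Algebra.FiniteType R S) {d n e : ℕ} (hj : KModel R j κ)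
    (hu : UniqueFactorizationMonoid O) {γ : Fin e → Oˣ} (hγ : UnitFam κ γ)
    (hc : Quad.TauMean (fun p : ℕ => (p : ℝ) * ((p : ℝ) ^ n * Nat.card (R →+* ZMod p) -
      Nat.card (S →+* ZMod p)) / (p : ℝ) ^ (n + d)) e) : RelTate R S d n e := by
  obtain ⟨e', he, hc'⟩ := kmodel_equiv h hj
  refine ⟨inferInstance, h, hf, ?_, ?_, hc⟩
  · exact e'.symm.toMulEquiv.uniqueFactorizationMonoid hu
  · have hκ : ∀ c : (FractionRing R)ˣ,
        Units.map (e' : Gen (algebraMap R S) →* O)
          (Units.map (cst (algebraMap R S) : FractionRing R →* Gen (algebraMap R S)) c) =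
        Units.map (κ : FractionRing R →* O) c := by
      intro c
      ext
      exact hc' c
    have hγ' : ∀ i, Units.map (e' : Gen (algebraMap R S) →* O)
        (Units.map (e'.symm : O →* Gen (algebraMap R S)) (γ i)) = γ i := by
      intro i
      ext
      exact e'.apply_symm_apply _
    have hinj : Function.Injective (Units.map (e' : Gen (algebraMap R S) →* O)) :=
      Units.map_injective e'.injective
    have hprod : ∀ n : Fin e → ℤ, Units.map (e' : Gen (algebraMap R S) →* O)
        (∏ i, (Units.map (e'.symm : O →* Gen (algebraMap R S)) (γ i)) ^ n i) =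
        ∏ i, γ i ^ n i := by
      intro n
      rw [map_prod]
      exact Finset.prod_congr rfl fun i _ => by rw [map_zpow, hγ']
    refine ⟨fun i => Units.map (e'.symm : O →* Gen (algebraMap R S)) (γ i), ?_, ?_⟩
    · intro v
      obtain ⟨c, n, hv⟩ := hγ.gen (Units.map (e' : Gen (algebraMap R S) →* O) v)
      refine ⟨c, n, hinj ?_⟩
      rw [map_mul, hκ, hprod, hv]
    · intro c n hcn
      refine hγ.indep c n ?_
      rw [← hprod, hcn, hκ]

/-- the components of `f = 0` over `K` (the proof of `frac_factors1` in `V/Frc.lean`) -/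
theorem kmodel_factors [IsDomain S] (hj : KModel R j κ) [IsDomain O]
    [UniqueFactorizationMonoid O] {f : S} (h0 : f ≠ 0) {m e : ℕ} {P : Fin m → Ideal S}
    (hP : CompsG R (Ideal.span {f}) e P) :
    ∃ g : Fin m → O, (∀ i, Prime (g i)) ∧ (∀ i k, g i ∣ g k → i = k) ∧ (∀ i, g i ∣ j f) ∧
      (∀ π : O, Prime π → π ∣ j f → ∃ i, g i ∣ π) ∧
      ∀ i (s : S), g i ∣ j s ↔ s ∈ P i := by
  classical
  have hprime : ∀ i, ((P i).map j).IsPrime ∧ ((P i).map j).comap j = P i := by
    intro i
    letI := j.toAlgebra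
    have h1 := km_loc hj
    have hdis : Disjoint (((nonZeroDivisors R).map (algebraMap R S) : Submonoid S) : Set S)
        (P i : Set S) := by
      rw [Set.disjoint_left]
      rintro _ ⟨r, hr, rfl⟩ hmem
      exact nonZeroDivisors.ne_zero hr (hP.dom i r hmem)
    exact ⟨IsLocalization.isPrime_of_isPrime_disjoint
        ((nonZeroDivisors R).map (algebraMap R S)) O (P i) (hP.prime i) hdis,
      IsLocalization.under_map_of_isPrime_disjoint
        ((nonZeroDivisors R).map (algebraMap R S)) O (hP.prime i) hdis⟩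
  have hG0 : j f ≠ 0 := (map_ne_zero_iff _ hj.inj).2 h0
  obtain ⟨g, g1, g2, g3, g4, g5⟩ := km_gen j hG0 hP.le hP.pow hP.inc hprime
  refine ⟨g, g1, g2, g3, g4, fun i s => ?_⟩
  rw [← Ideal.mem_span_singleton, ← g5 i, ← Ideal.mem_comap, (hprime i).2]

end Pool.Agent.Lib.MP_1a0ddd_nt.Cn
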