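import Pool.Agent.Lib.MP_1a0ddd_nt.Cn.Defs

/-! Nagata's theorem on factorial rings. -/

set_option autoImplicit false

namespace Pool.Agent.Lib.MP_1a0ddd_nt.Cn

/-- cancelling the prime factors of `w`, none of which divides `x` -/
private theorem nag_cancel {O A : Type} [CommRing O] [IsDomain O] [UniqueFactorizationMonoid O]
    [CommRing A] [IsDomain A] (j : O →+* A) (hp : ∀ π : O, Prime π → Prime (j π)) (x : A)
    (hx : ∀ π : O, Prime π → ¬ j π ∣ x) (w : O) :
    w ≠ 0 → ∀ t : A, x ∣ j w * t → x ∣ t := by
  induction w using UniqueFactorizationMonoid.induction_on_prime with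
  | h₁ => intro h; exact absurd rfl h
  | h₂ u hu =>
    intro _ t ht
    have h1 : IsUnit (j u) := hu.map j
    exact (h1.dvd_mul_left).1 ht
  | h₃ a π ha hπ ih =>
    intro _ t ht
    obtain ⟨s, hs⟩ := ht
    rw [map_mul, mul_assoc] at hs
    have h1 : j π ∣ x * s := ⟨_, hs.symm⟩
    rcases (hp π hπ).dvd_or_dvd h1 with h2 | ⟨s', rfl⟩
    · exact absurd h2 (hx π hπ)
    · have h3 : j a * t = x * s' := by
        apply mul_left_cancel₀ (hp π hπ).ne_zero
        rw [hs]; ring
      exact ih ha t ⟨s', h3⟩

/-- a factorisation of `x` times an element of `O` becomes trivial in `B` -/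
private theorem nag_factor {O A B : Type} [CommRing O] [IsDomain O] [UniqueFactorizationMonoid O]
    [CommRing A] [IsDomain A] [CommRing B] (j : O →+* A) (i : A →+* B)
    (hu : ∀ w : O, w ≠ 0 → IsUnit (i (j w)))
    (hp : ∀ π : O, Prime π → Prime (j π)) (x : A) (hx : Irreducible x) (w : O) :
    w ≠ 0 → ∀ y z : A, x * j w = y * z → IsUnit (i y) ∨ IsUnit (i z) := by
  induction w using UniqueFactorizationMonoid.induction_on_prime with
  | h₁ => intro h; exact absurd rfl h
  | h₂ u hu =>
    intro _ y z h
    have h1 : IsUnit (j u) := hu.map j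
    have h2 : Irreducible (x * j u) := (irreducible_mul_isUnit h1).2 hx
    rcases h2.isUnit_or_isUnit h with h3 | h3
    · exact Or.inl (h3.map i)
    · exact Or.inr (h3.map i)
  | h₃ a π ha hπ ih =>
    intro _ y z h
    have h1 : j π ∣ y * z := ⟨x * j a, by rw [← h, map_mul]; ring⟩
    rcases (hp π hπ).dvd_or_dvd h1 with ⟨y', rfl⟩ | ⟨z', rfl⟩
    · have h2 : x * j a = y' * z := by
        apply mul_left_cancel₀ (hp π hπ).ne_zero
        rw [map_mul] at h
        linear_combination h
      rcases ih ha y' z h2 with h3 | h3
      · left
        rw [map_mul]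
        exact (hu π hπ.ne_zero).mul h3
      · exact Or.inr h3
    · have h2 : x * j a = y * z' := by
        apply mul_left_cancel₀ (hp π hπ).ne_zero
        rw [map_mul] at h
        linear_combination h
      rcases ih ha y z' h2 with h3 | h3
      · exact Or.inl h3
      · right
        rw [map_mul]
        exact (hu π hπ.ne_zero).mul h3

/-- proof (Nagata): let `x` be an irreducible element of `A`; it suffices that `x` is prime
(`A` is Noetherian). If a prime `j π` divides `x` then `x` is associated to it. Otherwise `x` is
irreducible, hence prime, in `B` (a factorisation `w x = y z`, `w` a product of primes `j π`, none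
of which divides `x`, gives a factorisation of `x` in `A` by cancelling), and `x ∣ y z` in `A`
implies `w y = x t` in `A`, say, hence `x ∣ y` by cancelling the prime factors of `w` -/
theorem nagata {O A B : Type} [CommRing O] [IsDomain O] [UniqueFactorizationMonoid O]
    [CommRing A] [IsDomain A] [IsNoetherianRing A] [CommRing B] [IsDomain B]
    [UniqueFactorizationMonoid B] (j : O →+* A) (hj : Function.Injective j) (i : A →+* B)
    (hi : Function.Injective i) (hu : ∀ w : O, w ≠ 0 → IsUnit (i (j w)))
    (hs : ∀ y : B, ∃ (z : A) (w : O), w ≠ 0 ∧ y * i (j w) = i z)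
    (hp : ∀ π : O, Prime π → Prime (j π)) : UniqueFactorizationMonoid A := by
  have key : ∀ x : A, Irreducible x → Prime x := by
    intro x hx
    by_cases hd : ∃ π : O, Prime π ∧ j π ∣ x
    · obtain ⟨π, hπ, y, hy⟩ := hd
      have h1 : IsUnit y := by
        rcases hx.isUnit_or_isUnit hy with h | h
        · exact absurd h (hp π hπ).not_isUnit
        · exact h
      have h2 : Associated (j π) x := by
        rw [hy]
        exact (associated_mul_unit_right (j π) y h1)
      exact h2.prime (hp π hπ)
    · have hd' : ∀ π : O, Prime π → ¬ j π ∣ x := fun π h1 h2 => hd ⟨π, h1, h2⟩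
      have hB : Irreducible (i x) := by
        constructor
        · intro h
          obtain ⟨y, hy⟩ := h.exists_right_inv
          obtain ⟨z, w, hw, hz⟩ := hs y
          have h1 : x * z = j w := by
            apply hi
            rw [map_mul, ← hz, ← mul_assoc, hy, one_mul]
          have h2 : x ∣ j w * 1 := ⟨z, by rw [mul_one, h1]⟩
          have h3 : x ∣ 1 := nag_cancel j hp x hd' w hw 1 h2
          exact hx.not_isUnit (isUnit_of_dvd_one h3)
        · intro y y' h
          obtain ⟨z, w, hw, hz⟩ := hs y
          obtain ⟨z', w', hw', hz'⟩ := hs y'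
          have h1 : x * j (w * w') = z * z' := by
            apply hi
            rw [map_mul, map_mul, map_mul, map_mul, ← hz, ← hz', h]
            ring
          rcases nag_factor j i hu hp x hx (w * w') (mul_ne_zero hw hw') z z' h1 with h2 | h2
          · left
            rw [← hz] at h2
            exact isUnit_of_mul_isUnit_left h2
          · right
            rw [← hz'] at h2
            exact isUnit_of_mul_isUnit_left h2
      have hB' : Prime (i x) := hB.prime
      have hdv : ∀ a : A, i x ∣ i a → x ∣ a := by
        intro a ⟨y, hy⟩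
        obtain ⟨z, w, hw, hz⟩ := hs y
        apply nag_cancel j hp x hd' w hw a
        refine ⟨z, ?_⟩
        apply hi
        rw [map_mul, map_mul, ← hz, hy]
        ring
      refine ⟨hx.ne_zero, hx.not_isUnit, ?_⟩
      intro a b hab
      have h1 : i x ∣ i a * i b := by
        rw [← map_mul]
        exact map_dvd i hab
      rcases hB'.dvd_or_dvd h1 with h | h
      · exact Or.inl (hdv a h)
      · exact Or.inr (hdv b h)
  exact { irreducible_iff_prime := fun {a} => ⟨key a, fun h => h.irreducible⟩ }

end Pool.Agent.Lib.MP_1a0ddd_nt.Cn
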