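import Pool.Agent.Lib.MP_1a0ddd_nt.Cn.Ring
import Pool.Agent.Lib.MP_1a0ddd_nt.Quad.Ext

/-! The affine conic without rational points over a field. -/

set_option autoImplicit false

namespace Pool.Agent.Lib.MP_1a0ddd_nt.Cn

open Polynomial Pool.Agent.Lib.MP_1a0ddd_nt.Quad

private theorem alg_map {k : Type} [CommRing k] (P : k) :
    algebraMap k (QR P) = em P := AdjoinRoot.algebraMap_eq _

private theorem smul_em {k : Type} [CommRing k] (P s : k) (z : QR P) : s • z = em P s * z := by
  rw [Algebra.smul_def, alg_map]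

/-- the basis `1, v` -/
private noncomputable def bas {k : Type} [CommRing k] (P : k) : Module.Basis (Fin 2) k (QR P) :=
  Module.Basis.mk (v := ![1, yy P]) (by
    rw [LinearIndependent.pair_iff]
    intro s t h
    rw [smul_em, smul_em, mul_one] at h
    exact uniq P h) (by
    rintro z -
    obtain ⟨u, v, rfl⟩ := rep P z
    rw [Matrix.range_cons, Matrix.range_cons, Matrix.range_empty, Set.union_empty]
    have h1 : em P u + em P v * yy P = u • (1 : QR P) + v • yy P := by
      rw [smul_em, smul_em, mul_one]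
    rw [h1]
    refine Submodule.add_mem _ (Submodule.smul_mem _ _ (Submodule.subset_span ?_))
      (Submodule.smul_mem _ _ (Submodule.subset_span ?_))
    · simp
    · simp)

private theorem bas_zero {k : Type} [CommRing k] (P : k) : bas P 0 = 1 := by
  simp [bas]

private theorem bas_one {k : Type} [CommRing k] (P : k) : bas P 1 = yy P := by
  simp [bas]

private theorem bas_repr {k : Type} [CommRing k] (P u v : k) :
    (bas P).repr (em P u + em P v * yy P) = Finsupp.single 0 u + Finsupp.single 1 v := by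
  have h1 : em P u + em P v * yy P = u • bas P 0 + v • bas P 1 := by
    rw [bas_zero, bas_one, smul_em, smul_em, mul_one]
  rw [h1, map_add, map_smul, map_smul, Module.Basis.repr_self, Module.Basis.repr_self,
    Finsupp.smul_single, Finsupp.smul_single, smul_eq_mul, smul_eq_mul, mul_one, mul_one]

private theorem norm_eq {k : Type} [CommRing k] (P u v : k) :
    Algebra.norm k (em P u + em P v * yy P) = u ^ 2 - P * v ^ 2 := by
  rw [Algebra.norm_eq_matrix_det (bas P), Matrix.det_fin_two]
  simp only [Algebra.leftMulMatrix_eq_repr_mul, bas_zero, bas_one, mul_one]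
  have h1 : (em P u + em P v * yy P) * yy P = em P (P * v) + em P u * yy P := by
    have h := yy_sq P
    rw [map_mul]
    linear_combination (em P v) * h
  rw [h1, bas_repr, bas_repr]
  simp
  ring

section field

variable {E : Type} [Field E]

private theorem fin_quot (f : E[X]) [IsDomain (QR f)] {I : Ideal (QR f)} (hI : I ≠ ⊥) :
    Module.Finite E (QR f ⧸ I) := by
  classical
  have h1 : ∀ i, Module.Finite E (E[X] ⧸ Ideal.span ({I.smithCoeffs (bas f) hI i} : Set E[X])) :=
    fun i => inferInstance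
  exact Module.Finite.equiv (I.quotientEquivDirectSum E (bas f) hI).symm

/-- small elements of an ideal -/
private theorem small (f : E[X]) [IsDomain (QR f)] {I : Ideal (QR f)} (hI : I ≠ ⊥) (r : ℕ)
    (hr : Module.finrank E (QR f ⧸ I) < 2 * r + 1) :
    ∃ u v : E[X], (u ≠ 0 ∨ v ≠ 0) ∧ u.natDegree ≤ r ∧ (v ≠ 0 → v.natDegree + 1 ≤ r) ∧
      em f u + em f v * yy f ∈ I := by
  classical
  have hfin := fin_quot f hI
  let L : (degreeLT E (r + 1) × degreeLT E r) →ₗ[E] (QR f ⧸ I) :=
    (Ideal.Quotient.mkₐ E I).toLinearMap ∘ₗ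
      (((Algebra.linearMap E[X] (QR f)).restrictScalars E ∘ₗ
          (degreeLT E (r + 1)).subtype ∘ₗ LinearMap.fst E _ _) +
        (LinearMap.mulRight E (yy f) ∘ₗ (Algebra.linearMap E[X] (QR f)).restrictScalars E ∘ₗ
          (degreeLT E r).subtype ∘ₗ LinearMap.snd E _ _))
  have hf1 : Module.Finite E (degreeLT E (r + 1)) :=
    Module.Finite.equiv (degreeLTEquiv E (r + 1)).symm
  have hf2 : Module.Finite E (degreeLT E r) := Module.Finite.equiv (degreeLTEquiv E r).symm
  have hdim : Module.finrank E (degreeLT E (r + 1) × degreeLT E r) = 2 * r + 1 := by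
    rw [Module.finrank_prod, (degreeLTEquiv E (r + 1)).finrank_eq, (degreeLTEquiv E r).finrank_eq,
      Module.finrank_fin_fun, Module.finrank_fin_fun]
    ring
  have h3 : LinearMap.ker L ≠ ⊥ := L.ker_ne_bot_of_finrank_lt (by rw [hdim]; exact hr)
  obtain ⟨⟨u, v⟩, hz, hne⟩ := Submodule.exists_mem_ne_zero_of_ne_bot h3
  have hz' : em f (u : E[X]) + em f (v : E[X]) * yy f ∈ I := by
    rw [LinearMap.mem_ker] at hz
    rw [← Ideal.Quotient.eq_zero_iff_mem]
    simpa [L] using hz
  refine ⟨u, v, ?_, ?_, ?_, hz'⟩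
  · by_contra hcon
    push Not at hcon
    apply hne
    exact Prod.ext (Subtype.ext hcon.1) (Subtype.ext hcon.2)
  · have := u.2
    rw [mem_degreeLT] at this
    by_cases h0 : (u : E[X]) = 0
    · rw [h0]; simp
    · rw [degree_eq_natDegree h0] at this
      have h4 : (u : E[X]).natDegree < r + 1 := by exact_mod_cast this
      omega
  · intro h0
    have := v.2
    rw [mem_degreeLT, degree_eq_natDegree h0] at this
    have h4 : (v : E[X]).natDegree < r := by exact_mod_cast this
    omega

end field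

/-- proof: let `I ≠ 0` be an ideal and `n = dim_E (A/I)` (finite). For `z = α + β v ≠ 0` the
dimension of `A/(z)` is the degree of the norm (`finrank_quotient_span_eq_natDegree_norm` or
by hand), which is `2 δ(z)`, `δ(z) = max (deg α) (deg β + 1)` (`norm_degree`). The space of the `z`
with `δ(z) ≤ r` has dimension `2 r + 1`, so for `2 r + 1 > n` it contains an element `z ≠ 0` of
`I`. For even `n` take `r = n / 2`: `dim A/(z) ≤ n = dim A/I`, so `I = (z)`. For odd `n` take
`r = (n + 1) / 2`: `dim A/(z) ≤ n + 1` is even, so `I ≠ (z)` implies that `I/(z)` has dimension one,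
so `A` acts on it by a ring homomorphism `A → E` over `E`, which is a rational point of the conic -/
theorem conic_pid {E : Type} [Field E] {a b c : E}
    (h : ∀ x y z : E, y ^ 2 = a * x ^ 2 + 2 * b * x * z + c * z ^ 2 → x = 0 ∧ z = 0) :
    IsPrincipalIdealRing (Conic a b c) := by
  have hdom : IsDomain (QR (cq a b c)) := conic_domain h
  change IsPrincipalIdealRing (QR (cq a b c))
  set f := cq a b c with hf
  constructor
  intro I
  by_cases hI : I = ⊥
  · rw [hI]
    exact bot_isPrincipal
  have hfin := fin_quot f hI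
  set n := Module.finrank E (QR f ⧸ I) with hn
  obtain ⟨u, v, hne, hu, hv, hz⟩ := small f hI ((n + 1) / 2) (by omega)
  set z : QR f := em f u + em f v * yy f with hzdef
  have hz0 : z ≠ 0 := by
    intro h0
    obtain ⟨h1, h2⟩ := uniq f h0
    rcases hne with h3 | h3
    · exact h3 h1
    · exact h3 h2
  have hspan : Ideal.span {z} ≠ ⊥ := by
    rw [Ne, Ideal.span_singleton_eq_bot]
    exact hz0
  have hfinz := fin_quot f hspan
  obtain ⟨-, hd1, hd2⟩ := norm_degree h hne
  have hfr : Module.finrank E (QR f ⧸ Ideal.span {z}) = (u ^ 2 - f * v ^ 2).natDegree := by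
    rw [finrank_quotient_span_eq_natDegree_norm (bas f) hz0, norm_eq]
  have hev : ∃ d, d ≤ (n + 1) / 2 ∧ Module.finrank E (QR f ⧸ Ideal.span {z}) = 2 * d := by
    by_cases hv0 : v = 0
    · exact ⟨u.natDegree, hu, by rw [hfr, hd2 hv0]⟩
    · exact ⟨max u.natDegree (v.natDegree + 1), max_le hu (hv hv0), by rw [hfr, hd1 hv0]⟩
  obtain ⟨d, hd, hdz⟩ := hev
  have hle : Ideal.span {z} ≤ I := (Ideal.span_singleton_le_iff_mem I).mpr hz
  -- the quotient map
  set π : (QR f ⧸ Ideal.span {z}) →ₐ[E] (QR f ⧸ I) := Ideal.Quotient.factorₐ E hle with hπ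
  have hπs : Function.Surjective π := Ideal.Quotient.factor_surjective hle
  have hrk := LinearMap.finrank_range_add_finrank_ker π.toLinearMap
  have hrange : Module.finrank E (LinearMap.range π.toLinearMap) = n := by
    rw [LinearMap.range_eq_top.mpr hπs, finrank_top]
  rw [hrange, hdz] at hrk
  have hmem : ∀ i ∈ I, Ideal.Quotient.mk (Ideal.span {z}) i ∈ LinearMap.ker π.toLinearMap := by
    intro i hi
    rw [LinearMap.mem_ker]
    change Ideal.Quotient.factor hle (Ideal.Quotient.mk _ i) = 0
    rw [Ideal.Quotient.factor_mk, Ideal.Quotient.eq_zero_iff_mem]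
    exact hi
  by_cases hk : Module.finrank E (LinearMap.ker π.toLinearMap) = 0
  · -- the ideal is generated by `z`
    refine ⟨z, le_antisymm ?_ hle⟩
    intro i hi
    have h1 := hmem i hi
    rw [Submodule.finrank_eq_zero] at hk
    rw [hk, Submodule.mem_bot, Ideal.Quotient.eq_zero_iff_mem] at h1
    exact h1
  · exfalso
    have hk1 : Module.finrank E (LinearMap.ker π.toLinearMap) = 1 := by omega
    -- a nonzero element of the kernel
    obtain ⟨⟨w, hw⟩, hw0⟩ := Module.finrank_pos_iff_exists_ne_zero.mp (by omega :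
      0 < Module.finrank E (LinearMap.ker π.toLinearMap))
    obtain ⟨i, rfl⟩ := Ideal.Quotient.mk_surjective w
    have hi : i ∈ I := by
      rw [LinearMap.mem_ker] at hw
      change Ideal.Quotient.factor hle (Ideal.Quotient.mk _ i) = 0 at hw
      rwa [Ideal.Quotient.factor_mk, Ideal.Quotient.eq_zero_iff_mem] at hw
    have hact := (finrank_eq_one_iff_of_nonzero' _ hw0).mp hk1
    have hch : ∀ t : QR f, ∃ x₀ : E, t * i - algebraMap E (QR f) x₀ * i ∈ Ideal.span {z} := by
      intro t
      obtain ⟨x₀, hx₀⟩ := hact ⟨Ideal.Quotient.mk _ (t * i), hmem _ (I.mul_mem_left t hi)⟩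
      refine ⟨x₀, ?_⟩
      have h1 := congrArg Subtype.val hx₀
      simp only [Submodule.coe_smul] at h1
      rw [← Ideal.Quotient.eq_zero_iff_mem, map_sub, ← h1, map_mul]
      rw [Algebra.smul_def]
      change algebraMap E (QR f ⧸ Ideal.span {z}) x₀ * _ -
        algebraMap E (QR f ⧸ Ideal.span {z}) x₀ * _ = 0
      rw [sub_self]
    obtain ⟨x₀, hx₀⟩ := hch (em f X)
    obtain ⟨y₀, hy₀⟩ := hch (yy f)
    set ε : E →+* QR f := algebraMap E (QR f) with hε
    have hεC : ∀ e : E, ε e = em f (C e) := by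
      intro e
      rw [hε, IsScalarTower.algebraMap_apply E E[X] (QR f), alg_map]
      rfl
    have hyy : yy f ^ 2 = ε a * em f X ^ 2 + ε (2 * b) * em f X + ε c := by
      rw [yy_sq, hεC, hεC, hεC, ← map_pow, ← map_mul, ← map_mul, ← map_add, ← map_add]
      rfl
    have h1 : ε (y₀ ^ 2 - (a * x₀ ^ 2 + 2 * b * x₀ + c)) * i ∈ Ideal.span {z} := by
      have e1 : ε (y₀ ^ 2 - (a * x₀ ^ 2 + 2 * b * x₀ + c)) * i =
          -(yy f + ε y₀) * (yy f * i - ε y₀ * i) +
          (ε a * (em f X + ε x₀) + ε (2 * b)) * (em f X * i - ε x₀ * i) := by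
        have e2 : ε (y₀ ^ 2 - (a * x₀ ^ 2 + 2 * b * x₀ + c)) =
            ε y₀ ^ 2 - (ε a * ε x₀ ^ 2 + ε (2 * b) * ε x₀ + ε c) := by
          simp only [map_sub, map_add, map_mul, map_pow]
        rw [e2]
        linear_combination i * hyy
      rw [e1]
      exact Ideal.add_mem _ (Ideal.mul_mem_left _ _ hy₀) (Ideal.mul_mem_left _ _ hx₀)
    have h2 : y₀ ^ 2 - (a * x₀ ^ 2 + 2 * b * x₀ + c) = 0 := by
      by_contra hne'
      apply hw0
      apply Subtype.ext
      change Ideal.Quotient.mk (Ideal.span {z}) i = 0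
      rw [Ideal.Quotient.eq_zero_iff_mem]
      have h3 := Ideal.mul_mem_left (Ideal.span {z})
        (ε (y₀ ^ 2 - (a * x₀ ^ 2 + 2 * b * x₀ + c))⁻¹) h1
      rwa [← mul_assoc, ← map_mul, inv_mul_cancel₀ hne', map_one, one_mul] at h3
    have h3 := (h x₀ y₀ 1 (by linear_combination h2)).2
    exact one_ne_zero h3

end Pool.Agent.Lib.MP_1a0ddd_nt.Cn
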