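import Pool.Agent.Lib.MP_1a0ddd_nt.Cn.Ring

/-! Irreducible fibres of conic bundles. -/

set_option autoImplicit false

namespace Pool.Agent.Lib.MP_1a0ddd_nt.Cn

open Polynomial Pool.Agent.Lib.MP_1a0ddd_nt.V Pool.Agent.Lib.MP_1a0ddd_nt.Fb

private theorem prm_coeff {F : Type} [CommRing F] (p q r : F) :
    (C p * X ^ 2 + C q * X + C r).coeff 2 = p ∧ (C p * X ^ 2 + C q * X + C r).coeff 1 = q ∧
      (C p * X ^ 2 + C q * X + C r).coeff 0 = r := by
  refine ⟨?_, ?_, ?_⟩ <;> simp [coeff_X, coeff_C, coeff_X_pow]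

/-- a quadratic polynomial over a field which is a square up to squares -/
private theorem prm_field {F : Type} [Field F] (h2 : (2 : F) ≠ 0) {a b c : F} {A B : F[X]}
    (h : A ^ 2 = cq a b c * B ^ 2) (hB : B ≠ 0) : ∃ l l' : F, a = l ^ 2 ∧ b = l * l' ∧
      c = l' ^ 2 := by
  have h1 : B ^ 2 ∣ A ^ 2 := ⟨cq a b c, by rw [h, mul_comm]⟩
  have h3 : B ∣ A := (IsIntegrallyClosed.pow_dvd_pow_iff two_ne_zero).1 h1
  obtain ⟨g, hg⟩ := h3
  have h4 : g ^ 2 = cq a b c := by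
    have h5 : B ^ 2 * g ^ 2 = B ^ 2 * cq a b c := by
      rw [← mul_pow, ← hg, h, mul_comm]
    exact mul_left_cancel₀ (pow_ne_zero 2 hB) h5
  have h5 : g.natDegree ≤ 1 := by
    have h6 : (cq a b c).natDegree ≤ 2 := by
      unfold cq
      compute_degree
    rw [← h4, natDegree_pow] at h6
    omega
  obtain ⟨l, l', rfl⟩ := exists_eq_X_add_C_of_natDegree_le_one h5
  have e : (C l * X + C l') ^ 2 = C (l ^ 2) * X ^ 2 + C (2 * (l * l')) * X + C (l' ^ 2) := by
    simp only [C_mul, C_pow, map_ofNat]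
    ring
  rw [e] at h4
  unfold cq at h4
  obtain ⟨k1, k2, k3⟩ := prm_coeff (l ^ 2) (2 * (l * l')) (l' ^ 2)
  obtain ⟨k4, k5, k6⟩ := prm_coeff a (2 * b) c
  rw [h4] at k1 k2 k3
  exact ⟨l, l', k4.symm.trans k1, mul_left_cancel₀ h2 (k5.symm.trans k2), k6.symm.trans k3⟩

/-- the reduction modulo a prime element -/
private theorem prm_red {O : Type} [CommRing O] [IsDomain O] {π : O} (hπ : Prime π) :
    ∃ (F : Type) (_ : Field F) (ψ : O →+* F), (∀ x, ψ x = 0 ↔ π ∣ x) ∧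
      ∀ z : F, ∃ x y : O, ψ x ≠ 0 ∧ z = ψ y / ψ x := by
  have hp : (Ideal.span {π}).IsPrime := (Ideal.span_singleton_prime hπ.ne_zero).2 hπ
  have : IsDomain (O ⧸ Ideal.span {π}) := Ideal.Quotient.isDomain _
  let F := FractionRing (O ⧸ Ideal.span {π})
  let ψ : O →+* F := (algebraMap (O ⧸ Ideal.span {π}) F).comp (Ideal.Quotient.mk _)
  have h0 : ∀ x, ψ x = 0 ↔ π ∣ x := by
    intro x
    show algebraMap (O ⧸ Ideal.span {π}) F (Ideal.Quotient.mk _ x) = 0 ↔ _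
    rw [FaithfulSMul.algebraMap_eq_zero_iff, Ideal.Quotient.eq_zero_iff_mem,
      Ideal.mem_span_singleton]
  refine ⟨F, inferInstance, ψ, h0, fun z => ?_⟩
  obtain ⟨y, x, hx, hz⟩ := IsFractionRing.div_surjective (A := O ⧸ Ideal.span {π}) z
  obtain ⟨y, rfl⟩ := Ideal.Quotient.mk_surjective y
  obtain ⟨x, rfl⟩ := Ideal.Quotient.mk_surjective x
  refine ⟨x, y, ?_, hz.symm⟩
  show algebraMap (O ⧸ Ideal.span {π}) F (Ideal.Quotient.mk _ x) ≠ 0
  rw [Ne, FaithfulSMul.algebraMap_eq_zero_iff]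
  exact nonZeroDivisors.ne_zero hx

set_option linter.unusedSectionVars false

variable {O : Type} [CommRing O] [IsDomain O] [UniqueFactorizationMonoid O]
  {a b c : O}

/-- proof: let `F` be the fraction field of `O/π`. If `α² = f β²` modulo `π` and `β ≠ 0` modulo `π`,
then `f` modulo `π` is a square in `F(X)`, hence `f = (l X + l')²` with `l, l'` in `F`: so
`a = l²`, `c = l'²` and `b = l l'` in `F` (`2` is invertible). So `b² - a c = 0` modulo `π` and both
`a` and `c` are squares in `F`, which contradicts `h` (clear denominators) -/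
theorem prime_norm (h2 : IsUnit (2 : O)) {π : O} (hπ : Prime π)
    (h : π ∣ b ^ 2 - a * c → ∃ u : O, (u = a ∨ u = c) ∧ ∀ x y : O, π ∣ y ^ 2 - u * x ^ 2 → π ∣ x)
    {α β : O[X]} (hd : C π ∣ α ^ 2 - cq a b c * β ^ 2) : C π ∣ α ∧ C π ∣ β := by
  obtain ⟨F, _, ψ, hψ, hfr⟩ := prm_red hπ
  have hdvd : ∀ P : O[X], C π ∣ P ↔ P.map ψ = 0 := by
    intro P
    rw [C_dvd_iff_dvd_coeff, Polynomial.ext_iff]
    refine forall_congr' fun i => ?_
    rw [coeff_map, coeff_zero, hψ]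
  have h2F : (2 : F) ≠ 0 := by
    have := (h2.map ψ).ne_zero
    rwa [map_ofNat] at this
  rw [hdvd, hdvd]
  rw [hdvd, Polynomial.map_sub, Polynomial.map_mul, Polynomial.map_pow, Polynomial.map_pow] at hd
  have hf : (cq a b c).map ψ = cq (ψ a) (ψ b) (ψ c) := by
    unfold cq
    rw [Polynomial.map_add, Polynomial.map_add, Polynomial.map_mul, Polynomial.map_mul,
      Polynomial.map_pow, map_X, map_C, map_C, map_C, map_mul, map_ofNat]
  rw [hf, sub_eq_zero] at hd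
  by_cases hB : β.map ψ = 0
  · refine ⟨?_, hB⟩
    rw [hB, zero_pow two_ne_zero, mul_zero] at hd
    exact pow_eq_zero_iff two_ne_zero |>.1 hd
  · exfalso
    obtain ⟨l, l', ha, hb, hc⟩ := prm_field h2F hd hB
    have h3 : π ∣ b ^ 2 - a * c := by
      rw [← hψ, map_sub, map_pow, map_mul, ha, hb, hc]
      ring
    obtain ⟨u, hu, huu⟩ := h h3
    have h4 : ∃ z : F, ψ u = z ^ 2 := by
      rcases hu with rfl | rfl
      · exact ⟨l, ha⟩
      · exact ⟨l', hc⟩
    obtain ⟨z, hz⟩ := h4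
    obtain ⟨x, y, hx, hxy⟩ := hfr z
    apply hx
    rw [hψ]
    refine huu x y ?_
    rw [← hψ, map_sub, map_mul, map_pow, map_pow, hz, hxy]
    field_simp
    ring

/-- divisibility by a constant -/
private theorem prm_dvd {π : O} {α β : O[X]} (h : toConic a b c π ∣ elc a b c α β) :
    C π ∣ α ∧ C π ∣ β := by
  obtain ⟨z, hz⟩ := h
  obtain ⟨α', β', rfl⟩ := elc_surj z
  rw [elc_C, elc_mul] at hz
  obtain ⟨h1, h2⟩ := elc_inj hz
  rw [mul_zero, zero_mul, add_zero] at h1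
  rw [zero_mul, add_zero] at h2
  exact ⟨⟨α', h1⟩, ⟨β', h2⟩⟩

private theorem prm_dvd' {π : O} {α β : O[X]} (h1 : C π ∣ α) (h2 : C π ∣ β) :
    toConic a b c π ∣ elc a b c α β := by
  obtain ⟨α', rfl⟩ := h1
  obtain ⟨β', rfl⟩ := h2
  refine ⟨elc a b c α' β', ?_⟩
  rw [elc_C, elc_mul, mul_zero, zero_mul, zero_mul, add_zero, add_zero]

/-- proof: by `prime_norm` and the multiplicativity of the norm; `C π` is prime in `O[X]` -/
theorem conic_prime (h2 : IsUnit (2 : O)) {π : O} (hπ : Prime π)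
    (h : π ∣ b ^ 2 - a * c → ∃ u : O, (u = a ∨ u = c) ∧ ∀ x y : O, π ∣ y ^ 2 - u * x ^ 2 → π ∣ x) :
    Prime (toConic a b c π) := by
  have hCπ : Prime (C π : O[X]) := prime_C_iff.2 hπ
  refine ⟨fun h0 => ?_, fun hu => ?_, fun z z' hz => ?_⟩
  · have h3 : elc a b c (C π) 0 = elc a b c (C 0) 0 := by
      rw [← elc_C, ← elc_C, h0, map_zero]
    have h4 := (elc_inj h3).1
    exact hπ.ne_zero (C_injective h4)
  · have h3 : toConic a b c π ∣ elc a b c 1 0 := by
      obtain ⟨w, hw⟩ := hu.exists_right_inv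
      exact Dvd.intro (w * elc a b c 1 0) (by rw [← mul_assoc, hw, one_mul])
    obtain ⟨h4, -⟩ := prm_dvd h3
    exact hCπ.not_isUnit (isUnit_of_dvd_one h4)
  · obtain ⟨α, β, rfl⟩ := elc_surj z
    obtain ⟨α', β', rfl⟩ := elc_surj z'
    rw [elc_mul] at hz
    obtain ⟨h3, h4⟩ := prm_dvd hz
    have h5 : C π ∣ (α ^ 2 - cq a b c * β ^ 2) * (α' ^ 2 - cq a b c * β' ^ 2) := by
      have e : (α ^ 2 - cq a b c * β ^ 2) * (α' ^ 2 - cq a b c * β' ^ 2) =
          (α * α' + cq a b c * β * β') * (α * α' + cq a b c * β * β') -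
            (α * β' + β * α') * (cq a b c * (α * β' + β * α')) := by ring
      rw [e]
      exact dvd_sub (h3.mul_right _) (h4.mul_right _)
    rcases hCπ.dvd_or_dvd h5 with h6 | h6
    · obtain ⟨h7, h8⟩ := prime_norm h2 hπ h h6
      exact Or.inl (prm_dvd' h7 h8)
    · obtain ⟨h7, h8⟩ := prime_norm h2 hπ h h6
      exact Or.inr (prm_dvd' h7 h8)

end Pool.Agent.Lib.MP_1a0ddd_nt.Cn
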