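import Pool.Agent.Lib.MP_1a0ddd_nt.Cn.Km

/-! The ring of a conic bundle. -/

set_option autoImplicit false

namespace Pool.Agent.Lib.MP_1a0ddd_nt.Cn

open Polynomial Pool.Agent.Lib.MP_1a0ddd_nt.V Pool.Agent.Lib.MP_1a0ddd_nt.Fb

/-- `a u² + 2 b u + c` -/
noncomputable def cq {S : Type} [CommRing S] (a b c : S) : S[X] :=
  C a * X ^ 2 + C (2 * b) * X + C c

/-- `(α, β) ↦ α + β v` -/
noncomputable def elc {S : Type} [CommRing S] (a b c : S) (α β : S[X]) : Conic a b c :=
  AdjoinRoot.of _ α + AdjoinRoot.of _ β * AdjoinRoot.root _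

variable {S : Type} [CommRing S] {a b c : S}

private theorem elc_mk (α β : S[X]) :
    elc a b c α β = AdjoinRoot.mk (X ^ 2 - C (cq a b c) : S[X][X]) (C α + C β * X) := by
  rw [map_add, map_mul, AdjoinRoot.mk_X, AdjoinRoot.mk_C, AdjoinRoot.mk_C]
  rfl

private theorem elc_monic : (X ^ 2 - C (cq a b c) : S[X][X]).Monic :=
  monic_X_pow_sub_C _ two_ne_zero

theorem elc_surj [Nontrivial S] (z : Conic a b c) : ∃ α β : S[X], z = elc a b c α β := by
  have hm : (X ^ 2 - C (cq a b c) : S[X][X]).Monic := elc_monic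
  have hd : (X ^ 2 - C (cq a b c) : S[X][X]).natDegree = 2 := natDegree_X_pow_sub_C
  obtain ⟨P, hP⟩ : ∃ P : S[X][X], AdjoinRoot.mk (X ^ 2 - C (cq a b c) : S[X][X]) P = z :=
    AdjoinRoot.mk_surjective (g := (X ^ 2 - C (cq a b c) : S[X][X])) z
  refine ⟨(P %ₘ (X ^ 2 - C (cq a b c))).coeff 0, (P %ₘ (X ^ 2 - C (cq a b c))).coeff 1, ?_⟩
  rw [elc_mk]
  have h1 : (P %ₘ (X ^ 2 - C (cq a b c))).natDegree ≤ 1 := by
    have := natDegree_modByMonic_lt P hm (fun h1 => by
      rw [h1, natDegree_one] at hd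
      omega)
    omega
  have h2 : C ((P %ₘ (X ^ 2 - C (cq a b c))).coeff 0) +
      C ((P %ₘ (X ^ 2 - C (cq a b c))).coeff 1) * X = P %ₘ (X ^ 2 - C (cq a b c)) := by
    rw [add_comm]
    exact (eq_X_add_C_of_natDegree_le_one h1).symm
  rw [h2, ← hP]
  exact AdjoinRoot.mk_eq_mk.2 ⟨P /ₘ (X ^ 2 - C (cq a b c)), by
    have := modByMonic_add_div P (X ^ 2 - C (cq a b c) : S[X][X])
    linear_combination -this⟩

private theorem elc_zero [Nontrivial S] {α β : S[X]}
    (e : AdjoinRoot.mk (X ^ 2 - C (cq a b c) : S[X][X]) (C α + C β * X) = 0) :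
    α = 0 ∧ β = 0 := by
  have hm : (X ^ 2 - C (cq a b c) : S[X][X]).Monic := elc_monic
  have hd : (X ^ 2 - C (cq a b c) : S[X][X]).natDegree = 2 := natDegree_X_pow_sub_C
  rw [AdjoinRoot.mk_eq_zero] at e
  have h1 : (C α + C β * X : S[X][X]).natDegree < (X ^ 2 - C (cq a b c) : S[X][X]).natDegree := by
    rw [hd, add_comm]
    exact lt_of_le_of_lt natDegree_linear_le one_lt_two
  have h2 : (C α + C β * X : S[X][X]) = 0 := by
    by_contra hne
    exact hm.not_dvd_of_natDegree_lt hne h1 e
  constructor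
  · have := congrArg (fun q => q.coeff 0) h2
    simpa using this
  · have := congrArg (fun q => q.coeff 1) h2
    simpa using this

theorem elc_inj [Nontrivial S] {α β α' β' : S[X]} (h : elc a b c α β = elc a b c α' β') :
    α = α' ∧ β = β' := by
  rw [elc_mk, elc_mk] at h
  have h1 : AdjoinRoot.mk (X ^ 2 - C (cq a b c) : S[X][X]) (C (α - α') + C (β - β') * X) = 0 := by
    have e : (C (α - α') + C (β - β') * X : S[X][X]) =
        (C α + C β * X) - (C α' + C β' * X) := by
      rw [C_sub, C_sub]; ring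
    rw [e, map_sub]
    exact sub_eq_zero.2 h
  obtain ⟨h2, h3⟩ := elc_zero h1
  exact ⟨sub_eq_zero.1 h2, sub_eq_zero.1 h3⟩

theorem elc_add (α β α' β' : S[X]) :
    elc a b c α β + elc a b c α' β' = elc a b c (α + α') (β + β') := by
  rw [elc_mk, elc_mk, elc_mk]
  have e : (C (α + α') + C (β + β') * X : S[X][X]) =
      (C α + C β * X) + (C α' + C β' * X) := by
    rw [C_add, C_add]; ring
  rw [e, map_add]
  rfl

theorem elc_mul (α β α' β' : S[X]) : elc a b c α β * elc a b c α' β' =
    elc a b c (α * α' + cq a b c * β * β') (α * β' + β * α') := by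
  rw [elc_mk, elc_mk, elc_mk]
  have e : AdjoinRoot.mk (X ^ 2 - C (cq a b c) : S[X][X])
      (C (α * α' + cq a b c * β * β') + C (α * β' + β * α') * X) =
      AdjoinRoot.mk (X ^ 2 - C (cq a b c) : S[X][X]) ((C α + C β * X) * (C α' + C β' * X)) := by
    rw [AdjoinRoot.mk_eq_mk]
    refine ⟨-(C β * C β'), ?_⟩
    simp only [C_add, C_mul]
    ring
  rw [e, map_mul]
  rfl

private theorem adj_C (q : S[X][X]) (s : S[X]) : AdjoinRoot.of q s =
    AdjoinRoot.of q s + AdjoinRoot.of q 0 * AdjoinRoot.root q := by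
  rw [map_zero, zero_mul, add_zero]

theorem elc_C (s : S) : toConic a b c s = elc a b c (C s) 0 := by
  exact adj_C _ (C s)

private theorem cq_map {S' : Type} [CommRing S'] (j : S →+* S') :
    (cq a b c).map j = cq (j a) (j b) (j c) := by
  have h2 : j (2 * b) = 2 * j b := by rw [map_mul, map_ofNat]
  rw [cq, cq, Polynomial.map_add, Polynomial.map_add, Polynomial.map_mul, Polynomial.map_mul,
    Polynomial.map_pow, map_X, map_C, map_C, map_C, h2]

/-- change of the base -/
theorem conic_map {S' : Type} [CommRing S'] (j : S →+* S') :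
    ∃ J : Conic a b c →+* Conic (j a) (j b) (j c), ∀ α β : S[X],
      J (elc a b c α β) = elc (j a) (j b) (j c) (α.map j) (β.map j) := by
  let q' : S'[X][X] := X ^ 2 - C (cq (j a) (j b) (j c))
  have h0 : (AdjoinRoot.root q') ^ 2 - AdjoinRoot.of q' (cq (j a) (j b) (j c)) = 0 := by
    have h1 := AdjoinRoot.eval₂_root q'
    simp only [q'] at h1 ⊢
    rw [eval₂_sub, eval₂_pow, eval₂_X, eval₂_C] at h1
    exact h1
  let J : AdjoinRoot (X ^ 2 - C (cq a b c) : S[X][X]) →+* AdjoinRoot q' :=
    AdjoinRoot.lift ((AdjoinRoot.of q').comp (mapRingHom j)) (AdjoinRoot.root q') (by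
      rw [eval₂_sub, eval₂_pow, eval₂_X, eval₂_C, RingHom.comp_apply, coe_mapRingHom, cq_map]
      exact h0)
  refine ⟨J, fun α β => ?_⟩
  have h2 : J (AdjoinRoot.mk (X ^ 2 - C (cq a b c) : S[X][X]) (C α + C β * X)) =
      AdjoinRoot.of q' (α.map j) + AdjoinRoot.of q' (β.map j) * AdjoinRoot.root q' := by
    simp only [J]
    rw [AdjoinRoot.lift_mk, eval₂_add, eval₂_mul, eval₂_C, eval₂_C, eval₂_X]
    rfl
  rw [elc_mk]
  exact h2

/-- the norm `α² - f β²` does not vanish. Proof: compare the leading coefficients: `a x² = y²` has no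
solution with `x ≠ 0` (`z = 0`); degrees: if `deg α < deg β + 1` or `deg α > deg β + 1` clear,
unless `a = 0`, which is excluded by `x = 1, y = z = 0` -/
theorem norm_degree [IsDomain S]
    (h : ∀ x y z : S, y ^ 2 = a * x ^ 2 + 2 * b * x * z + c * z ^ 2 → x = 0 ∧ z = 0) {α β : S[X]}
    (h0 : α ≠ 0 ∨ β ≠ 0) : α ^ 2 - cq a b c * β ^ 2 ≠ 0 ∧
      (β ≠ 0 → (α ^ 2 - cq a b c * β ^ 2).natDegree =
        2 * max α.natDegree (β.natDegree + 1)) ∧
      (β = 0 → (α ^ 2 - cq a b c * β ^ 2).natDegree = 2 * α.natDegree) := by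
  have ha : a ≠ 0 := by
    intro ha
    have := h 1 0 0 (by rw [ha]; ring)
    exact one_ne_zero this.1
  have hq : (cq a b c).natDegree = 2 := by
    rw [cq]
    exact natDegree_quadratic ha
  have hq0 : cq a b c ≠ 0 := by
    intro h1
    rw [h1, natDegree_zero] at hq
    omega
  have hlc : (cq a b c).leadingCoeff = a := by
    rw [cq]
    exact leadingCoeff_quadratic ha
  have key : β ≠ 0 → (α ^ 2 - cq a b c * β ^ 2).natDegree =
      2 * max α.natDegree (β.natDegree + 1) := by
    intro hβ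
    have d1 : (cq a b c * β ^ 2).natDegree = 2 * (β.natDegree + 1) := by
      rw [natDegree_mul hq0 (pow_ne_zero 2 hβ), natDegree_pow, hq]
      ring
    have d2 : (α ^ 2).natDegree = 2 * α.natDegree := natDegree_pow α 2
    rcases lt_trichotomy α.natDegree (β.natDegree + 1) with h1 | h1 | h1
    · rw [natDegree_sub_eq_right_of_natDegree_lt (by omega), d1, max_eq_right h1.le]
    · have e1 : (α ^ 2 - cq a b c * β ^ 2).natDegree ≤ 2 * α.natDegree := by
        refine (natDegree_sub_le _ _).trans ?_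
        rw [d1, d2, h1, max_self]
      have e2 : (α ^ 2 - cq a b c * β ^ 2).coeff (2 * α.natDegree) ≠ 0 := by
        rw [coeff_sub]
        have e3 : (α ^ 2).coeff (2 * α.natDegree) = α.leadingCoeff ^ 2 := by
          rw [← d2, coeff_natDegree, leadingCoeff_pow]
        have e4 : (cq a b c * β ^ 2).coeff (2 * α.natDegree) = a * β.leadingCoeff ^ 2 := by
          rw [h1, ← d1, coeff_natDegree, leadingCoeff_mul, leadingCoeff_pow, hlc]
        rw [e3, e4]
        intro e5
        have e6 := h β.leadingCoeff α.leadingCoeff 0 (by linear_combination e5)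
        exact hβ (leadingCoeff_eq_zero.1 e6.1)
      rw [← h1, max_self]
      exact le_antisymm e1 (le_natDegree_of_ne_zero e2)
    · rw [natDegree_sub_eq_left_of_natDegree_lt (by omega), d2, max_eq_left h1.le]
  refine ⟨?_, key, ?_⟩
  · by_cases hβ : β = 0
    · rcases h0 with h1 | h1
      · rw [hβ]
        simpa using h1
      · exact absurd hβ h1
    · intro h1
      have h2 := key hβ
      rw [h1, natDegree_zero] at h2
      have h3 : β.natDegree + 1 ≤ max α.natDegree (β.natDegree + 1) := le_max_right _ _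
      omega
  · intro hβ
    rw [hβ]
    simp [natDegree_pow]

/-- proof: `z z' = 0` implies `N(z) N(z') = 0`, `N(α + β v) = α² - f β²` -/
theorem conic_domain [IsDomain S]
    (h : ∀ x y z : S, y ^ 2 = a * x ^ 2 + 2 * b * x * z + c * z ^ 2 → x = 0 ∧ z = 0) :
    IsDomain (Conic a b c) := by
  have hz : (0 : Conic a b c) = elc a b c 0 0 := by
    have h1 := elc_C (a := a) (b := b) (c := c) 0
    rwa [map_zero, C_0] at h1
  have hone : (1 : Conic a b c) = elc a b c 1 0 := by
    have h1 := elc_C (a := a) (b := b) (c := c) 1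
    rwa [map_one, C_1] at h1
  have hnt : Nontrivial (Conic a b c) := by
    refine ⟨0, 1, fun e => ?_⟩
    rw [hz, hone] at e
    exact zero_ne_one (elc_inj e).1
  have : NoZeroDivisors (Conic a b c) := by
    refine ⟨fun {z z'} hzz => ?_⟩
    obtain ⟨α, β, rfl⟩ := elc_surj z
    obtain ⟨α', β', rfl⟩ := elc_surj z'
    rw [elc_mul, hz] at hzz
    obtain ⟨h1, h2⟩ := elc_inj hzz
    have h3 : (α ^ 2 - cq a b c * β ^ 2) * (α' ^ 2 - cq a b c * β' ^ 2) = 0 := by
      linear_combination (α * α' + cq a b c * β * β') * h1 -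
        cq a b c * (α * β' + β * α') * h2
    rcases mul_eq_zero.1 h3 with h4 | h4
    · left
      by_contra h5
      refine (norm_degree h (α := α) (β := β) ?_).1 h4
      by_contra h6
      push Not at h6
      exact h5 (by rw [h6.1, h6.2, ← hz])
    · right
      by_contra h5
      refine (norm_degree h (α := α') (β := β') ?_).1 h4
      by_contra h6
      push Not at h6
      exact h5 (by rw [h6.1, h6.2, ← hz])
  exact NoZeroDivisors.to_isDomain _

private theorem rk_unit {R O : Type} [CommRing R] [IsDomain R] [Algebra R S]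
    [CommRing O] {j : S →+* O} {κ : FractionRing R →+* O} (hj : KModel R j κ) {r : R}
    (hr : r ≠ 0) : IsUnit (j (algebraMap R S r)) := by
  rw [← hj.comp]
  have h1 : algebraMap R (FractionRing R) r ≠ 0 := by
    rw [Ne, IsFractionRing.to_map_eq_zero_iff]
    exact hr
  exact (IsUnit.mk0 _ h1).map κ

/-- the anisotropy over the model. Proof: clear denominators -/
theorem aniso_model {R O : Type} [CommRing R] [IsDomain R] [IsDomain S] [Algebra R S]
    [CommRing O] {j : S →+* O} {κ : FractionRing R →+* O} (hj : KModel R j κ)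
    (h : ∀ x y z : S, y ^ 2 = a * x ^ 2 + 2 * b * x * z + c * z ^ 2 → x = 0 ∧ z = 0) :
    ∀ x y z : O, y ^ 2 = j a * x ^ 2 + 2 * j b * x * z + j c * z ^ 2 → x = 0 ∧ z = 0 := by
  intro x y z hxyz
  obtain ⟨s1, r1, hr1, e1⟩ := hj.surj x
  obtain ⟨s2, r2, hr2, e2⟩ := hj.surj y
  obtain ⟨s3, r3, hr3, e3⟩ := hj.surj z
  have h1 := h (s1 * (algebraMap R S r2 * algebraMap R S r3))
    (s2 * (algebraMap R S r1 * algebraMap R S r3))
    (s3 * (algebraMap R S r1 * algebraMap R S r2)) (by
      apply hj.inj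
      simp only [map_mul, map_add, map_pow, map_ofNat]
      rw [← e1, ← e2, ← e3]
      linear_combination (j (algebraMap R S r1)) ^ 2 * (j (algebraMap R S r2)) ^ 2 *
        (j (algebraMap R S r3)) ^ 2 * hxyz)
  have hu1 := rk_unit hj hr1
  have hu2 := rk_unit hj hr2
  have hu3 := rk_unit hj hr3
  have hu := (hu1.mul hu2).mul hu3
  constructor
  · have h2 : x * (j (algebraMap R S r1) * j (algebraMap R S r2) * j (algebraMap R S r3)) = 0 := by
      have h3 : j (s1 * (algebraMap R S r2 * algebraMap R S r3)) = 0 := by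
        rw [h1.1, map_zero]
      rw [map_mul, map_mul, ← e1] at h3
      linear_combination h3
    exact hu.mul_left_eq_zero.1 h2
  · have h2 : z * (j (algebraMap R S r1) * j (algebraMap R S r2) * j (algebraMap R S r3)) = 0 := by
      have h3 : j (s3 * (algebraMap R S r1 * algebraMap R S r2)) = 0 := by
        rw [h1.2, map_zero]
      rw [map_mul, map_mul, ← e3] at h3
      linear_combination h3
    exact hu.mul_left_eq_zero.1 h2

private theorem poly_denom {R O : Type} [CommRing R] [IsDomain R] [Algebra R S]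
    [CommRing O] {j : S →+* O} {κ : FractionRing R →+* O} (hj : KModel R j κ) (α : O[X]) :
    ∃ (α' : S[X]) (r : R), r ≠ 0 ∧ α * C (j (algebraMap R S r)) = α'.map j := by
  induction α using Polynomial.induction_on' with
  | add p q hp hq =>
    obtain ⟨p', r, hr, e⟩ := hp
    obtain ⟨q', r', hr', e'⟩ := hq
    refine ⟨p' * C (algebraMap R S r') + q' * C (algebraMap R S r), r * r',
      mul_ne_zero hr hr', ?_⟩
    rw [Polynomial.map_add, Polynomial.map_mul, Polynomial.map_mul, ← e, ← e', map_C, map_C,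
      map_mul, map_mul, C_mul]
    ring
  | monomial n o =>
    obtain ⟨s, r, hr, e⟩ := hj.surj o
    refine ⟨monomial n s, r, hr, ?_⟩
    rw [map_monomial, ← e, monomial_mul_C]

/-- the model of a conic bundle. Proof: `J` of `conic_map`; common denominators of the coefficients
of `α`, `β` -/
theorem conic_model {R O : Type} [CommRing R] [IsDomain R] [IsDomain S] [Algebra R S]
    [CommRing O] {j : S →+* O} {κ : FractionRing R →+* O} (hj : KModel R j κ) :
    ∃ J : Conic a b c →+* Conic (j a) (j b) (j c),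
      KModel R J ((toConic (j a) (j b) (j c)).comp κ) := by
  have hnt : Nontrivial O := hj.inj.nontrivial
  obtain ⟨J, hJ⟩ := conic_map (a := a) (b := b) (c := c) j
  have hJC : ∀ s : S, J (toConic a b c s) = toConic (j a) (j b) (j c) (j s) := by
    intro s
    rw [elc_C, hJ, elc_C, map_C, Polynomial.map_zero]
  have hpi : Function.Injective (Polynomial.map j) := Polynomial.map_injective j hj.inj
  refine ⟨J, ?_, ?_, ?_⟩
  · intro z z' hzz
    obtain ⟨α, β, rfl⟩ := elc_surj z
    obtain ⟨α', β', rfl⟩ := elc_surj z'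
    rw [hJ, hJ] at hzz
    obtain ⟨h1, h2⟩ := elc_inj hzz
    rw [hpi h1, hpi h2]
  · intro r
    have h1 : algebraMap R (Conic a b c) r = toConic a b c (algebraMap R S r) := rfl
    rw [h1, hJC, RingHom.comp_apply, hj.comp]
  · intro o
    obtain ⟨α, β, rfl⟩ := elc_surj o
    obtain ⟨α', r, hr, e⟩ := poly_denom hj α
    obtain ⟨β', r', hr', e'⟩ := poly_denom hj β
    refine ⟨elc a b c (α' * C (algebraMap R S r')) (β' * C (algebraMap R S r)), r * r',
      mul_ne_zero hr hr', ?_⟩
    have h1 : algebraMap R (Conic a b c) (r * r') =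
        toConic a b c (algebraMap R S (r * r')) := rfl
    rw [h1, hJC, hJ, elc_C, elc_mul]
    congr 1
    · rw [Polynomial.map_mul, map_C, ← e, map_mul, map_mul, C_mul]
      ring
    · rw [Polynomial.map_mul, map_C, ← e', map_mul, map_mul, C_mul]
      ring

end Pool.Agent.Lib.MP_1a0ddd_nt.Cn
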