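import Pool.Agent.Lib.MP_1a0ddd_nt.Cn.Km
import Pool.Agent.Lib.MP_1a0ddd_nt.Fb.RkU

/-! The rank of the units of the generic fibre, second form. -/

set_option autoImplicit false

namespace Pool.Agent.Lib.MP_1a0ddd_nt.Cn

open Pool.Agent.Lib.MP_1a0ddd_nt.V Pool.Agent.Lib.MP_1a0ddd_nt.Fb

/-- the products of the powers of the members of a family -/
private def ex {M : Type} [CommGroup M] {a : ℕ} (g : Fin a → M) : (Fin a → ℤ) →+ Additive M where
  toFun n := Additive.ofMul (∏ j, g j ^ n j)
  map_zero' := by simp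
  map_add' x y := by
    rw [← ofMul_mul, ← Finset.prod_mul_distrib]
    simp only [Pi.add_apply, zpow_add]

/-- the vector `∑ l_i w_i` -/
private def wl {s m : ℕ} (w : Fin s → Fin m → ℤ) : (Fin s → ℤ) →ₗ[ℤ] (Fin m → ℤ) :=
  Fintype.linearCombination ℤ w

private theorem wl_apply {s m : ℕ} (w : Fin s → Fin m → ℤ) (l : Fin s → ℤ) (j : Fin m) :
    wl w l j = ∑ i, l i * w i j := by
  simp [wl, Fintype.linearCombination_apply]

private theorem prod_wl {M : Type} [CommGroup M] {s m : ℕ} (γ : Fin m → M)
    (w : Fin s → Fin m → ℤ) (l : Fin s → ℤ) :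
    ∏ j, γ j ^ (wl w l j) = ∏ i, (∏ j, γ j ^ w i j) ^ l i := by
  simp only [wl_apply]
  have h : ∀ j, γ j ^ (∑ i, l i * w i j) = ∏ i, (γ j ^ w i j) ^ l i := by
    intro j
    have h1 : ∀ A : Finset (Fin s), γ j ^ (∑ i ∈ A, l i * w i j) = ∏ i ∈ A, (γ j ^ w i j) ^ l i := by
      intro A
      induction A using Finset.induction_on with
      | empty => simp
      | insert i A hi ih =>
        rw [Finset.sum_insert hi, Finset.prod_insert hi, zpow_add, ih, ← zpow_mul, mul_comm (l i)]
    exact h1 Finset.univ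
  simp only [h]
  rw [Finset.prod_comm]
  refine Finset.prod_congr rfl fun i _ => ?_
  rw [Finset.prod_zpow]

/-- the class of a unit of `S` -/
private noncomputable def cls {T S : Type} [CommRing T] [IsDomain T] [CommRing S]
    (φ : T →+* S) : Additive Sˣ →+ UnitsMod (cst φ) :=
  (MonoidHom.toAdditive (QuotientGroup.mk'
    (Units.map (cst φ : FractionRing T →* Gen φ)).range)).comp
    (MonoidHom.toAdditive (Units.map (toGen φ : S →* Gen φ)))

private theorem cls_eq_zero {T S : Type} [CommRing T] [IsDomain T] [CommRing S]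
    (φ : T →+* S) (v : Sˣ) :
    cls φ (Additive.ofMul v) = 0 ↔ ∃ c : (FractionRing T)ˣ, toGen φ v = cst φ c := by
  have h1 : cls φ (Additive.ofMul v) = 0 ↔
      Units.map (toGen φ : S →* Gen φ) v ∈
        (Units.map (cst φ : FractionRing T →* Gen φ)).range :=
    QuotientGroup.eq_one_iff (Units.map (toGen φ : S →* Gen φ) v)
  rw [h1, MonoidHom.mem_range]
  refine exists_congr fun c => ?_
  rw [Units.ext_iff]
  exact eq_comm

/-- proof: as for `rank_units` in `Fb/RkU.lean`. The kernel of the surjective map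
`θ : ℤ^m → (Gen φ)^* / (Frac T)^*` is the range of `W : ℤ^s → ℤ^m`, `φ (δ_i) = c_i ∏ γ_j^(w_ij)`; for
`B = 1` the elements `a`, `a'` of `gen_const` are units -/
theorem rank_units_rel {k T S : Type} [Field k] [CommRing T] [IsDomain T]
    [UniqueFactorizationMonoid T] [CommRing S] [IsDomain S] {φ : T →+* S} (h : IrrOver φ 1)
    (ι : k →+* T) {m s : ℕ} {γ : Fin m → Sˣ} {δ : Fin s → Tˣ} (hS : UnitFam (φ.comp ι) γ)
    (hT : UnitFam ι δ) : unitRk φ + s = m := by
  classical
  have hB : IsUnit (φ 1) := by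
    rw [map_one]
    exact isUnit_one
  have phi_inj : Function.Injective φ := by
    intro a b hab
    by_contra hne
    have h1 := phi_ne_zero hB h (sub_ne_zero.2 hne)
    rw [map_sub, hab, sub_self] at h1
    exact h1 rfl
  have hunit : ∀ a : T, a ≠ 0 → IsUnit (φ a) → IsUnit a := by
    intro a ha hu
    by_contra hn
    obtain ⟨r, hr, hra⟩ := WfDvdMonoid.exists_irreducible_factor hn ha
    exact hr.1 (isUnit_of_dvd_one (phi_unit_dvd h hu hr hra))
  -- the classes of the units `φ (t)`
  have cls_phi : ∀ t : Tˣ, cls φ (Additive.ofMul (Units.map (φ : T →* S) t)) = 0 := by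
    intro t
    rw [cls_eq_zero]
    refine ⟨Units.map ((algebraMap T (FractionRing T) : T →+* FractionRing T) :
      T →* FractionRing T) t, ?_⟩
    exact (cst_algebraMap φ (t : T)).symm
  have cls_const : ∀ c : kˣ,
      cls φ (Additive.ofMul (Units.map ((φ.comp ι : k →+* S) : k →* S) c)) = 0 := fun c =>
    cls_phi (Units.map (ι : k →* T) c)
  have hw : ∀ i, ∃ (c : kˣ) (n : Fin m → ℤ), Units.map (φ : T →* S) (δ i) =
      Units.map ((φ.comp ι : k →+* S) : k →* S) c * ∏ j, γ j ^ n j := fun i => hS.gen _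
  choose c0 w hw using hw
  -- the key identity
  have key : ∀ l : Fin s → ℤ, Units.map (φ : T →* S) (∏ i, δ i ^ l i) =
      Units.map ((φ.comp ι : k →+* S) : k →* S) (∏ i, c0 i ^ l i) * ∏ j, γ j ^ (wl w l j) := by
    intro l
    rw [prod_wl, map_prod, map_prod, ← Finset.prod_mul_distrib]
    refine Finset.prod_congr rfl fun i _ => ?_
    rw [map_zpow, hw i, mul_zpow, map_zpow]
  have hcomp : ∀ c : kˣ, Units.map (φ : T →* S) (Units.map (ι : k →* T) c) =
      Units.map ((φ.comp ι : k →+* S) : k →* S) c := fun c => rfl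
  have map_inj : Function.Injective (Units.map (φ : T →* S)) := by
    intro a b hab
    exact Units.ext (phi_inj (congrArg Units.val hab))
  -- `W` is injective
  have hWinj : Function.Injective (wl w) := by
    rw [injective_iff_map_eq_zero]
    intro l hl
    have h1 := key l
    rw [hl] at h1
    simp only [Pi.zero_apply, zpow_zero, Finset.prod_const_one, mul_one] at h1
    rw [← hcomp] at h1
    exact hT.indep _ _ (map_inj h1)
  -- the kernel of `θ`
  let θ : (Fin m → ℤ) →ₗ[ℤ] UnitsMod (cst φ) := ((cls φ).comp (ex γ)).toIntLinearMap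
  have hθ : ∀ n, θ n = cls φ (ex γ n) := fun n => rfl
  have hsurj : Function.Surjective θ := by
    intro x
    obtain ⟨u, rfl⟩ : ∃ u : (Gen φ)ˣ, (MonoidHom.toAdditive (QuotientGroup.mk'
      (Units.map (cst φ : FractionRing T →* Gen φ)).range)) (Additive.ofMul u) = x :=
      QuotientGroup.mk'_surjective (Units.map (cst φ : FractionRing T →* Gen φ)).range x
    obtain ⟨v, c, hv⟩ := gen_unit hB h u
    obtain ⟨c0, n, hn⟩ := hS.gen v
    refine ⟨n, ?_⟩
    have h1 : cls φ (Additive.ofMul v) = cls φ (ex γ n) := by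
      have h2 : Additive.ofMul v = Additive.ofMul (Units.map ((φ.comp ι : k →+* S) : k →* S) c0) +
          ex γ n := by
        rw [hn]
        rfl
      rw [h2, map_add, cls_const, zero_add]
    rw [hθ, ← h1]
    have h3 : u = Units.map (toGen φ : S →* Gen φ) v *
        Units.map (cst φ : FractionRing T →* Gen φ) c := Units.ext hv
    have h4 : (QuotientGroup.mk' (Units.map (cst φ : FractionRing T →* Gen φ)).range) u =
        (QuotientGroup.mk' (Units.map (cst φ : FractionRing T →* Gen φ)).range)
          (Units.map (toGen φ : S →* Gen φ) v) := by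
      refine QuotientGroup.eq.2 ⟨c⁻¹, ?_⟩
      rw [h3, map_inv, mul_inv, mul_comm, mul_inv_cancel_left]
    exact h4.symm
  have hker : LinearMap.ker θ = LinearMap.range (wl w) := by
    apply le_antisymm
    · intro n hn
      rw [LinearMap.mem_ker, hθ] at hn
      have h1 : cls φ (Additive.ofMul (∏ j, γ j ^ n j)) = 0 := hn
      rw [cls_eq_zero] at h1
      obtain ⟨c, hc⟩ := h1
      obtain ⟨a, a', ha, ha', hu, hu', hv⟩ := gen_const hB h _ c hc
      obtain ⟨a, rfl⟩ := hunit a ha hu
      obtain ⟨a', rfl⟩ := hunit a' ha' hu'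
      obtain ⟨c1, l, hl⟩ := hT.gen a
      obtain ⟨c2, l', hl'⟩ := hT.gen a'
      have h2 : (∏ j, γ j ^ n j) * Units.map (φ : T →* S) a' = Units.map (φ : T →* S) a :=
        Units.ext hv
      rw [hl, hl', map_mul, map_mul, key, key, hcomp, hcomp] at h2
      have h5 : ∏ j, γ j ^ (n j - wl w (fun i => l i - l' i) j) =
          Units.map ((φ.comp ι : k →+* S) : k →* S)
            (c1 * c2⁻¹ * ((∏ i, c0 i ^ l i) * (∏ i, c0 i ^ l' i)⁻¹)) := by
        have h6 : ∏ j, γ j ^ (n j - wl w (fun i => l i - l' i) j) =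
            (∏ j, γ j ^ n j) * (∏ j, γ j ^ (wl w l' j)) * (∏ j, γ j ^ (wl w l j))⁻¹ := by
          rw [← Finset.prod_inv_distrib, ← Finset.prod_mul_distrib, ← Finset.prod_mul_distrib]
          refine Finset.prod_congr rfl fun j _ => ?_
          have h7 : wl w (fun i => l i - l' i) j = wl w l j - wl w l' j := by
            have h8 : (fun i => l i - l' i) = l - l' := rfl
            rw [h8, map_sub, Pi.sub_apply]
          rw [h7, ← zpow_add, ← zpow_neg, ← zpow_add]
          congr 1
          ring
        have h9 : (∏ j, γ j ^ n j) * (∏ j, γ j ^ (wl w l' j)) =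
            Units.map ((φ.comp ι : k →+* S) : k →* S) c1 *
              (Units.map ((φ.comp ι : k →+* S) : k →* S) (∏ i, c0 i ^ l i) *
                ∏ j, γ j ^ (wl w l j)) *
              (Units.map ((φ.comp ι : k →+* S) : k →* S) c2 *
                Units.map ((φ.comp ι : k →+* S) : k →* S) (∏ i, c0 i ^ l' i))⁻¹ := by
          rw [← h2, eq_mul_inv_iff_mul_eq]
          simp only [mul_assoc, mul_comm, mul_left_comm]
        rw [h6, h9, mul_inv_eq_iff_eq_mul]
        simp only [map_mul, map_inv, mul_inv]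
        simp only [mul_assoc, mul_comm, mul_left_comm]
      have h8 := hS.indep _ _ h5
      refine ⟨fun i => l i - l' i, ?_⟩
      funext j
      have h9 := congrFun h8 j
      simp only [Pi.zero_apply] at h9
      omega
    · rintro _ ⟨l, rfl⟩
      rw [LinearMap.mem_ker, hθ]
      have h2 := cls_phi (∏ i, δ i ^ l i)
      rw [key l, ofMul_mul, map_add, cls_const, zero_add] at h2
      exact h2
  have h1 := Submodule.finrank_quotient_add_finrank (LinearMap.ker θ)
  rw [(LinearMap.quotKerEquivOfSurjective θ hsurj).finrank_eq, hker,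
    LinearMap.finrank_range_of_inj hWinj, Module.finrank_fintype_fun_eq_card,
    Module.finrank_fintype_fun_eq_card, Fintype.card_fin, Fintype.card_fin] at h1
  exact h1

end Pool.Agent.Lib.MP_1a0ddd_nt.Cn
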