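import Pool.Agent.Lib.MP_1a0ddd_nt.Cn.Defs
import Pool.Agent.Lib.MP_1a0ddd_nt.Quad.TwC

/-! Named parts of the statement of `CurveFibrations`. -/

set_option autoImplicit false

namespace Pool.Agent.Lib.MP_1a0ddd_nt.Cn

open Polynomial Pool.Agent.Lib.MP_1a0ddd_nt.V Pool.Agent.Lib.MP_1a0ddd_nt.Fb

/-- the average of `p - #U_τ` over the `F_p`-points `τ` of `Spec T` -/
noncomputable def avgRel {R T S : Type} [CommRing R] [CommRing T] [CommRing S] [Algebra R T]
    [Algebra R S] (φ : T →ₐ[R] S) (e p : ℕ) : ℝ :=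
  (∑ᶠ τ : T →+* ZMod p,
    ((p : ℝ) - Nat.card {σ : S →+* ZMod p // σ.comp (φ : T →+* S) = τ})) / (p : ℝ) ^ e

/-- the relative point count `(p^n #R(F_p) - #S(F_p)) / p^(n + d - 1)` -/
noncomputable def relCount (R S : Type) [CommRing R] [CommRing S] (d n p : ℕ) : ℝ :=
  (p : ℝ) * ((p : ℝ) ^ n * Nat.card (R →+* ZMod p) - Nat.card (S →+* ZMod p)) / (p : ℝ) ^ (n + d)

/-- affine spaces, open subsets and conic bundles inherit the relative Tate property -/
structure Closure (R : Type) [CommRing R] [IsDomain R] (d : ℕ) : Prop where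
  base : RelTate R R d 0 0
  poly : ∀ (S : Type) [CommRing S] [Algebra R S] (n e : ℕ), RelTate R S d n e →
    RelTate R S[X] d (n + 1) e
  open' : ∀ (S : Type) [CommRing S] [Algebra R S] (n e m e' : ℕ) (g : S)
    (P : Fin m → Ideal S), RelTate R S d n e → g ≠ 0 → CompsG R (Ideal.span {g}) e' P →
      e' + 1 = n + d → RelTate R (Localization.Away g) d n (e + m)
  conic : ∀ (S : Type) [CommRing S] [Algebra R S] (n e e' : ℕ) (a b c : S),
    RelTate R S d n e → ConicData R a b c e' → e' + 1 = n + d →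
      RelTate R (Conic a b c) d (n + 1) e

end Pool.Agent.Lib.MP_1a0ddd_nt.Cn
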