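import Pool.Agent.Lib.MP_1a0ddd_nt.Cn.Pid
import Pool.Agent.Lib.MP_1a0ddd_nt.Cn.Nag
import Pool.Agent.Lib.MP_1a0ddd_nt.Cn.Prm

/-! Conic bundles over factorial rings are factorial. -/

set_option autoImplicit false

namespace Pool.Agent.Lib.MP_1a0ddd_nt.Cn

open Polynomial Pool.Agent.Lib.MP_1a0ddd_nt.V Pool.Agent.Lib.MP_1a0ddd_nt.Fb

variable {O : Type} [CommRing O] [IsDomain O] [UniqueFactorizationMonoid O]
  {a b c : O}

private theorem toConic_inj {S : Type} [CommRing S] [Nontrivial S] {a b c : S} :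
    Function.Injective (toConic a b c) := by
  intro s t h
  rw [elc_C, elc_C] at h
  exact C_injective (elc_inj h).1

private theorem noeth {S : Type} [CommRing S] [IsNoetherianRing S] (a b c : S) :
    IsNoetherianRing (Conic a b c) := by
  unfold Conic
  exact inferInstanceAs (IsNoetherianRing (S[X][X] ⧸ _))

/-- common denominators for one polynomial -/
private theorem clear_poly {S : Type} [CommRing S] [IsDomain S] (p : (FractionRing S)[X]) :
    ∃ (w : S) (q : S[X]), w ≠ 0 ∧
      q.map (algebraMap S (FractionRing S)) = C (algebraMap S (FractionRing S) w) * p := by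
  obtain ⟨w, hw0, hw⟩ := IsLocalization.integerNormalization_spec (nonZeroDivisors S) p
  refine ⟨w, IsLocalization.integerNormalization (nonZeroDivisors S) p,
    nonZeroDivisors.ne_zero hw0, ?_⟩
  rw [hw, ← smul_eq_C_mul]
  exact (algebraMap_smul (FractionRing S) w p).symm

/-- the anisotropy over the fraction field -/
private theorem aniso_frac {S : Type} [CommRing S] [IsDomain S] {a b c : S}
    (h : ∀ x y z : S, y ^ 2 = a * x ^ 2 + 2 * b * x * z + c * z ^ 2 → x = 0 ∧ z = 0) :
    ∀ x y z : FractionRing S, y ^ 2 = algebraMap S (FractionRing S) a * x ^ 2 +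
      2 * algebraMap S (FractionRing S) b * x * z + algebraMap S (FractionRing S) c * z ^ 2 →
      x = 0 ∧ z = 0 := by
  classical
  intro x y z hxyz
  obtain ⟨w, hw⟩ := IsLocalization.exist_integer_multiples_of_finset (nonZeroDivisors S)
    ({x, y, z} : Finset (FractionRing S))
  obtain ⟨x', hx⟩ := hw x (by simp)
  obtain ⟨y', hy⟩ := hw y (by simp)
  obtain ⟨z', hz⟩ := hw z (by simp)
  rw [Algebra.smul_def] at hx hy hz
  have hj : Function.Injective (algebraMap S (FractionRing S)) := IsFractionRing.injective _ _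
  have hw0 : algebraMap S (FractionRing S) w ≠ 0 := by
    rw [Ne, map_eq_zero_iff _ hj]
    exact nonZeroDivisors.ne_zero w.2
  have e : y' ^ 2 = a * x' ^ 2 + 2 * b * x' * z' + c * z' ^ 2 := by
    apply hj
    simp only [map_add, map_mul, map_pow, map_ofNat, hx, hy, hz]
    linear_combination (algebraMap S (FractionRing S) w) ^ 2 * hxyz
  obtain ⟨h1, h2⟩ := h x' y' z' e
  rw [h1, map_zero] at hx
  rw [h2, map_zero] at hz
  exact ⟨(mul_eq_zero.1 hx.symm).resolve_left hw0, (mul_eq_zero.1 hz.symm).resolve_left hw0⟩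

/-- proof: `nagata` with `B` the conic over the fraction field of `O` (`conic_pid`, `conic_map`) -/
theorem conic_ufd [IsNoetherianRing O] (h2 : IsUnit (2 : O))
    (h : ∀ x y z : O, y ^ 2 = a * x ^ 2 + 2 * b * x * z + c * z ^ 2 → x = 0 ∧ z = 0)
    (hπ : ∀ π : O, Prime π → π ∣ b ^ 2 - a * c → ∃ u : O, (u = a ∨ u = c) ∧
      ∀ x y : O, π ∣ y ^ 2 - u * x ^ 2 → π ∣ x) :
    UniqueFactorizationMonoid (Conic a b c) := by
  set j := algebraMap O (FractionRing O) with hj
  have hji : Function.Injective j := IsFractionRing.injective _ _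
  have h' := aniso_frac h
  have hd : IsDomain (Conic a b c) := conic_domain h
  have hd' : IsDomain (Conic (j a) (j b) (j c)) := conic_domain h'
  have hn : IsNoetherianRing (Conic a b c) := noeth a b c
  have hp : IsPrincipalIdealRing (Conic (j a) (j b) (j c)) := conic_pid h'
  have hu : UniqueFactorizationMonoid (Conic (j a) (j b) (j c)) :=
    PrincipalIdealRing.to_uniqueFactorizationMonoid
  obtain ⟨J, hJ⟩ := conic_map (a := a) (b := b) (c := c) j
  refine nagata (toConic a b c) toConic_inj J ?_ ?_ ?_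
    (fun π h3 => conic_prime h2 h3 (hπ π h3))
  · intro z z' hz
    obtain ⟨α, β, rfl⟩ := elc_surj z
    obtain ⟨α', β', rfl⟩ := elc_surj z'
    rw [hJ, hJ] at hz
    obtain ⟨h3, h4⟩ := elc_inj hz
    rw [map_injective j hji h3, map_injective j hji h4]
  · intro w hw
    have e : J (toConic a b c w) = toConic (j a) (j b) (j c) (j w) := by
      rw [elc_C, elc_C, hJ, map_C, Polynomial.map_zero]
    rw [e]
    refine IsUnit.map (toConic (j a) (j b) (j c)) (IsUnit.mk0 _ ?_)
    rwa [Ne, map_eq_zero_iff _ hji]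
  · intro y
    obtain ⟨α, β, rfl⟩ := elc_surj y
    obtain ⟨w1, α', hw1, hα⟩ := clear_poly α
    obtain ⟨w2, β', hw2, hβ⟩ := clear_poly β
    refine ⟨elc a b c (C w2 * α') (C w1 * β'), w1 * w2, mul_ne_zero hw1 hw2, ?_⟩
    have e : J (toConic a b c (w1 * w2)) = toConic (j a) (j b) (j c) (j (w1 * w2)) := by
      rw [elc_C, elc_C, hJ, map_C, Polynomial.map_zero]
    rw [e, elc_C, elc_mul, hJ, Polynomial.map_mul, Polynomial.map_mul, map_C, map_C, hα, hβ]
    congr 1
    · rw [map_mul, C_mul]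
      ring
    · rw [map_mul, C_mul]
      ring

/-- proof: the norm of a unit `α + β v` is a unit of `O[X]`, hence of degree `0`; by
`norm_degree` `β = 0` and `α` is a constant -/
theorem conic_units (h : ∀ x y z : O, y ^ 2 = a * x ^ 2 + 2 * b * x * z + c * z ^ 2 → x = 0 ∧ z = 0)
    (z : (Conic a b c)ˣ) : ∃ s : Oˣ, z = Units.map (toConic a b c : O →* Conic a b c) s := by
  obtain ⟨α, β, hz⟩ := elc_surj (z : Conic a b c)
  obtain ⟨α', β', hz'⟩ := elc_surj ((z⁻¹ : (Conic a b c)ˣ) : Conic a b c)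
  have h1 : elc a b c α β * elc a b c α' β' = elc a b c (C 1) 0 := by
    rw [← hz, ← hz', Units.mul_inv, ← elc_C, map_one]
  rw [elc_mul] at h1
  obtain ⟨h2, h3⟩ := elc_inj h1
  rw [C_1] at h2
  have h4 : (α ^ 2 - cq a b c * β ^ 2) * (α' ^ 2 - cq a b c * β' ^ 2) = 1 := by
    have e1 : (α ^ 2 - cq a b c * β ^ 2) * (α' ^ 2 - cq a b c * β' ^ 2) =
        (α * α' + cq a b c * β * β') ^ 2 - cq a b c * (α * β' + β * α') ^ 2 := by ring
    rw [e1, h2, h3]
    ring
  have h5 : IsUnit (α ^ 2 - cq a b c * β ^ 2) := IsUnit.of_mul_eq_one _ h4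
  have h6 : (α ^ 2 - cq a b c * β ^ 2).natDegree = 0 := natDegree_eq_zero_of_isUnit h5
  have h7 : α ≠ 0 ∨ β ≠ 0 := by
    by_contra h8
    rw [not_or, not_not, not_not] at h8
    rw [h8.1, h8.2] at h4
    simp at h4
  obtain ⟨-, h8, -⟩ := norm_degree h h7
  have h9 : β = 0 := by
    by_contra h10
    have h11 := h8 h10
    rw [h6] at h11
    have h12 := le_max_right α.natDegree (β.natDegree + 1)
    omega
  subst h9
  have h10 : IsUnit (α ^ 2) := by
    have e1 : α ^ 2 - cq a b c * (0 : O[X]) ^ 2 = α ^ 2 := by ring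
    rwa [e1] at h5
  have h11 : IsUnit α := (isUnit_pow_iff two_ne_zero).1 h10
  obtain ⟨s, hs, hα⟩ := Polynomial.isUnit_iff.1 h11
  obtain ⟨s, rfl⟩ := hs
  refine ⟨s, Units.ext ?_⟩
  rw [hz, ← hα, ← elc_C]
  rfl

theorem conic_unitFam {k : Type} [Field k] (κ : k →+* O) {e : ℕ} {γ : Fin e → Oˣ}
    (hγ : UnitFam κ γ)
    (h : ∀ x y z : O, y ^ 2 = a * x ^ 2 + 2 * b * x * z + c * z ^ 2 → x = 0 ∧ z = 0) :
    UnitFam ((toConic a b c).comp κ)
      (fun i => Units.map (toConic a b c : O →* Conic a b c) (γ i)) := by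
  have h0 : ∀ n : Fin e → ℤ, ∏ i, Units.map (toConic a b c : O →* Conic a b c) (γ i) ^ n i =
      Units.map (toConic a b c : O →* Conic a b c) (∏ i, γ i ^ n i) := by
    intro n
    rw [map_prod]
    exact Finset.prod_congr rfl fun i _ => (map_zpow _ _ _).symm
  have h1 : ∀ d : kˣ, Units.map (((toConic a b c).comp κ : k →+* Conic a b c) :
      k →* Conic a b c) d = Units.map (toConic a b c : O →* Conic a b c)
        (Units.map (κ : k →* O) d) := fun d => Units.ext rfl
  constructor
  · intro v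
    obtain ⟨s, rfl⟩ := conic_units h v
    obtain ⟨d, n, hs⟩ := hγ.gen s
    refine ⟨d, n, ?_⟩
    rw [h0, h1, ← map_mul, ← hs]
  · intro d n hn
    rw [h0, h1] at hn
    refine hγ.indep d n (Units.ext ?_)
    exact toConic_inj (congrArg Units.val hn)

end Pool.Agent.Lib.MP_1a0ddd_nt.Cn
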